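import Mathlib
import Pool.Agent.H819.LG.Crit

/-!
# Exact forms which are very positive near a set of zero two-dimensional measure
-/

set_option autoImplicit false

open Set Filter Topology MeasureTheory Metric
open scoped ContDiff ENNReal NNReal

noncomputable section

namespace Pool.Agent.H819.HN

open Pool.Agent.Y501.SY (E)

/-- economical covers: this is `exists_economical` of `HN/Cover.lean` -/
def S_Cover (d : ℕ) : Prop := ∀ S : Set (E d), IsCompact S → μH[2] S = 0 →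
  ∀ ε δ : ℝ, 0 < ε → 0 < δ →
    ∃ (n : ℕ) (x : Fin n → E d) (r : Fin n → ℝ), (∀ i, 0 < r i ∧ r i ≤ δ) ∧
      (∀ i, x i ∈ S) ∧ (∀ y ∈ S, ∃ i, ‖y - x i‖ < r i) ∧
      ∀ z : E d, ∑ i, r i ^ 2 / (‖z - x i‖ + r i) ≤ ε

/-- the potentials: this is `exists_pot` of `HN/Pot.lean` -/
def S_Pot (d : ℕ) : Prop := ∀ M : ℝ, ∃ c C : ℝ, 0 < c ∧ 0 ≤ C ∧
    ∀ T : E d →L[ℝ] E d, (∀ u, T (T u) = -u) →
    ‖T‖ ≤ M → ∀ (x : E d) (r : ℝ), 0 < r →
    ∃ b : E d → (E d) [⋀^Fin 1]→L[ℝ] ℝ,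
      ContDiff ℝ ∞ b ∧
      (∀ z, ‖b z‖ ≤ C * (r ^ 2 / (‖z - x‖ + r))) ∧
      (∀ z, ‖extDeriv b z‖ * ‖z - x‖ ≤ C * (r ^ 2 / (‖z - x‖ + r))) ∧
      (∀ z u v, extDeriv b z ![T u, T v] = extDeriv b z ![u, v]) ∧
      (∀ z u, 0 ≤ extDeriv b z ![u, T u]) ∧
      ∀ z u, ‖z - x‖ ≤ r → c * ‖u‖ ^ 2 ≤ extDeriv b z ![u, T u]

section helpers

variable {d : ℕ}

theorem ps_add_left (s : (E d) [⋀^Fin 2]→L[ℝ] ℝ) (x y z : E d) :
    s ![x + y, z] = s ![x, z] + s ![y, z] := by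
  have := s.toAlternatingMap.map_update_add ![x, z] 0 x y
  have h1 : ∀ w : E d, Function.update ![x, z] 0 w = ![w, z] := by
    intro w; funext i; fin_cases i <;> simp
  rw [h1, h1, h1] at this
  exact this

theorem ps_add_right (s : (E d) [⋀^Fin 2]→L[ℝ] ℝ) (x y z : E d) :
    s ![x, y + z] = s ![x, y] + s ![x, z] := by
  have := s.toAlternatingMap.map_update_add ![x, y] 1 y z
  have h1 : ∀ w : E d, Function.update ![x, y] 1 w = ![x, w] := by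
    intro w; funext i; fin_cases i <;> simp
  rw [h1, h1, h1] at this
  exact this

theorem ps_form1_le (f : (E d) [⋀^Fin 1]→L[ℝ] ℝ) (u : E d) : |f ![u]| ≤ ‖f‖ * ‖u‖ := by
  have h := f.le_opNorm ![u]
  rw [Fin.prod_univ_one] at h
  exact h

theorem ps_form2_le (f : (E d) [⋀^Fin 2]→L[ℝ] ℝ) (u w : E d) :
    |f ![u, w]| ≤ ‖f‖ * (‖u‖ * ‖w‖) := by
  have h := f.le_opNorm ![u, w]
  rw [Fin.prod_univ_two] at h
  exact h

theorem ps_ext {β : E d → (E d) [⋀^Fin 1]→L[ℝ] ℝ} {z : E d} (h : DifferentiableAt ℝ β z)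
    (u v : E d) : extDeriv β z ![u, v] = fderiv ℝ β z u ![v] - fderiv ℝ β z v ![u] := by
  rw [extDeriv_apply h, Fin.sum_univ_two]
  have e0 : Fin.removeNth 0 (![u, v] : Fin 2 → E d) = ![v] := by
    funext i; fin_cases i; rfl
  have e1 : Fin.removeNth 1 (![u, v] : Fin 2 → E d) = ![u] := by
    funext i; fin_cases i; rfl
  have hfd : ∀ w x : E d, fderiv ℝ (fun z => β z ![w]) z x = fderiv ℝ β z x ![w] := by
    intro w x
    have h1 := ((Pool.Agent.Y431.SY.ev (![w] : Fin 1 → E d)).hasFDerivAt.comp z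
      h.hasFDerivAt).fderiv
    have h2 : fderiv ℝ (fun z => β z ![w]) z =
      (Pool.Agent.Y431.SY.ev (![w] : Fin 1 → E d)).comp (fderiv ℝ β z) := h1
    rw [h2]
    rfl
  rw [e0, e1]
  simp only [Fin.val_zero, pow_zero, one_smul, Fin.val_one, pow_one, neg_smul,
    Matrix.cons_val_zero, Matrix.cons_val_one, hfd]
  ring

theorem ps_one {w : (E d) [⋀^Fin 2]→L[ℝ] ℝ} {A T : E d →L[ℝ] E d} {q : ℝ}
    (hq : ‖w‖ * ‖A - T‖ ≤ q) (u : E d) : w ![u, T u] - q * ‖u‖ ^ 2 ≤ w ![u, A u] := by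
  have h1 : A u = T u + (A - T) u := by
    rw [sub_apply]
    abel
  have h2 := ps_form2_le w u ((A - T) u)
  have h3 := (A - T).le_opNorm u
  have h4 : ‖w‖ * (‖u‖ * ‖(A - T) u‖) ≤ q * ‖u‖ ^ 2 := by
    calc ‖w‖ * (‖u‖ * ‖(A - T) u‖) ≤ ‖w‖ * (‖u‖ * (‖A - T‖ * ‖u‖)) := by gcongr
      _ = (‖w‖ * ‖A - T‖) * ‖u‖ ^ 2 := by ring
      _ ≤ q * ‖u‖ ^ 2 := by gcongr
  have h5 := (abs_le.1 h2).1
  rw [h1, ps_add_right]
  linarith

theorem ps_two {w : (E d) [⋀^Fin 2]→L[ℝ] ℝ} {A T : E d →L[ℝ] E d} {q M : ℝ}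
    (hq : ‖w‖ * ‖A - T‖ ≤ q) (hA : ‖A‖ ≤ M) (hT : ‖T‖ ≤ M) (u v : E d)
    (hinv : w ![T u, T v] = w ![u, v]) :
    |w ![A u, A v] - w ![u, v]| ≤ 2 * M * q * ‖u‖ * ‖v‖ := by
  have hM : 0 ≤ M := (norm_nonneg A).trans hA
  have h1 : ∀ x, A x = T x + (A - T) x := by
    intro x
    rw [sub_apply]
    abel
  have h2 : w ![A u, A v] - w ![u, v] = w ![(A - T) u, A v] + w ![T u, (A - T) v] := by
    rw [← hinv]
    conv_lhs => rw [h1 u, ps_add_left]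
    have h3 : w ![T u, A v] = w ![T u, T v] + w ![T u, (A - T) v] := by
      conv_lhs => rw [h1 v, ps_add_right]
    rw [h3]
    ring
  have h4 := ps_form2_le w ((A - T) u) (A v)
  have h5 := ps_form2_le w (T u) ((A - T) v)
  have k1 := (A - T).le_opNorm u
  have k2 := (A - T).le_opNorm v
  have k3 : ‖A v‖ ≤ M * ‖v‖ := (A.le_opNorm v).trans (by gcongr)
  have k4 : ‖T u‖ ≤ M * ‖u‖ := (T.le_opNorm u).trans (by gcongr)
  have h6 : ‖w‖ * (‖(A - T) u‖ * ‖A v‖) ≤ M * q * ‖u‖ * ‖v‖ := by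
    calc ‖w‖ * (‖(A - T) u‖ * ‖A v‖) ≤ ‖w‖ * ((‖A - T‖ * ‖u‖) * (M * ‖v‖)) := by gcongr
      _ = M * (‖w‖ * ‖A - T‖) * ‖u‖ * ‖v‖ := by ring
      _ ≤ M * q * ‖u‖ * ‖v‖ := by gcongr
  have h7 : ‖w‖ * (‖T u‖ * ‖(A - T) v‖) ≤ M * q * ‖u‖ * ‖v‖ := by
    calc ‖w‖ * (‖T u‖ * ‖(A - T) v‖) ≤ ‖w‖ * ((M * ‖u‖) * (‖A - T‖ * ‖v‖)) := by gcongr
      _ = M * (‖w‖ * ‖A - T‖) * ‖u‖ * ‖v‖ := by ring
      _ ≤ M * q * ‖u‖ * ‖v‖ := by gcongr
  rw [h2]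
  calc |w ![(A - T) u, A v] + w ![T u, (A - T) v]| ≤
      |w ![(A - T) u, A v]| + |w ![T u, (A - T) v]| := abs_add_le _ _
    _ ≤ M * q * ‖u‖ * ‖v‖ + M * q * ‖u‖ * ‖v‖ := add_le_add (h4.trans h6) (h5.trans h7)
    _ = 2 * M * q * ‖u‖ * ‖v‖ := by ring

/-- the exterior derivative of a cut-off sum -/
theorem ps_sum {n : ℕ} {b : Fin n → E d → (E d) [⋀^Fin 1]→L[ℝ] ℝ} {χ : E d → ℝ} {K₀ : ℝ}
    {z : E d} (hb : ∀ i, DifferentiableAt ℝ (b i) z) (hχ : DifferentiableAt ℝ χ z) (u v : E d) :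
    extDeriv (fun z => χ z • ∑ i, K₀ • b i z) z ![u, v] =
      χ z * ∑ i, K₀ * extDeriv (b i) z ![u, v] +
        (fderiv ℝ χ z u * (∑ i, K₀ • b i z) ![v] - fderiv ℝ χ z v * (∑ i, K₀ • b i z) ![u]) := by
  have h1 : HasFDerivAt (fun z => ∑ i, K₀ • b i z) (∑ i, K₀ • fderiv ℝ (b i) z) z :=
    HasFDerivAt.fun_sum fun i _ => (hb i).hasFDerivAt.const_smul K₀
  have h2 : HasFDerivAt (fun z => χ z • ∑ i, K₀ • b i z)
      (χ z • ∑ i, K₀ • fderiv ℝ (b i) z + (fderiv ℝ χ z).smulRight (∑ i, K₀ • b i z)) z :=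
    hχ.hasFDerivAt.smul h1
  have h3 : ∀ u v : E d, fderiv ℝ (fun z => χ z • ∑ i, K₀ • b i z) z u ![v] =
      χ z * ∑ i, K₀ * fderiv ℝ (b i) z u ![v] + fderiv ℝ χ z u * (∑ i, K₀ • b i z) ![v] := by
    intro u v
    rw [h2.fderiv]
    have h4 : ((∑ i, K₀ • fderiv ℝ (b i) z) u) ![v] = ∑ i, K₀ * fderiv ℝ (b i) z u ![v] := by
      rw [sum_apply, ContinuousAlternatingMap.sum_apply]
      rfl
    rw [← h4]
    rfl
  rw [ps_ext h2.differentiableAt, h3, h3]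
  have h5 : ∑ i, K₀ * extDeriv (b i) z ![u, v] = ∑ i, K₀ * fderiv ℝ (b i) z u ![v] -
      ∑ i, K₀ * fderiv ℝ (b i) z v ![u] := by
    rw [← Finset.sum_sub_distrib]
    refine Finset.sum_congr rfl fun i _ => ?_
    rw [ps_ext (hb i), mul_sub]
  rw [h5]
  ring

end helpers

/-- **Exact forms near a set of zero two-dimensional Hausdorff measure.**

Proof.  Let `N = cthickening δ₀ S ⊆ U` be a compact neighbourhood of `S`, `M` a bound of `‖A‖` on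
`N`, `L ≥ 0` a Lipschitz constant of `A` on `N` (`hlip`), and let `χ : E d → ℝ` be smooth, `0 ≤ χ ≤ 1`,
`tsupport χ ⊆ interior N` compact, `χ = 1` on a neighbourhood `V` of `S` (for instance
`exists_contMDiff_support_eq_eq_one_iff` or `exists_contDiff_tsupport_subset`; see `exists_cut` in
`LG/Main.lean`), `B₁` a bound of `‖fderiv ℝ χ‖`.  Let `c, C` be the constants of `S_Pot` for `M`.
Choose `ε₁ > 0` small (see below), take the cover `x_i ∈ S`, `r_i` of `S_Cover` for `ε₁` and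
`δ` so small that `ball (x_i) (r_i) ⊆ V`; put `T_i = A (x_i)` (`x_i ∈ S ⊆ N`), `b_i` the
form of `S_Pot` for `T_i, x_i, r_i`; let `K₀ = (|K| + 1) / c` and `b = χ • ∑_i K₀ • b_i`.
For `z ∈ N`, with `P(z) = ∑ r_i² / (‖z - x_i‖ + r_i) ≤ ε₁`:
* `‖∑ K₀ b_i z‖ ≤ K₀ C P(z)`, `extDeriv b z ![u, v] = χ(z) ∑ K₀ extDeriv b_i z ![u, v] + dχ(u) B ![v]
  - dχ(v) B ![u]` with `B = ∑ K₀ b_i z`; the last two terms are at most `2 B₁ K₀ C ε₁ ‖u‖ ‖v‖`;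
* `|extDeriv b_i z ![u, A z u] - extDeriv b_i z ![u, T_i u]| ≤ 2 ‖extDeriv b_i z‖ ‖u‖ ‖A z - T_i‖ ‖u‖
  ≤ 2 L ‖extDeriv b_i z‖ ‖z - x_i‖ ‖u‖² ≤ 2 L C r_i² / (‖z - x_i‖ + r_i) ‖u‖²`
  (`form2_le` in `LG` bounds `|s ![u, v]|`), so the sum over `i` is at most `2 L C K₀ ε₁ ‖u‖²`;
* similarly `|extDeriv b_i z ![A z u, A z v] - extDeriv b_i z ![u, v]| ≤ ‖extDeriv b_i z‖ * 2 * (2 M) *
  L ‖z - x_i‖ ‖u‖ ‖v‖`, using the invariance under `T_i` and `‖A z‖, ‖T_i‖ ≤ M`;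
* on `O = V ∩ ⋃ ball (x_i) (r_i)` (an open neighbourhood of `S`, contained in `U`): `χ = 1` near `z` and some
  `‖z - x_i‖ < r_i`, so `∑ K₀ extDeriv b_i z ![u, T_i u] ≥ K₀ c ‖u‖² = (|K| + 1) ‖u‖²`.
Outside the support of `χ` the form `extDeriv b` vanishes.  Choose `ε₁` so small (depending on
`K₀, C, L, B₁, M, ε`) that all the errors are at most `min ε 1`. -/
theorem exists_exact_near {d : ℕ} (hcov : S_Cover d) (hpot : S_Pot d) {U : Set (E d)}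
    (hU : IsOpen U) {A : E d → E d →L[ℝ] E d} (hA2 : ∀ z ∈ U, ∀ u, A z (A z u) = -u)
    (hcont : ContinuousOn A U)
    (hlip : ∀ N, IsCompact N → N ⊆ U → ∃ L : ℝ, ∀ z ∈ N, ∀ z' ∈ N, ‖A z' - A z‖ ≤ L * ‖z' - z‖)
    {S : Set (E d)} (hS : IsCompact S) (hSU : S ⊆ U) (h0 : μH[2] S = 0) (K : ℝ) {ε : ℝ}
    (hε : 0 < ε) :
    ∃ (b : E d → (E d) [⋀^Fin 1]→L[ℝ] ℝ) (Q : Set (E d)), ContDiff ℝ ∞ b ∧ IsCompact Q ∧ Q ⊆ U ∧
      (∀ z, z ∉ Q → b z = 0) ∧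
      (∀ z ∈ U, ∀ u, -(ε * ‖u‖ ^ 2) ≤ extDeriv b z ![u, A z u]) ∧
      (∀ z ∈ U, ∀ u v, |extDeriv b z ![A z u, A z v] - extDeriv b z ![u, v]| ≤ ε * ‖u‖ * ‖v‖) ∧
      ∃ O : Set (E d), IsOpen O ∧ S ⊆ O ∧ O ⊆ U ∧
        ∀ z ∈ O, ∀ u, K * ‖u‖ ^ 2 ≤ extDeriv b z ![u, A z u] := by
  obtain ⟨δ, hδ, hδU⟩ := hS.exists_cthickening_subset_open hU hSU
  have hδ2 : 0 < δ / 2 := by positivity
  have hδ4 : 0 < δ / 4 := by positivity
  set Q : Set (E d) := cthickening (δ / 2) S with hQdef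
  have hQ : IsCompact Q := hS.cthickening
  have hQU : Q ⊆ U := (cthickening_mono (by linarith) S).trans hδU
  have hSQ : S ⊆ Q := self_subset_cthickening S
  -- bounds
  obtain ⟨M₀, hM₀⟩ := hQ.exists_bound_of_continuousOn (hcont.mono hQU)
  obtain ⟨L₀, hL₀⟩ := hlip Q hQ hQU
  set M : ℝ := |M₀| with hMdef
  set L : ℝ := |L₀| with hLdef
  have hM0 : 0 ≤ M := abs_nonneg _
  have hL0 : 0 ≤ L := abs_nonneg _
  have hM : ∀ z ∈ Q, ‖A z‖ ≤ M := fun z hz => (hM₀ z hz).trans (le_abs_self _)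
  have hL : ∀ z ∈ Q, ∀ z' ∈ Q, ‖A z' - A z‖ ≤ L * ‖z' - z‖ := fun z hz z' hz' =>
    (hL₀ z hz z' hz').trans (by gcongr; exact le_abs_self _)
  -- the cut-off function
  obtain ⟨χ, hχm, hχ1, hχ2, hχ3⟩ := exists_contMDiff_support_eq_eq_one_iff (n := (⊤ : ℕ∞))
    (modelWithCornersSelf ℝ (E d)) (isOpen_thickening (δ := δ / 2) (E := S)) (isClosed_cthickening (δ := δ / 4) (E := S))
    (cthickening_subset_thickening' hδ2 (by linarith) S)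
  have hχs : ContDiff ℝ ∞ χ := contMDiff_iff_contDiff.1 hχm
  have hχ01 : ∀ z, χ z ∈ Icc (0 : ℝ) 1 := fun z => hχ1 (mem_range_self z)
  have hχ0 : ∀ z, z ∉ Q → χ z = 0 := by
    intro z hz
    by_contra h
    have h1 : z ∈ Function.support χ := h
    rw [hχ2] at h1
    exact hz (thickening_subset_cthickening _ _ h1)
  have hχc : HasCompactSupport χ := by
    refine hQ.of_isClosed_subset (isClosed_tsupport χ) ?_
    rw [tsupport, hχ2]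
    exact closure_thickening_subset_cthickening _ _
  obtain ⟨B₀, hB₀⟩ := (hχc.fderiv (𝕜 := ℝ)).exists_bound_of_continuous
    (hχs.continuous_fderiv (by simp))
  set B₁ : ℝ := |B₀| with hB₁def
  have hB₁0 : 0 ≤ B₁ := abs_nonneg _
  have hB₁ : ∀ z, ‖fderiv ℝ χ z‖ ≤ B₁ := fun z => (hB₀ z).trans (le_abs_self _)
  -- the constants
  obtain ⟨c, C, hc, hC, hpot⟩ := hpot M
  set K₀ : ℝ := (|K| + 1) / c with hK₀
  have hK₀0 : 0 < K₀ := by positivity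
  set Γ : ℝ := 2 * B₁ * (K₀ * C) * M + K₀ * (L * C) + 2 * M * (K₀ * (L * C)) +
    2 * B₁ * (K₀ * C) * (M ^ 2 + 1) + 1 with hΓ
  have hg1 : 0 ≤ 2 * B₁ * (K₀ * C) * M := by positivity
  have hg2 : 0 ≤ K₀ * (L * C) := by positivity
  have hg3 : 0 ≤ 2 * M * (K₀ * (L * C)) := by positivity
  have hg4 : 0 ≤ 2 * B₁ * (K₀ * C) * (M ^ 2 + 1) := by positivity
  have hΓ0 : 0 < Γ := by
    rw [hΓ]
    linarith
  set μ : ℝ := min ε 1 with hμ
  have hμ0 : 0 < μ := lt_min hε one_pos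
  set ε₁ : ℝ := μ / Γ with hε₁
  have hε₁0 : 0 < ε₁ := by positivity
  have hε₁Γ : ε₁ * Γ = μ := div_mul_cancel₀ _ hΓ0.ne'
  obtain ⟨n, x, r, hr, hxS, hcovS, hP⟩ := hcov S hS h0 ε₁ (δ / 4) hε₁0 hδ4
  choose b hbs hb1 hb2 hb3 hb4 hb5 using fun i => hpot (A (x i)) (hA2 (x i) (hSU (hxS i)))
    (hM (x i) (hSQ (hxS i))) (x i) (r i) (hr i).1
  have hbd : ∀ i z, DifferentiableAt ℝ (b i) z := fun i z =>
    (hbs i).contDiffAt.differentiableAt (by simp)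
  have hχd : ∀ z, DifferentiableAt ℝ χ z := fun z => hχs.contDiffAt.differentiableAt (by simp)
  set p : Fin n → E d → ℝ := fun i z => r i ^ 2 / (‖z - x i‖ + r i) with hp
  have hp0 : ∀ i z, 0 ≤ p i z := by
    intro i z
    have := (hr i).1
    show 0 ≤ r i ^ 2 / (‖z - x i‖ + r i)
    positivity
  have hbase : ∀ i, ∀ z ∈ Q, ‖extDeriv (b i) z‖ * ‖A z - A (x i)‖ ≤ L * (C * p i z) := by
    intro i z hz
    calc ‖extDeriv (b i) z‖ * ‖A z - A (x i)‖ ≤ ‖extDeriv (b i) z‖ * (L * ‖z - x i‖) := by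
          gcongr
          exact hL (x i) (hSQ (hxS i)) z hz
      _ = L * (‖extDeriv (b i) z‖ * ‖z - x i‖) := by ring
      _ ≤ L * (C * p i z) := mul_le_mul_of_nonneg_left (hb2 i z) hL0
  have hBn : ∀ z, ‖∑ i, K₀ • b i z‖ ≤ K₀ * C * ε₁ := by
    intro z
    calc ‖∑ i, K₀ • b i z‖ ≤ ∑ i, ‖K₀ • b i z‖ := norm_sum_le _ _
      _ ≤ ∑ i, K₀ * C * p i z := by
          refine Finset.sum_le_sum fun i _ => ?_
          rw [norm_smul, Real.norm_eq_abs, abs_of_pos hK₀0, mul_assoc]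
          gcongr
          exact hb1 i z
      _ = K₀ * C * ∑ i, p i z := by rw [Finset.mul_sum]
      _ ≤ K₀ * C * ε₁ := by
          gcongr
          exact hP z
  set β : E d → (E d) [⋀^Fin 1]→L[ℝ] ℝ := fun z => χ z • ∑ i, K₀ • b i z with hβ
  have hβs : ContDiff ℝ ∞ β := hχs.smul (ContDiff.sum fun i _ => (hbs i).const_smul K₀)
  have hβ0 : ∀ z, z ∉ Q → β z = 0 := by
    intro z hz
    show χ z • ∑ i, K₀ • b i z = 0
    rw [hχ0 z hz, zero_smul]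
  have hβe : ∀ z, z ∉ Q → extDeriv β z = 0 := by
    intro z hz
    have h1 : β =ᶠ[𝓝 z] fun _ => 0 := by
      filter_upwards [hQ.isClosed.isOpen_compl.mem_nhds hz] with y hy
      exact hβ0 y hy
    rw [h1.extDeriv_eq, Pool.Agent.H819.LG.extDeriv_zero']
  set D : E d → E d → E d → ℝ := fun z u v => ∑ i, K₀ * extDeriv (b i) z ![u, v] with hD
  have herr : ∀ z u v, |extDeriv β z ![u, v] - χ z * D z u v| ≤
      2 * B₁ * (K₀ * C * ε₁) * ‖u‖ * ‖v‖ := by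
    intro z u v
    have h1 : extDeriv β z ![u, v] - χ z * D z u v = fderiv ℝ χ z u * (∑ i, K₀ • b i z) ![v] -
        fderiv ℝ χ z v * (∑ i, K₀ • b i z) ![u] := by
      have h2 := ps_sum (K₀ := K₀) (fun i => hbd i z) (hχd z) u v
      have h3 : extDeriv β z ![u, v] = _ := h2
      rw [h3]
      show _ + _ - χ z * (∑ i, K₀ * extDeriv (b i) z ![u, v]) = _
      ring
    have h4 : ∀ u v : E d, |fderiv ℝ χ z u * (∑ i, K₀ • b i z) ![v]| ≤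
        B₁ * (K₀ * C * ε₁) * ‖u‖ * ‖v‖ := by
      intro u v
      rw [abs_mul]
      have h5 : |fderiv ℝ χ z u| ≤ B₁ * ‖u‖ :=
        ((fderiv ℝ χ z).le_opNorm u).trans (by gcongr; exact hB₁ z)
      have h6 : |(∑ i, K₀ • b i z) ![v]| ≤ (K₀ * C * ε₁) * ‖v‖ :=
        (ps_form1_le _ v).trans (by gcongr; exact hBn z)
      calc |fderiv ℝ χ z u| * |(∑ i, K₀ • b i z) ![v]| ≤ (B₁ * ‖u‖) * ((K₀ * C * ε₁) * ‖v‖) :=
            mul_le_mul h5 h6 (abs_nonneg _) (by positivity)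
        _ = B₁ * (K₀ * C * ε₁) * ‖u‖ * ‖v‖ := by ring
    rw [h1]
    calc |fderiv ℝ χ z u * (∑ i, K₀ • b i z) ![v] - fderiv ℝ χ z v * (∑ i, K₀ • b i z) ![u]| ≤
        |fderiv ℝ χ z u * (∑ i, K₀ • b i z) ![v]| + |fderiv ℝ χ z v * (∑ i, K₀ • b i z) ![u]| :=
          abs_sub _ _
      _ ≤ B₁ * (K₀ * C * ε₁) * ‖u‖ * ‖v‖ + B₁ * (K₀ * C * ε₁) * ‖v‖ * ‖u‖ :=
          add_le_add (h4 u v) (h4 v u)
      _ = 2 * B₁ * (K₀ * C * ε₁) * ‖u‖ * ‖v‖ := by ring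
  have hDlow : ∀ z ∈ Q, ∀ u, (∑ i, K₀ * extDeriv (b i) z ![u, A (x i) u]) -
      K₀ * (L * C) * ε₁ * ‖u‖ ^ 2 ≤ D z u (A z u) := by
    intro z hz u
    have h1 : ∑ i, (K₀ * extDeriv (b i) z ![u, A (x i) u] - K₀ * (L * C) * ‖u‖ ^ 2 * p i z) ≤
        D z u (A z u) := by
      refine Finset.sum_le_sum fun i _ => ?_
      have h2 := mul_le_mul_of_nonneg_left (ps_one (hbase i z hz) u) hK₀0.le
      linarith
    have h2 : ∑ i, (K₀ * extDeriv (b i) z ![u, A (x i) u] - K₀ * (L * C) * ‖u‖ ^ 2 * p i z) =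
        (∑ i, K₀ * extDeriv (b i) z ![u, A (x i) u]) - K₀ * (L * C) * ‖u‖ ^ 2 * ∑ i, p i z := by
      rw [Finset.sum_sub_distrib, Finset.mul_sum (s := Finset.univ) (f := fun i => p i z)]
    rw [h2] at h1
    have h3 : K₀ * (L * C) * ‖u‖ ^ 2 * ∑ i, p i z ≤ K₀ * (L * C) * ‖u‖ ^ 2 * ε₁ := by
      gcongr
      exact hP z
    linarith
  have hDinv : ∀ z ∈ Q, ∀ u v, |D z (A z u) (A z v) - D z u v| ≤
      2 * M * (K₀ * (L * C)) * ε₁ * ‖u‖ * ‖v‖ := by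
    intro z hz u v
    have h1 : D z (A z u) (A z v) - D z u v = ∑ i, K₀ * (extDeriv (b i) z ![A z u, A z v] -
        extDeriv (b i) z ![u, v]) := by
      show (∑ i, K₀ * extDeriv (b i) z ![A z u, A z v]) - (∑ i, K₀ * extDeriv (b i) z ![u, v]) = _
      rw [← Finset.sum_sub_distrib]
      exact Finset.sum_congr rfl fun i _ => by ring
    rw [h1]
    calc |∑ i, K₀ * (extDeriv (b i) z ![A z u, A z v] - extDeriv (b i) z ![u, v])| ≤
        ∑ i, |K₀ * (extDeriv (b i) z ![A z u, A z v] - extDeriv (b i) z ![u, v])| :=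
          Finset.abs_sum_le_sum_abs _ _
      _ ≤ ∑ i, (2 * M * (K₀ * (L * C)) * ‖u‖ * ‖v‖) * p i z := by
          refine Finset.sum_le_sum fun i _ => ?_
          rw [abs_mul, abs_of_pos hK₀0]
          have h2 := mul_le_mul_of_nonneg_left (ps_two (hbase i z hz) (hM z hz)
            (hM (x i) (hSQ (hxS i))) u v (hb3 i z u v)) hK₀0.le
          linarith
      _ = (2 * M * (K₀ * (L * C)) * ‖u‖ * ‖v‖) * ∑ i, p i z := by rw [Finset.mul_sum]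
      _ ≤ (2 * M * (K₀ * (L * C)) * ‖u‖ * ‖v‖) * ε₁ := by
          gcongr
          exact hP z
      _ = 2 * M * (K₀ * (L * C)) * ε₁ * ‖u‖ * ‖v‖ := by ring
  -- the lower bound on `Q`
  have hlow : ∀ z ∈ Q, ∀ u, χ z * (∑ i, K₀ * extDeriv (b i) z ![u, A (x i) u]) - μ * ‖u‖ ^ 2 ≤
      extDeriv β z ![u, A z u] := by
    intro z hz u
    have h1 := (abs_le.1 (herr z u (A z u))).1
    have h2 := mul_le_mul_of_nonneg_left (hDlow z hz u) (hχ01 z).1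
    have h3 : ‖A z u‖ ≤ M * ‖u‖ := ((A z).le_opNorm u).trans (by gcongr; exact hM z hz)
    have h4 : 2 * B₁ * (K₀ * C * ε₁) * ‖u‖ * ‖A z u‖ ≤ 2 * B₁ * (K₀ * C) * M * ε₁ * ‖u‖ ^ 2 := by
      calc 2 * B₁ * (K₀ * C * ε₁) * ‖u‖ * ‖A z u‖ ≤ 2 * B₁ * (K₀ * C * ε₁) * ‖u‖ * (M * ‖u‖) := by
            gcongr
        _ = 2 * B₁ * (K₀ * C) * M * ε₁ * ‖u‖ ^ 2 := by ring
    have h5 : χ z * (K₀ * (L * C) * ε₁ * ‖u‖ ^ 2) ≤ K₀ * (L * C) * ε₁ * ‖u‖ ^ 2 :=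
      mul_le_of_le_one_left (by positivity) (hχ01 z).2
    have h6 : (2 * B₁ * (K₀ * C) * M + K₀ * (L * C)) * (ε₁ * ‖u‖ ^ 2) ≤ Γ * (ε₁ * ‖u‖ ^ 2) := by
      refine mul_le_mul_of_nonneg_right ?_ (by positivity)
      rw [hΓ]
      linarith
    have h7 : Γ * (ε₁ * ‖u‖ ^ 2) = μ * ‖u‖ ^ 2 := by
      rw [← hε₁Γ]
      ring
    linarith
  have hnn : ∀ z u, 0 ≤ ∑ i, K₀ * extDeriv (b i) z ![u, A (x i) u] := fun z u =>
    Finset.sum_nonneg fun i _ => mul_nonneg hK₀0.le (hb4 i z u)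
  have hμε : μ ≤ ε := min_le_left _ _
  have hμ1 : μ ≤ 1 := min_le_right _ _
  refine ⟨β, Q, hβs, hQ, hQU, hβ0, ?_, ?_, ⋃ i, ball (x i) (r i), isOpen_iUnion fun i => isOpen_ball,
    ?_, ?_, ?_⟩
  · intro z _ u
    by_cases hz : z ∈ Q
    · have h1 := hlow z hz u
      have h2 := mul_nonneg (hχ01 z).1 (hnn z u)
      have h3 : μ * ‖u‖ ^ 2 ≤ ε * ‖u‖ ^ 2 := by gcongr
      linarith
    · rw [hβe z hz]
      show -(ε * ‖u‖ ^ 2) ≤ 0
      have : 0 ≤ ε * ‖u‖ ^ 2 := by positivity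
      linarith
  · intro z _ u v
    by_cases hz : z ∈ Q
    · have h1 := herr z (A z u) (A z v)
      have h2 := herr z u v
      have h3 := hDinv z hz u v
      have h4 : ‖A z u‖ ≤ M * ‖u‖ := ((A z).le_opNorm u).trans (by gcongr; exact hM z hz)
      have h5 : ‖A z v‖ ≤ M * ‖v‖ := ((A z).le_opNorm v).trans (by gcongr; exact hM z hz)
      have h6 : 2 * B₁ * (K₀ * C * ε₁) * ‖A z u‖ * ‖A z v‖ ≤
          2 * B₁ * (K₀ * C) * M ^ 2 * ε₁ * (‖u‖ * ‖v‖) := by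
        calc 2 * B₁ * (K₀ * C * ε₁) * ‖A z u‖ * ‖A z v‖ ≤
            2 * B₁ * (K₀ * C * ε₁) * (M * ‖u‖) * (M * ‖v‖) := by gcongr
          _ = 2 * B₁ * (K₀ * C) * M ^ 2 * ε₁ * (‖u‖ * ‖v‖) := by ring
      have h7 : |χ z * (D z (A z u) (A z v) - D z u v)| ≤
          2 * M * (K₀ * (L * C)) * ε₁ * (‖u‖ * ‖v‖) := by
        rw [abs_mul, abs_of_nonneg (hχ01 z).1]
        calc χ z * |D z (A z u) (A z v) - D z u v| ≤ 1 * |D z (A z u) (A z v) - D z u v| :=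
              mul_le_mul_of_nonneg_right (hχ01 z).2 (abs_nonneg _)
          _ ≤ 2 * M * (K₀ * (L * C)) * ε₁ * ‖u‖ * ‖v‖ := by
              rw [one_mul]
              exact h3
          _ = _ := by ring
      have h8 : extDeriv β z ![A z u, A z v] - extDeriv β z ![u, v] =
          (extDeriv β z ![A z u, A z v] - χ z * D z (A z u) (A z v)) +
          χ z * (D z (A z u) (A z v) - D z u v) - (extDeriv β z ![u, v] - χ z * D z u v) := by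
        ring
      have h9 : (2 * B₁ * (K₀ * C) * M ^ 2 + 2 * M * (K₀ * (L * C)) + 2 * B₁ * (K₀ * C)) *
          (ε₁ * (‖u‖ * ‖v‖)) ≤ Γ * (ε₁ * (‖u‖ * ‖v‖)) := by
        refine mul_le_mul_of_nonneg_right ?_ (by positivity)
        rw [hΓ]
        linarith
      have h10 : Γ * (ε₁ * (‖u‖ * ‖v‖)) = μ * (‖u‖ * ‖v‖) := by
        rw [← hε₁Γ]
        ring
      have h11 : μ * (‖u‖ * ‖v‖) ≤ ε * (‖u‖ * ‖v‖) := by gcongr
      rw [h8]
      have k1 := abs_le.1 h1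
      have k2 := abs_le.1 h2
      have k3 := abs_le.1 h7
      rw [abs_le]
      constructor
      · linarith [k1.1, k2.2, k3.1]
      · linarith [k1.2, k2.1, k3.2]
    · rw [hβe z hz]
      show |(0 : ℝ) - 0| ≤ ε * ‖u‖ * ‖v‖
      rw [sub_zero, abs_zero]
      positivity
  · intro y hy
    obtain ⟨i, hi⟩ := hcovS y hy
    exact mem_iUnion.2 ⟨i, mem_ball_iff_norm.2 hi⟩
  · intro z hz
    obtain ⟨i, hi⟩ := mem_iUnion.1 hz
    refine hδU (thickening_subset_cthickening _ _ (mem_thickening_iff.2 ⟨x i, hxS i, ?_⟩))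
    have h1 := mem_ball.1 hi
    have h2 := (hr i).2
    linarith
  · intro z hz u
    obtain ⟨i, hi⟩ := mem_iUnion.1 hz
    have h1 := mem_ball.1 hi
    have h2 := (hr i).2
    have h3 : z ∈ cthickening (δ / 4) S :=
      thickening_subset_cthickening _ _ (mem_thickening_iff.2 ⟨x i, hxS i, by linarith⟩)
    have h4 : z ∈ Q := cthickening_mono (by linarith) S h3
    have h5 : χ z = 1 := (hχ3 z).1 h3
    have h6 := hlow z h4 u
    rw [h5, one_mul] at h6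
    have h7 : K₀ * (c * ‖u‖ ^ 2) ≤ ∑ i, K₀ * extDeriv (b i) z ![u, A (x i) u] := by
      have h8 : K₀ * extDeriv (b i) z ![u, A (x i) u] ≤
          ∑ i, K₀ * extDeriv (b i) z ![u, A (x i) u] :=
        Finset.single_le_sum (f := fun i => K₀ * extDeriv (b i) z ![u, A (x i) u])
          (fun j _ => mul_nonneg hK₀0.le (hb4 j z u)) (Finset.mem_univ i)
      refine le_trans ?_ h8
      gcongr
      refine hb5 i z u ?_
      rw [← dist_eq_norm]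
      exact h1.le
    have h9 : K₀ * (c * ‖u‖ ^ 2) = (|K| + 1) * ‖u‖ ^ 2 := by
      rw [hK₀, ← mul_assoc, div_mul_cancel₀ _ hc.ne']
    have h10 : K * ‖u‖ ^ 2 ≤ |K| * ‖u‖ ^ 2 := by
      gcongr
      exact le_abs_self K
    have h11 : μ * ‖u‖ ^ 2 ≤ 1 * ‖u‖ ^ 2 := by gcongr
    linarith

end Pool.Agent.H819.HN
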