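import Mathlib
import Pool.Agent.H819.LG.Crit

/-!
# Adding an almost positive, almost invariant form
-/

set_option autoImplicit false

open Set Filter Topology MeasureTheory Metric
open scoped ContDiff ENNReal NNReal

noncomputable section

namespace Pool.Agent.H819.HN

open Pool.Agent.Y501.SY (E)
open Pool.Agent.H819.LG (GoodAt)

section lin

variable {V : Type} [NormedAddCommGroup V] [InnerProductSpace ℝ V]

theorem ga_add_left (s : V [⋀^Fin 2]→L[ℝ] ℝ) (x y z : V) :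
    s ![x + y, z] = s ![x, z] + s ![y, z] := by
  have := s.toAlternatingMap.map_update_add ![x, z] 0 x y
  have h1 : ∀ w : V, Function.update ![x, z] 0 w = ![w, z] := by
    intro w; funext i; fin_cases i <;> simp
  rw [h1, h1, h1] at this
  exact this

theorem ga_add_right (s : V [⋀^Fin 2]→L[ℝ] ℝ) (x y z : V) :
    s ![x, y + z] = s ![x, y] + s ![x, z] := by
  have := s.toAlternatingMap.map_update_add ![x, y] 1 y z
  have h1 : ∀ w : V, Function.update ![x, y] 1 w = ![x, w] := by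
    intro w; funext i; fin_cases i <;> simp
  rw [h1, h1, h1] at this
  exact this

theorem ga_smul_left (s : V [⋀^Fin 2]→L[ℝ] ℝ) (a : ℝ) (x z : V) :
    s ![a • x, z] = a * s ![x, z] := by
  have := s.toAlternatingMap.map_update_smul ![x, z] 0 a x
  have h1 : ∀ w : V, Function.update ![x, z] 0 w = ![w, z] := by
    intro w; funext i; fin_cases i <;> simp
  rw [h1, h1] at this
  exact this

theorem ga_smul_right (s : V [⋀^Fin 2]→L[ℝ] ℝ) (a : ℝ) (x z : V) :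
    s ![x, a • z] = a * s ![x, z] := by
  have := s.toAlternatingMap.map_update_smul ![x, z] 1 a z
  have h1 : ∀ w : V, Function.update ![x, z] 1 w = ![x, w] := by
    intro w; funext i; fin_cases i <;> simp
  rw [h1, h1] at this
  exact this

theorem ga_swap (s : V [⋀^Fin 2]→L[ℝ] ℝ) (x z : V) : s ![x, z] = - s ![z, x] := by
  have := s.toAlternatingMap.map_swap ![x, z] (i := 0) (j := 1) (by decide)
  have h1 : (![x, z] : Fin 2 → V) ∘ Equiv.swap (0 : Fin 2) 1 = ![z, x] := by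
    funext i; fin_cases i <;> simp
  rw [h1] at this
  have h2 : s ![z, x] = - s ![x, z] := this
  rw [h2, neg_neg]

theorem ga_neg_left (s : V [⋀^Fin 2]→L[ℝ] ℝ) (x z : V) : s ![-x, z] = - s ![x, z] := by
  have := ga_smul_left s (-1) x z
  rwa [neg_one_smul, neg_one_mul] at this

theorem ga_neg_right (s : V [⋀^Fin 2]→L[ℝ] ℝ) (x z : V) : s ![x, -z] = - s ![x, z] := by
  have := ga_smul_right s (-1) x z
  rwa [neg_one_smul, neg_one_mul] at this

/-- Cauchy-Schwarz for the form `G` of the proof: `G x y = (η(x, A y) + η(A x, A A y)) / 2 + ε (⟨x, y⟩ + ⟨A x, A y⟩)`. -/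
theorem ga_cs (η : V [⋀^Fin 2]→L[ℝ] ℝ) (A : V →L[ℝ] V) {ε : ℝ}
    (hε : 0 ≤ ε) (h1 : ∀ u, -(ε * ‖u‖ ^ 2) ≤ η ![u, A u]) (x y : V) :
    ((η ![x, A y] - η ![A x, y]) / 2 + ε * (inner ℝ x y + inner ℝ (A x) (A y))) ^ 2 ≤
      (η ![x, A x] + ε * (‖x‖ ^ 2 + ‖A x‖ ^ 2)) * (η ![y, A y] + ε * (‖y‖ ^ 2 + ‖A y‖ ^ 2)) := by
  have h3 : ∀ t : ℝ, 0 ≤ (η ![y, A y] + ε * (‖y‖ ^ 2 + ‖A y‖ ^ 2)) * (t * t) +
      (2 * ((η ![x, A y] - η ![A x, y]) / 2 + ε * (inner ℝ x y + inner ℝ (A x) (A y)))) * t +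
      (η ![x, A x] + ε * (‖x‖ ^ 2 + ‖A x‖ ^ 2)) := by
    intro t
    have h2 := h1 (x + t • y)
    have h4 : η ![x + t • y, A (x + t • y)] =
        η ![x, A x] + t * (η ![x, A y] - η ![A x, y]) + t * t * η ![y, A y] := by
      rw [map_add, map_smul, ga_add_left, ga_add_right, ga_add_right, ga_smul_left,
        ga_smul_left, ga_smul_right, ga_smul_right, ga_swap η y (A x)]
      ring
    have h5 : ‖x + t • y‖ ^ 2 = ‖x‖ ^ 2 + 2 * (t * inner ℝ x y) + t * t * ‖y‖ ^ 2 := by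
      rw [norm_add_sq_real, real_inner_smul_right, norm_smul, mul_pow, Real.norm_eq_abs, sq_abs]
      ring
    have h6 : ‖A x + t • A y‖ ^ 2 =
        ‖A x‖ ^ 2 + 2 * (t * inner ℝ (A x) (A y)) + t * t * ‖A y‖ ^ 2 := by
      rw [norm_add_sq_real, real_inner_smul_right, norm_smul, mul_pow, Real.norm_eq_abs, sq_abs]
      ring
    rw [h4] at h2
    have h7 : 0 ≤ ε * ‖A x + t • A y‖ ^ 2 := by positivity
    rw [h6] at h7
    rw [h5] at h2
    nlinarith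
  have h8 := discrim_le_zero h3
  unfold discrim at h8
  nlinarith

end lin

variable {d : ℕ}

/-- **Adding an almost positive, almost invariant form** does not spoil the distortion, however
large it is.

Proof (everything at the fixed point `z`; write `A = A z`, `θ = θ z`, `η = η z`, `M ≥ ‖A‖`).
Let `⟨u, v⟩_A = (⟨u, v⟩ + ⟨A u, A v⟩) / 2` and `|u|_A² = ⟨u, u⟩_A`: it is `A`-invariant and
`‖u‖² / 2 ≤ |u|_A² ≤ (1 + M²) / 2 ‖u‖²`.  Let `η'(u, v) = (η(u, v) + η(A u, A v)) / 2`, so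
`|η(u,v) - η'(u, v)| ≤ ε / 2 ‖u‖ ‖v‖`, `η'` is `A`-invariant, and `g(u, v) = η'(u, A v)` is a
symmetric bilinear form with `g(u, u) = η(u, A u) ≥ - ε ‖u‖² ≥ - 2 ε |u|_A²` and
`g(A u, A v) = g(u, v)`.  Hence `G(u, v) = g(u, v) + 2 ε ⟨u, v⟩_A` is symmetric, `A`-invariant and
nonnegative, and by Cauchy-Schwarz
`|η'(u, v)| = |g(u, A v)| ≤ |G(u, A v)| + 2 ε |u|_A |A v|_A ≤ √(G(u, u) G(v, v)) + 2 ε |u|_A |v|_A`.
(`g(u, A v) = η'(u, A A v) = - η'(u, v)`.)
With `t(u) = θ(u, A u) ≥ c₀ ‖u‖²` and `H(u) = t(u) + η(u, A u)` (the value for `θ + η`):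
`G(u, u) = η(u, A u) + 2 ε |u|_A² ≤ H(u)` if `2 ε |u|_A² ≤ ε (1 + M²) ‖u‖² ≤ c₀ ‖u‖² / 4 ≤ t(u) / 4`,
and `H(u) ≥ t(u) - ε ‖u‖² ≥ t(u) / 2`; also `‖u‖² ≤ t(u) / c₀ ≤ 2 H(u) / c₀`.
So `|(θ + η)(u, v)| ≤ √(C t(u) t(v)) + √(H(u) H(v)) + (ε / 2 + ε (1 + M²)) ‖u‖ ‖v‖`, and each of
the three terms is at most a constant times `√(H(u) H(v))`; the constants are `2 √C`, `1`, `1`
(`(ε / 2 + ε (1 + M²)) * 2 / c₀ ≤ 1`), and `(2 √C + 1 + 1)² ≤ 3 (4 C + 1 + 1) = 12 C + 6`. -/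
theorem goodAt_add {θ η : E d → (E d) [⋀^Fin 2]→L[ℝ] ℝ} {A : E d → (E d →L[ℝ] E d)}
    {C c₀ ε M : ℝ} {z : E d} (hC : 0 ≤ C) (hc₀ : 0 < c₀) (hε : 0 ≤ ε)
    (hA2 : ∀ u, A z (A z u) = -u) (hM : ‖A z‖ ≤ M) (h : GoodAt θ A C c₀ z)
    (hεc : 4 * (1 + M ^ 2) * ε ≤ c₀)
    (h1 : ∀ u, -(ε * ‖u‖ ^ 2) ≤ η z ![u, A z u])
    (h2 : ∀ u v, |η z ![A z u, A z v] - η z ![u, v]| ≤ ε * ‖u‖ * ‖v‖) :
    GoodAt (fun y => θ y + η y) A (12 * C + 6) (c₀ / 2) z ∧
      ∀ K : ℝ, (∀ u, K * ‖u‖ ^ 2 ≤ η z ![u, A z u]) →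
        GoodAt (fun y => θ y + η y) A (12 * C + 6) K z := by
  obtain ⟨hg1, hg2⟩ := h
  have hM0 : 0 ≤ M := (norm_nonneg _).trans hM
  have hMn : ∀ u : E d, ‖A z u‖ ≤ M * ‖u‖ := fun u =>
    ((A z).le_opNorm u).trans (by gcongr)
  have hε4 : 4 * ε ≤ c₀ := by nlinarith [sq_nonneg M]
  have hH0 : ∀ u : E d, θ z ![u, A z u] / 2 ≤ θ z ![u, A z u] + η z ![u, A z u] := by
    intro u
    have a1 := hg1 u
    have a2 := h1 u
    nlinarith [sq_nonneg ‖u‖]
  have hHc : ∀ u : E d, c₀ / 2 * ‖u‖ ^ 2 ≤ θ z ![u, A z u] + η z ![u, A z u] := by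
    intro u
    have a1 := hg1 u
    have a2 := hH0 u
    linarith
  have hT0 : ∀ u : E d, 0 ≤ θ z ![u, A z u] := fun u => le_trans (by positivity) (hg1 u)
  have hH00 : ∀ u : E d, 0 ≤ θ z ![u, A z u] + η z ![u, A z u] := fun u =>
    le_trans (by positivity) (hHc u)
  -- `G(u, u) ≤ H(u)`
  have hGH : ∀ u : E d, η z ![u, A z u] + ε * (‖u‖ ^ 2 + ‖A z u‖ ^ 2) ≤
      θ z ![u, A z u] + η z ![u, A z u] := by
    intro u
    have a1 := hg1 u
    have a2 : ‖A z u‖ ^ 2 ≤ M ^ 2 * ‖u‖ ^ 2 := by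
      rw [← mul_pow]
      exact pow_le_pow_left₀ (norm_nonneg _) (hMn u) 2
    have a3 : ε * (‖u‖ ^ 2 + ‖A z u‖ ^ 2) ≤ ε * ((1 + M ^ 2) * ‖u‖ ^ 2) := by
      refine mul_le_mul_of_nonneg_left ?_ hε
      linarith
    have a4 : 4 * (ε * ((1 + M ^ 2) * ‖u‖ ^ 2)) ≤ c₀ * ‖u‖ ^ 2 := by
      have := mul_le_mul_of_nonneg_right hεc (sq_nonneg ‖u‖)
      linarith
    have a5 := hT0 u
    linarith
  have hG0 : ∀ u : E d, 0 ≤ η z ![u, A z u] + ε * (‖u‖ ^ 2 + ‖A z u‖ ^ 2) := by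
    intro u
    have a1 := h1 u
    have a2 : 0 ≤ ε * ‖A z u‖ ^ 2 := by positivity
    linarith
  -- the distortion
  have hdis : ∀ u w : E d, (θ z ![u, w] + η z ![u, w]) ^ 2 ≤
      (12 * C + 6) * (θ z ![u, A z u] + η z ![u, A z u]) *
        (θ z ![w, A z w] + η z ![w, A z w]) := by
    intro u w
    have hcs := ga_cs (η z) (A z) hε h1 u (A z w)
    rw [hA2 w, ga_neg_right, ga_neg_right, norm_neg, inner_neg_right,
      ga_swap (η z) (A z w) w, neg_neg] at hcs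
    have b1 := hG0 u
    have b2 := hG0 w
    have b3 := hGH u
    have b4 := hGH w
    have b5 : (η z ![u, A z u] + ε * (‖u‖ ^ 2 + ‖A z u‖ ^ 2)) *
        (η z ![w, A z w] + ε * (‖A z w‖ ^ 2 + ‖w‖ ^ 2)) ≤
        (θ z ![u, A z u] + η z ![u, A z u]) * (θ z ![w, A z w] + η z ![w, A z w]) := by
      rw [add_comm (‖A z w‖ ^ 2)]
      exact mul_le_mul b3 b4 b2 (hH00 u)
    have c1 := hcs.trans b5
    -- the error term
    have c2 : |inner ℝ u (A z w) + -inner ℝ (A z u) w| ≤ (1 + M ^ 2) * (‖u‖ * ‖w‖) := by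
      have d1 : |inner ℝ u (A z w)| ≤ M * (‖u‖ * ‖w‖) := by
        refine (abs_real_inner_le_norm _ _).trans ?_
        calc ‖u‖ * ‖A z w‖ ≤ ‖u‖ * (M * ‖w‖) := by
              gcongr
              exact hMn w
          _ = M * (‖u‖ * ‖w‖) := by ring
      have d2 : |inner ℝ (A z u) w| ≤ M * (‖u‖ * ‖w‖) := by
        refine (abs_real_inner_le_norm _ _).trans ?_
        calc ‖A z u‖ * ‖w‖ ≤ (M * ‖u‖) * ‖w‖ := by
              gcongr
              exact hMn u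
          _ = M * (‖u‖ * ‖w‖) := by ring
      have d3 : |inner ℝ u (A z w) + -inner ℝ (A z u) w| ≤
          |inner ℝ u (A z w)| + |inner ℝ (A z u) w| := by
        refine (abs_add_le _ _).trans ?_
        rw [abs_neg]
      have d4 : 0 ≤ ‖u‖ * ‖w‖ := by positivity
      nlinarith [mul_nonneg (sq_nonneg (M - 1)) d4]
    have c3 : |η z ![u, w] + ((-η z ![u, w] - η z ![A z u, A z w]) / 2 +
        ε * (inner ℝ u (A z w) + -inner ℝ (A z u) w))| ≤ c₀ / 2 * (‖u‖ * ‖w‖) := by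
      have d1 : η z ![u, w] + ((-η z ![u, w] - η z ![A z u, A z w]) / 2 +
          ε * (inner ℝ u (A z w) + -inner ℝ (A z u) w)) =
          -(η z ![A z u, A z w] - η z ![u, w]) / 2 +
            ε * (inner ℝ u (A z w) + -inner ℝ (A z u) w) := by ring
      rw [d1]
      have d2 : |(-(η z ![A z u, A z w] - η z ![u, w]) / 2 : ℝ)| ≤ ε / 2 * (‖u‖ * ‖w‖) := by
        rw [abs_div, abs_neg, abs_two]
        have := h2 u w
        linarith
      have d3 : |ε * (inner ℝ u (A z w) + -inner ℝ (A z u) w)| ≤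
          ε * ((1 + M ^ 2) * (‖u‖ * ‖w‖)) := by
        rw [abs_mul, abs_of_nonneg hε]
        exact mul_le_mul_of_nonneg_left c2 hε
      have d4 : 0 ≤ ‖u‖ * ‖w‖ := by positivity
      refine (abs_add_le _ _).trans ((add_le_add d2 d3).trans ?_)
      have d5 := mul_le_mul_of_nonneg_right hεc d4
      have d6 := mul_le_mul_of_nonneg_right hε4 d4
      nlinarith
    have c4 : (η z ![u, w] + ((-η z ![u, w] - η z ![A z u, A z w]) / 2 +
        ε * (inner ℝ u (A z w) + -inner ℝ (A z u) w))) ^ 2 ≤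
        (θ z ![u, A z u] + η z ![u, A z u]) * (θ z ![w, A z w] + η z ![w, A z w]) := by
      have d1 : (η z ![u, w] + ((-η z ![u, w] - η z ![A z u, A z w]) / 2 +
          ε * (inner ℝ u (A z w) + -inner ℝ (A z u) w))) ^ 2 ≤ (c₀ / 2 * (‖u‖ * ‖w‖)) ^ 2 := by
        rw [← sq_abs]
        exact pow_le_pow_left₀ (abs_nonneg _) c3 2
      refine d1.trans ?_
      have d2 : (c₀ / 2 * (‖u‖ * ‖w‖)) ^ 2 = (c₀ / 2 * ‖u‖ ^ 2) * (c₀ / 2 * ‖w‖ ^ 2) := by ring
      rw [d2]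
      exact mul_le_mul (hHc u) (hHc w) (by positivity) (hH00 u)
    have c5 : θ z ![u, w] ^ 2 ≤ 4 * C * ((θ z ![u, A z u] + η z ![u, A z u]) *
        (θ z ![w, A z w] + η z ![w, A z w])) := by
      refine (hg2 u w).trans ?_
      have d1 : θ z ![u, A z u] * θ z ![w, A z w] ≤
          (2 * (θ z ![u, A z u] + η z ![u, A z u])) *
            (2 * (θ z ![w, A z w] + η z ![w, A z w])) := by
        refine mul_le_mul ?_ ?_ (hT0 w) ?_
        · have := hH0 u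
          linarith
        · have := hH0 w
          linarith
        · have := hH00 u
          linarith
      have d2 := mul_le_mul_of_nonneg_left d1 hC
      calc C * θ z ![u, A z u] * θ z ![w, A z w] = C * (θ z ![u, A z u] * θ z ![w, A z w]) := by
            ring
        _ ≤ _ := d2
        _ = _ := by ring
    have c6 : ∀ a b c : ℝ, (a + b) ^ 2 ≤ 3 * (a ^ 2 + c ^ 2 + (b + c) ^ 2) := by
      intro a b c
      nlinarith [sq_nonneg (a + c), sq_nonneg (a - (b + c)), sq_nonneg (c + (b + c))]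
    have c7 := c6 (θ z ![u, w]) (η z ![u, w]) ((-η z ![u, w] - η z ![A z u, A z w]) / 2 +
        ε * (inner ℝ u (A z w) + -inner ℝ (A z u) w))
    calc (θ z ![u, w] + η z ![u, w]) ^ 2 ≤ _ := c7
      _ ≤ 3 * (4 * C * ((θ z ![u, A z u] + η z ![u, A z u]) *
        (θ z ![w, A z w] + η z ![w, A z w])) +
          (θ z ![u, A z u] + η z ![u, A z u]) * (θ z ![w, A z w] + η z ![w, A z w]) +
          (θ z ![u, A z u] + η z ![u, A z u]) * (θ z ![w, A z w] + η z ![w, A z w])) := by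
        linarith
      _ = _ := by ring
  refine ⟨⟨fun u => ?_, fun u w => ?_⟩, fun K hK => ⟨fun u => ?_, fun u w => ?_⟩⟩
  · exact hHc u
  · exact hdis u w
  · have a1 := hK u
    have a2 := hT0 u
    change K * ‖u‖ ^ 2 ≤ θ z ![u, A z u] + η z ![u, A z u]
    linarith
  · exact hdis u w

end Pool.Agent.H819.HN
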