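import Mathlib
import Pool.Agent.H819.LG.Ext
import Pool.Agent.H819.LG.CV
import Pool.Agent.H819.LG.Crit
import Pool.Agent.H819.LG.Inv
import Pool.Agent.H819.BC.Fibre

/-!
# Exact forms which are very positive near a set of zero two-dimensional measure: manifolds
-/

set_option autoImplicit false

open Set Filter Topology MeasureTheory Metric
open scoped Manifold ContDiff ENNReal NNReal

noncomputable section

namespace Pool.Agent.H819.HN

open Pool.Agent.Y501.SY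
open Pool.Agent.H819
open Pool.Agent.H819.LG (LocHolder)

/-- the local statement: this is `exists_exact_near` of `HN/PotSum.lean` (its first two hypotheses
are theorems) -/
def S_Near (d : ℕ) : Prop := ∀ (U : Set (E d)), IsOpen U → ∀ A : E d → E d →L[ℝ] E d,
    (∀ z ∈ U, ∀ u, A z (A z u) = -u) → ContinuousOn A U →
    (∀ N, IsCompact N → N ⊆ U → ∃ L : ℝ, ∀ z ∈ N, ∀ z' ∈ N, ‖A z' - A z‖ ≤ L * ‖z' - z‖) →
    ∀ S : Set (E d), IsCompact S → S ⊆ U → μH[2] S = 0 → ∀ K ε : ℝ, 0 < ε →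
    ∃ (b : E d → (E d) [⋀^Fin 1]→L[ℝ] ℝ) (Q : Set (E d)), ContDiff ℝ ∞ b ∧ IsCompact Q ∧ Q ⊆ U ∧
      (∀ z, z ∉ Q → b z = 0) ∧
      (∀ z ∈ U, ∀ u, -(ε * ‖u‖ ^ 2) ≤ extDeriv b z ![u, A z u]) ∧
      (∀ z ∈ U, ∀ u v, |extDeriv b z ![A z u, A z v] - extDeriv b z ![u, v]| ≤ ε * ‖u‖ * ‖v‖) ∧
      ∃ O : Set (E d), IsOpen O ∧ S ⊆ O ∧ O ⊆ U ∧
        ∀ z ∈ O, ∀ u, K * ‖u‖ ^ 2 ≤ extDeriv b z ![u, A z u]

variable {d : ℕ} {X : Type} [TopologicalSpace X] [ChartedSpace (E d) X] [IsManifold (𝓡 d) ∞ X]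

open Pool.Agent.H819.LG (pb_congr_form extF extF_symm extF_zero smooth_extF isD_extF exists_cover
  IsD.sum' pb_sum inChart_sq)
open Pool.Agent.H819.BC (e2 eJ pb_two e2_chart B_J A_J lc Wc Df fderiv_lc contDiffOn_lc isOpen_Wc)
open Pool.Agent.Y455.SY (A B AB BA)

/-- the transition maps between compact pieces of charts have bounded derivatives -/
theorem trans_bound [T2Space X] (x₀ y₀ : X) {N Q : Set (E d)} (hN : IsCompact N)
    (hNt : N ⊆ (chartAt (E d) x₀).target) (hQ : IsCompact Q)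
    (hQt : Q ⊆ (chartAt (E d) y₀).target) :
    ∃ Λ : ℝ, 0 ≤ Λ ∧ ∀ z ∈ N, ∀ w ∈ Q, (chartAt (E d) x₀).symm z = (chartAt (E d) y₀).symm w →
      ∀ u : E d, ‖B y₀ w (A x₀ z u)‖ ≤ Λ * ‖u‖ := by
  set P : Set X := (chartAt (E d) y₀).symm '' Q with hP
  have hPc : IsClosed P :=
    (hQ.image_of_continuousOn ((chartAt (E d) y₀).continuousOn_symm.mono hQt)).isClosed
  have hPs : P ⊆ (chartAt (E d) y₀).source := by
    rintro _ ⟨z, hz, rfl⟩
    exact (chartAt (E d) y₀).map_target (hQt hz)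
  set D : Set (E d) := N ∩ (chartAt (E d) x₀).symm ⁻¹' P with hD
  have hDc : IsCompact D := by
    have h1 : IsClosed D :=
      ((chartAt (E d) x₀).continuousOn_symm.mono hNt).preimage_isClosed_of_isClosed hN.isClosed hPc
    exact hN.of_isClosed_subset h1 inter_subset_left
  have hDW : D ⊆ Wc (d := d) (id : X → X) x₀ y₀ := fun z hz => ⟨hNt hz.1, hPs hz.2⟩
  have hid : ContMDiff (𝓡 d) (𝓡 d) ∞ (id : X → X) := contMDiff_id
  have hfc : ContinuousOn (fderiv ℝ (lc (id : X → X) x₀ y₀)) D :=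
    ((contDiffOn_lc hid x₀ y₀).continuousOn_fderiv_of_isOpen (isOpen_Wc continuous_id x₀ y₀)
      (by simp)).mono hDW
  obtain ⟨M, hM⟩ := hDc.exists_bound_of_continuousOn hfc
  refine ⟨max M 0, le_max_right _ _, fun z hz w hw hzw u => ?_⟩
  have hzD : z ∈ D := ⟨hz, w, hw, hzw.symm⟩
  have h1 := fderiv_lc hid (hDW hzD)
  have h2 : lc (id : X → X) x₀ y₀ z = w := by
    show chartAt (E d) y₀ ((chartAt (E d) x₀).symm z) = w
    rw [hzw]
    exact (chartAt (E d) y₀).right_inv (hQt hw)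
  have h3 : fderiv ℝ (lc (id : X → X) x₀ y₀) z u = B y₀ w (A x₀ z u) := by
    rw [h1, h2]
    have h4 : Df (d := d) (id : X → X) ((chartAt (E d) x₀).symm z) =
        ContinuousLinearMap.id ℝ (E d) := mfderiv_id
    rw [h4]
    rfl
  rw [← h3]
  exact (ContinuousLinearMap.le_opNorm _ _).trans
    (mul_le_mul_of_nonneg_right ((hM z hzD).trans (le_max_left _ _)) (norm_nonneg _))

theorem val_ext (x₀ y₀ : X) (β : E d → (E d) [⋀^Fin 2]→L[ℝ] ℝ) {z w : E d}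
    (hw : w ∈ (chartAt (E d) y₀).target)
    (hzw : (chartAt (E d) x₀).symm z = (chartAt (E d) y₀).symm w) (u v : E d) :
    pb (chartAt (E d) x₀).symm (extF y₀ β) z ![u, v] =
      β w ![B y₀ w (A x₀ z u), B y₀ w (A x₀ z v)] := by
  rw [pb_two, hzw, e2_chart y₀ _ hw, extF_symm y₀ β hw]

theorem J_trans (x₀ y₀ : X) (J : End d X) {z w : E d} (hz : z ∈ (chartAt (E d) x₀).target)
    (hw : w ∈ (chartAt (E d) y₀).target)
    (hzw : (chartAt (E d) x₀).symm z = (chartAt (E d) y₀).symm w) (u : E d) :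
    B y₀ w (A x₀ z (inChart J x₀ z u)) = inChart J y₀ w (B y₀ w (A x₀ z u)) := by
  rw [A_J x₀ J hz, hzw, B_J y₀ J hw]

omit [IsManifold (𝓡 d) ∞ X] in
theorem val_zero (x₀ y₀ : X) (β : E d → (E d) [⋀^Fin 2]→L[ℝ] ℝ) {Q : Set (E d)}
    (hβ : ∀ z, z ∉ Q → β z = 0) {z : E d}
    (h : (chartAt (E d) x₀).symm z ∉ (chartAt (E d) y₀).symm '' Q) (u v : E d) :
    pb (chartAt (E d) x₀).symm (extF y₀ β) z ![u, v] = 0 := by
  rw [pb_congr_form (τ := 0) _ (extF_zero y₀ β hβ h)]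
  rfl

/-- the estimates for one piece -/
theorem piece (x₀ y₀ : X) {J : End d X} {N M Q O : Set (E d)}
    (hNt : N ⊆ (chartAt (E d) x₀).target) (hMt : M ⊆ (chartAt (E d) y₀).target)
    {β : E d → (E d) [⋀^Fin 2]→L[ℝ] ℝ} (hQM : Q ⊆ M) (hOM : O ⊆ M)
    (hβ : ∀ z, z ∉ Q → β z = 0) {ε K Λ : ℝ} (hε : 0 ≤ ε) (hK : 0 ≤ K) (hΛ : 0 ≤ Λ)
    (h1 : ∀ z ∈ Q, ∀ u, -(ε * ‖u‖ ^ 2) ≤ β z ![u, inChart J y₀ z u])
    (h2 : ∀ z ∈ Q, ∀ u v, |β z ![inChart J y₀ z u, inChart J y₀ z v] - β z ![u, v]| ≤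
      ε * ‖u‖ * ‖v‖)
    (h3 : ∀ z ∈ O, ∀ u, K * ‖u‖ ^ 2 ≤ β z ![u, inChart J y₀ z u])
    (hb1 : ∀ z ∈ N, ∀ w ∈ M, (chartAt (E d) x₀).symm z = (chartAt (E d) y₀).symm w →
      ∀ u : E d, ‖B y₀ w (A x₀ z u)‖ ≤ Λ * ‖u‖)
    (hb2 : ∀ w ∈ M, ∀ z ∈ N, (chartAt (E d) y₀).symm w = (chartAt (E d) x₀).symm z →
      ∀ u : E d, ‖B x₀ z (A y₀ w u)‖ ≤ Λ * ‖u‖) {z : E d} (hz : z ∈ N) :
    (∀ u : E d, -(ε * Λ ^ 2 * ‖u‖ ^ 2) ≤
      pb (chartAt (E d) x₀).symm (extF y₀ β) z ![u, inChart J x₀ z u]) ∧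
    (∀ u v : E d, |pb (chartAt (E d) x₀).symm (extF y₀ β) z ![inChart J x₀ z u,
      inChart J x₀ z v] - pb (chartAt (E d) x₀).symm (extF y₀ β) z ![u, v]| ≤
        ε * Λ ^ 2 * ‖u‖ * ‖v‖) ∧
    ((chartAt (E d) x₀).symm z ∈ (chartAt (E d) y₀).source ∩ (chartAt (E d) y₀) ⁻¹' O →
      ∀ u : E d, K * ‖u‖ ^ 2 ≤
        Λ ^ 2 * pb (chartAt (E d) x₀).symm (extF y₀ β) z ![u, inChart J x₀ z u]) := by
  have hzt := hNt hz
  refine ⟨fun u => ?_, fun u v => ?_, fun hq u => ?_⟩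
  · by_cases hq : (chartAt (E d) x₀).symm z ∈ (chartAt (E d) y₀).symm '' Q
    · obtain ⟨w, hw, hwz⟩ := hq
      have hwt := hMt (hQM hw)
      rw [val_ext x₀ y₀ β hwt hwz.symm, J_trans x₀ y₀ J hzt hwt hwz.symm]
      refine le_trans ?_ (h1 w hw _)
      have h5 := hb1 z hz w (hQM hw) hwz.symm u
      have h6 : ‖B y₀ w (A x₀ z u)‖ ^ 2 ≤ (Λ * ‖u‖) ^ 2 := by gcongr
      have h7 : ε * ‖B y₀ w (A x₀ z u)‖ ^ 2 ≤ ε * (Λ * ‖u‖) ^ 2 := by gcongr
      have h8 : ε * (Λ * ‖u‖) ^ 2 = ε * Λ ^ 2 * ‖u‖ ^ 2 := by ring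
      linarith
    · rw [val_zero x₀ y₀ β hβ hq]
      have : 0 ≤ ε * Λ ^ 2 * ‖u‖ ^ 2 := by positivity
      linarith
  · by_cases hq : (chartAt (E d) x₀).symm z ∈ (chartAt (E d) y₀).symm '' Q
    · obtain ⟨w, hw, hwz⟩ := hq
      have hwt := hMt (hQM hw)
      rw [val_ext x₀ y₀ β hwt hwz.symm, val_ext x₀ y₀ β hwt hwz.symm,
        J_trans x₀ y₀ J hzt hwt hwz.symm, J_trans x₀ y₀ J hzt hwt hwz.symm]
      refine (h2 w hw _ _).trans ?_
      have h5 := hb1 z hz w (hQM hw) hwz.symm u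
      have h6 := hb1 z hz w (hQM hw) hwz.symm v
      calc ε * ‖B y₀ w (A x₀ z u)‖ * ‖B y₀ w (A x₀ z v)‖ ≤ ε * (Λ * ‖u‖) * (Λ * ‖v‖) := by
            gcongr
        _ = ε * Λ ^ 2 * ‖u‖ * ‖v‖ := by ring
    · rw [val_zero x₀ y₀ β hβ hq, val_zero x₀ y₀ β hβ hq, sub_zero, abs_zero]
      positivity
  · obtain ⟨hqs, hqO⟩ := hq
    set w := chartAt (E d) y₀ ((chartAt (E d) x₀).symm z) with hw
    have hwz : (chartAt (E d) x₀).symm z = (chartAt (E d) y₀).symm w :=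
      ((chartAt (E d) y₀).left_inv hqs).symm
    have hwO : w ∈ O := hqO
    have hwt := hMt (hOM hwO)
    rw [val_ext x₀ y₀ β hwt hwz, J_trans x₀ y₀ J hzt hwt hwz]
    have h5 := h3 w hwO (B y₀ w (A x₀ z u))
    have h6 := hb2 w (hOM hwO) z hz hwz.symm (B y₀ w (A x₀ z u))
    rw [AB y₀ hwt, BA x₀ hzt] at h6
    calc K * ‖u‖ ^ 2 ≤ K * (Λ * ‖B y₀ w (A x₀ z u)‖) ^ 2 := by gcongr
      _ = Λ ^ 2 * (K * ‖B y₀ w (A x₀ z u)‖ ^ 2) := by ring
      _ ≤ _ := by gcongr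

/-- **Exact forms near a set of zero two-dimensional Hausdorff measure in a closed manifold.**

Proof.  Each point `p ∈ S` has a compact neighbourhood `C_p` contained in the source of the chart at
`p`; finitely many interiors cover `S`, so `S = ⋃_{k < m} S_k` with `S_k = S ∩ C_{p_k}` compact in
the source of the chart at `y_k = p_k`.  The image `S_k'` of `S_k` in the chart is compact, contained in
the target `U_k`, and `μH[2] S_k' = 0`.  Let `A_k = inChart J y_k`; `inChart_sq` (`LG/Inv.lean`) gives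
`A_k² = -1`, `hJL : LocHolder J 1` gives the Lipschitz bound (`Real.rpow_one`), and continuity
on `U_k`.  Apply `hnear` with constants `K', ε'` (to be chosen): forms `b_k`, compact sets `Q_k`, open
sets `O_k`.  Put `ζ = ∑ extF y_k b_k`, `η = ∑ extF y_k (extDeriv b_k)`, `O = ⋃ chart_k.symm '' O_k`
(open, because it is `chart_k.source ∩ chart_k ⁻¹' O_k`).  `smooth_extF` and `isD_extF` (`LG/Ext.lean`)
give smoothness and `IsD ζ η` (the exterior derivative of a smooth form is smooth: for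
`IsSmooth (extF y_k (extDeriv b_k))` use `smooth_extF` for `extDeriv b_k`, which is `ContDiff ℝ ∞`, see
`contDiffAt_extDeriv` in `Pool.Agent.Y891.SY`, and vanishes outside `Q_k` by `isD_extF`).
Now fix `i` and `z ∈ N i`, `x₀ = x i`.  The form `extF y_k (extDeriv b_k)` in the chart at `x₀` vanishes at `z`
unless `q = (chartAt x₀).symm z ∈ (chartAt y_k).symm '' Q_k`; then with the transition map
`τ = tr x₀ y_k` (`LG/CV.lean`: `pb_tr`, `trD`, ...) it is the pull-back of `extDeriv b_k (τ z)` by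
`D = fderiv ℝ τ z`, and `inChart J y_k (τ z) (D u) = D (inChart J x₀ z u)` (see `B_J`-type lemmas in
`BC/Fibre.lean`, `Pool.Agent.Y455.SY.A/B`, `AB`, `BA`; or `mfderiv` chain rule).  The set
`Z_{ik} = {z ∈ N i | (chartAt x₀).symm z ∈ (chartAt y_k).symm '' Q_k}` is compact and contained in `trD x₀ y_k`, so
`‖D‖ ≤ Λ` and `‖D u‖ ≥ Λ⁻¹ ‖u‖` there for some `Λ ≥ 1` (compactness; `Λ` can be chosen after `Q_k`!
PROBLEM: `Q_k` depends on `ε'`; so first choose compact sets `Q_k⁰ ⊆ U_k` which are neighbourhoods of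
`S_k'`, and apply `hnear` with the open set `interior Q_k⁰` instead of `U_k`; then `Q_k ⊆ Q_k⁰` and
`Λ` depends only on `Q_k⁰`.)  Hence the lower bounds `- m ε' Λ² ‖u‖²`, the invariance defect
`m ε' Λ² ‖u‖ ‖v‖`, and, if `q ∈ O`, say `q ∈ chart_k.symm '' O_k`, the bound
`K' Λ⁻² ‖u‖² - m ε' Λ² ‖u‖²` (take `K' ≥ 0`).  Choose `ε' = min ε 1 / ((m + 1) Λ²)` and
`K' = Λ² (|K| + 1)`. -/
theorem exists_strong_near [T2Space X] [CompactSpace X] (hnear : S_Near d) {J : End d X}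
    (hJ2 : ∀ (x : X) (v : TangentSpace (𝓡 d) x), J x (J x v) = -v)
    (hJc : ∀ x₀, ContinuousOn (inChart J x₀) (chartAt (E d) x₀).target)
    (hJL : LocHolder J 1) {S : Set X} (hS : IsClosed S)
    (h0 : ∀ x₀ : X, μH[2] (chartAt (E d) x₀ '' (S ∩ (chartAt (E d) x₀).source)) = 0)
    {n : ℕ} (x : Fin n → X) (N : Fin n → Set (E d)) (hN : ∀ i, IsCompact (N i))
    (hNt : ∀ i, N i ⊆ (chartAt (E d) (x i)).target) (K : ℝ) {ε : ℝ} (hε : 0 < ε) :
    ∃ (ζ : Form d X 1) (η : Form d X 2) (O : Set X), IsSmooth ζ ∧ IsSmooth η ∧ IsD ζ η ∧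
      IsOpen O ∧ S ⊆ O ∧ ∀ i, ∀ z ∈ N i,
        (∀ u : E d, -(ε * ‖u‖ ^ 2) ≤
          pb (chartAt (E d) (x i)).symm η z ![u, inChart J (x i) z u]) ∧
        (∀ u v : E d, |pb (chartAt (E d) (x i)).symm η z ![inChart J (x i) z u,
          inChart J (x i) z v] - pb (chartAt (E d) (x i)).symm η z ![u, v]| ≤ ε * ‖u‖ * ‖v‖) ∧
        ((chartAt (E d) (x i)).symm z ∈ O → ∀ u : E d,
          K * ‖u‖ ^ 2 ≤ pb (chartAt (E d) (x i)).symm η z ![u, inChart J (x i) z u]) := by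
  classical
  obtain ⟨m, y, C, M, hC, hM, hCM, hMt, hcov⟩ := exists_cover d X
  choose Λ₁ hΛ₁ hb₁ using fun (i : Fin n) (k : Fin m) =>
    trans_bound (x i) (y k) (hN i) (hNt i) (hM k) (hMt k)
  choose Λ₂ hΛ₂ hb₂ using fun (i : Fin n) (k : Fin m) =>
    trans_bound (y k) (x i) (hM k) (hMt k) (hN i) (hNt i)
  obtain ⟨Λ, hΛdef⟩ : ∃ Λ : ℝ, Λ = 1 + ∑ i, ∑ k, (Λ₁ i k + Λ₂ i k) := ⟨_, rfl⟩
  have hle : ∀ i k, Λ₁ i k + Λ₂ i k ≤ ∑ i, ∑ k, (Λ₁ i k + Λ₂ i k) := by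
    intro i k
    have h1 : Λ₁ i k + Λ₂ i k ≤ ∑ k, (Λ₁ i k + Λ₂ i k) :=
      Finset.single_le_sum (f := fun k => Λ₁ i k + Λ₂ i k)
        (fun k _ => add_nonneg (hΛ₁ i k) (hΛ₂ i k)) (Finset.mem_univ k)
    have h2 : ∑ k, (Λ₁ i k + Λ₂ i k) ≤ ∑ i, ∑ k, (Λ₁ i k + Λ₂ i k) :=
      Finset.single_le_sum (f := fun i => ∑ k, (Λ₁ i k + Λ₂ i k))
        (fun i _ => Finset.sum_nonneg fun k _ => add_nonneg (hΛ₁ i k) (hΛ₂ i k))
        (Finset.mem_univ i)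
    exact h1.trans h2
  have hS0 : 0 ≤ ∑ i, ∑ k, (Λ₁ i k + Λ₂ i k) :=
    Finset.sum_nonneg fun i _ => Finset.sum_nonneg fun k _ => add_nonneg (hΛ₁ i k) (hΛ₂ i k)
  have hΛ1 : 1 ≤ Λ := by rw [hΛdef]; linarith
  have hΛ0 : 0 < Λ := by linarith
  have hb1 : ∀ i k, ∀ z ∈ N i, ∀ w ∈ M k,
      (chartAt (E d) (x i)).symm z = (chartAt (E d) (y k)).symm w →
      ∀ u : E d, ‖B (y k) w (A (x i) z u)‖ ≤ Λ * ‖u‖ := by
    intro i k z hz w hw hzw u
    refine (hb₁ i k z hz w hw hzw u).trans (mul_le_mul_of_nonneg_right ?_ (norm_nonneg _))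
    rw [hΛdef]
    linarith [hle i k, hΛ₂ i k]
  have hb2 : ∀ i k, ∀ w ∈ M k, ∀ z ∈ N i,
      (chartAt (E d) (y k)).symm w = (chartAt (E d) (x i)).symm z →
      ∀ u : E d, ‖B (x i) z (A (y k) w u)‖ ≤ Λ * ‖u‖ := by
    intro i k z hz w hw hzw u
    refine (hb₂ i k z hz w hw hzw u).trans (mul_le_mul_of_nonneg_right ?_ (norm_nonneg _))
    rw [hΛdef]
    linarith [hle i k, hΛ₁ i k]
  obtain ⟨ε', hε'⟩ : ∃ ε' : ℝ, ε' = min ε 1 / ((m + 1) * Λ ^ 2) := ⟨_, rfl⟩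
  obtain ⟨K', hK'⟩ : ∃ K' : ℝ, K' = Λ ^ 2 * (|K| + 1) := ⟨_, rfl⟩
  have hε'0 : 0 < ε' := by rw [hε']; positivity
  have hK'0 : 0 ≤ K' := by rw [hK']; positivity
  have hsum : (m : ℝ) * (ε' * Λ ^ 2) ≤ min ε 1 := by
    have h1 : ((m : ℝ) + 1) * (ε' * Λ ^ 2) = min ε 1 := by
      rw [hε']
      field_simp
    have h2 : 0 ≤ ε' * Λ ^ 2 := by positivity
    linarith
  -- the local forms
  have hloc : ∀ k : Fin m, ∃ (b : E d → (E d) [⋀^Fin 1]→L[ℝ] ℝ) (Q O : Set (E d)),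
      ContDiff ℝ ∞ b ∧ IsCompact Q ∧ Q ⊆ M k ∧ (∀ z, z ∉ Q → b z = 0) ∧
      (∀ z ∈ Q, ∀ u, -(ε' * ‖u‖ ^ 2) ≤ extDeriv b z ![u, inChart J (y k) z u]) ∧
      (∀ z ∈ Q, ∀ u v, |extDeriv b z ![inChart J (y k) z u, inChart J (y k) z v] -
        extDeriv b z ![u, v]| ≤ ε' * ‖u‖ * ‖v‖) ∧
      IsOpen O ∧ C k ∩ (chartAt (E d) (y k)).symm ⁻¹' S ⊆ O ∧ O ⊆ M k ∧
      ∀ z ∈ O, ∀ u, K' * ‖u‖ ^ 2 ≤ extDeriv b z ![u, inChart J (y k) z u] := by
    intro k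
    have hCt : C k ⊆ (chartAt (E d) (y k)).target :=
      ((hCM k).trans interior_subset).trans (hMt k)
    have hIt : interior (M k) ⊆ (chartAt (E d) (y k)).target := interior_subset.trans (hMt k)
    have hSk : IsCompact (C k ∩ (chartAt (E d) (y k)).symm ⁻¹' S) := by
      have h1 : IsClosed (C k ∩ (chartAt (E d) (y k)).symm ⁻¹' S) :=
        ((chartAt (E d) (y k)).continuousOn_symm.mono hCt).preimage_isClosed_of_isClosed
          (hC k).isClosed hS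
      exact (hC k).of_isClosed_subset h1 inter_subset_left
    have hSk0 : μH[2] (C k ∩ (chartAt (E d) (y k)).symm ⁻¹' S) = 0 := by
      refine measure_mono_null ?_ (h0 (y k))
      rintro z ⟨hz, hzS⟩
      exact ⟨(chartAt (E d) (y k)).symm z, ⟨hzS, (chartAt (E d) (y k)).map_target (hCt hz)⟩,
        (chartAt (E d) (y k)).right_inv (hCt hz)⟩
    obtain ⟨b, Q, h1, h2, h3, h4, h5, h6, O, h7, h8, h9, h10⟩ :=
      hnear (interior (M k)) isOpen_interior (inChart J (y k))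
        (fun z hz u => inChart_sq hJ2 (y k) (hIt hz) u) ((hJc (y k)).mono hIt)
        (fun N' hN' hN's => by
          obtain ⟨L, hL⟩ := hJL (y k) N' hN' (hN's.trans hIt)
          refine ⟨L, fun z hz z' hz' => ?_⟩
          have := hL z hz z' hz'
          rwa [Real.rpow_one] at this)
        _ hSk (inter_subset_left.trans (hCM k)) hSk0 K' ε' hε'0
    exact ⟨b, Q, O, h1, h2, h3.trans interior_subset, h4, fun z hz => h5 z (h3 hz),
      fun z hz => h6 z (h3 hz), h7, h8, h9.trans interior_subset, h10⟩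
  choose b Q O hb hQ hQM hb0 hlow hinv hO hSO hOM hstr using hloc
  have hD := fun k => isD_extF (x₀ := y k) (hb k) (hQ k) ((hQM k).trans (hMt k)) (hb0 k)
  have hb' : ∀ k, ContDiff ℝ ∞ (extDeriv (b k)) := by
    intro k
    rw [contDiff_iff_contDiffAt]
    intro z
    exact Pool.Agent.Y891.SY.contDiffAt_extDeriv (hb k).contDiffAt
  refine ⟨∑ k, extF (y k) (b k), ∑ k, extF (y k) (extDeriv (b k)),
    ⋃ k, (chartAt (E d) (y k)).source ∩ (chartAt (E d) (y k)) ⁻¹' (O k),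
    IsSmooth.sum _ fun k _ => smooth_extF (hb k) (hQ k) ((hQM k).trans (hMt k)) (hb0 k),
    IsSmooth.sum _ fun k _ => smooth_extF (hb' k) (hQ k) ((hQM k).trans (hMt k)) (hD k).2,
    IsD.sum' _ (fun k _ => (hD k).1)
      fun k _ => smooth_extF (hb k) (hQ k) ((hQM k).trans (hMt k)) (hb0 k),
    isOpen_iUnion fun k => (chartAt (E d) (y k)).isOpen_inter_preimage (hO k), ?_, ?_⟩
  · intro p hp
    obtain ⟨k, z, hz, rfl⟩ := hcov p
    have hzt : z ∈ (chartAt (E d) (y k)).target := hMt k (interior_subset (hCM k hz))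
    refine mem_iUnion.2 ⟨k, (chartAt (E d) (y k)).map_target hzt, ?_⟩
    show chartAt (E d) (y k) ((chartAt (E d) (y k)).symm z) ∈ O k
    rw [(chartAt (E d) (y k)).right_inv hzt]
    exact hSO k ⟨hz, hp⟩
  · intro i z hz
    have hpc := fun k => piece (x i) (y k) (J := J) (hNt i) (hMt k) (hQM k) (hOM k) (hD k).2
      hε'0.le hK'0 hΛ0.le (hlow k) (hinv k) (hstr k) (hb1 i k) (hb2 i k) hz
    have hval : ∀ u v : E d, pb (chartAt (E d) (x i)).symm (∑ k, extF (y k) (extDeriv (b k))) z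
        ![u, v] = ∑ k, pb (chartAt (E d) (x i)).symm (extF (y k) (extDeriv (b k))) z ![u, v] := by
      intro u v
      rw [pb_sum, Finset.sum_apply, ContinuousAlternatingMap.sum_apply]
    have hmin1 : min ε 1 ≤ ε := min_le_left _ _
    have hmin2 : min ε 1 ≤ 1 := min_le_right _ _
    refine ⟨fun u => ?_, fun u v => ?_, fun hq u => ?_⟩
    · rw [hval]
      have h1 : ∑ k : Fin m, -(ε' * Λ ^ 2 * ‖u‖ ^ 2) ≤
          ∑ k, pb (chartAt (E d) (x i)).symm (extF (y k) (extDeriv (b k))) z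
            ![u, inChart J (x i) z u] := Finset.sum_le_sum fun k _ => (hpc k).1 u
      rw [Finset.sum_const, Finset.card_univ, Fintype.card_fin, nsmul_eq_mul] at h1
      have h2 : (m : ℝ) * (ε' * Λ ^ 2) * ‖u‖ ^ 2 ≤ ε * ‖u‖ ^ 2 :=
        mul_le_mul_of_nonneg_right (hsum.trans hmin1) (by positivity)
      linarith
    · rw [hval, hval, ← Finset.sum_sub_distrib]
      refine (Finset.abs_sum_le_sum_abs _ _).trans ?_
      refine (Finset.sum_le_sum fun k _ => (hpc k).2.1 u v).trans ?_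
      rw [Finset.sum_const, Finset.card_univ, Fintype.card_fin, nsmul_eq_mul]
      have h2 : (m : ℝ) * (ε' * Λ ^ 2) * (‖u‖ * ‖v‖) ≤ ε * (‖u‖ * ‖v‖) :=
        mul_le_mul_of_nonneg_right (hsum.trans hmin1) (by positivity)
      linarith
    · rw [hval]
      obtain ⟨k, hk⟩ := mem_iUnion.1 hq
      have h1 := (hpc k).2.2 hk u
      have h2 : pb (chartAt (E d) (x i)).symm (extF (y k) (extDeriv (b k))) z
            ![u, inChart J (x i) z u] + ε' * Λ ^ 2 * ‖u‖ ^ 2 ≤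
          ∑ k, (pb (chartAt (E d) (x i)).symm (extF (y k) (extDeriv (b k))) z
            ![u, inChart J (x i) z u] + ε' * Λ ^ 2 * ‖u‖ ^ 2) :=
        Finset.single_le_sum (f := fun k => pb (chartAt (E d) (x i)).symm
          (extF (y k) (extDeriv (b k))) z ![u, inChart J (x i) z u] + ε' * Λ ^ 2 * ‖u‖ ^ 2)
          (fun k _ => by linarith [(hpc k).1 u]) (Finset.mem_univ k)
      rw [Finset.sum_add_distrib, Finset.sum_const, Finset.card_univ, Fintype.card_fin,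
        nsmul_eq_mul] at h2
      have h3 : (m : ℝ) * (ε' * Λ ^ 2) * ‖u‖ ^ 2 ≤ 1 * ‖u‖ ^ 2 :=
        mul_le_mul_of_nonneg_right (hsum.trans hmin2) (by positivity)
      have h4 : (|K| + 1) * ‖u‖ ^ 2 ≤
          pb (chartAt (E d) (x i)).symm (extF (y k) (extDeriv (b k))) z
            ![u, inChart J (x i) z u] := by
        rw [hK'] at h1
        have h5 : 0 < Λ ^ 2 := by positivity
        refine le_of_mul_le_mul_left ?_ h5
        linarith
      have h6 : K * ‖u‖ ^ 2 ≤ |K| * ‖u‖ ^ 2 :=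
        mul_le_mul_of_nonneg_right (le_abs_self K) (by positivity)
      have h7 : 0 ≤ ε' * Λ ^ 2 * ‖u‖ ^ 2 := by positivity
      linarith

end Pool.Agent.H819.HN
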