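import Mathlib
import Pool.Agent.H819.LN.DensK

/-!
# Masses of sums, and small densities on compact sets
-/

set_option autoImplicit false

open Set Filter Topology MeasureTheory Metric
open scoped Manifold ContDiff ENNReal NNReal

noncomputable section

namespace Pool.Agent.H819.HN

open Pool.Agent.Y501.SY (E)
open Pool.Agent.H819.LN

variable {d : ℕ}

/-- the density of a continuous form is small -/
theorem ms_cont (hd : 2 ≤ d) {U : Set (E d)} (hU : IsOpen U)
    {η : E d → (E d) [⋀^Fin 2]→L[ℝ] ℝ} (hη : ContinuousOn η U) {K : Set (E d)}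
    (hK : IsCompact K) (hKU : K ⊆ U) {δ : ℝ} (hδ : 0 < δ) :
    ∃ s₀ : ℝ, 0 < s₀ ∧ ∀ z ∈ K, ∀ s : ℝ, 0 < s → s ≤ s₀ → ∀ θ : E d → (E d) [⋀^Fin 2]→L[ℝ] ℝ,
      ms (fun y => θ y + η y) z s ≤ ms θ z s + ENNReal.ofReal (δ * s ^ (d - 2)) := by
  obtain ⟨r, hr, hrU⟩ := hK.exists_cthickening_subset_open hU hKU
  have hN : IsCompact (cthickening r K) := hK.cthickening
  obtain ⟨B, hB⟩ := hN.exists_bound_of_continuousOn (hη.mono hrU)
  set B₁ : ℝ := max B 0 with hB₁
  have hB0 : 0 ≤ B₁ := le_max_right _ _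
  have hvt : volume (closedBall (0 : E d) 1) ≠ ⊤ := (isCompact_closedBall _ _).measure_lt_top.ne
  set v : ℝ := (volume (closedBall (0 : E d) 1)).toReal with hv
  have hv0 : 0 ≤ v := ENNReal.toReal_nonneg
  refine ⟨min r (min 1 (δ / (B₁ * v + 1))), by positivity, fun z hz s hs hss θ => ?_⟩
  have hsr : s ≤ r := hss.trans (min_le_left _ _)
  have hs1 : s ≤ 1 := hss.trans ((min_le_right _ _).trans (min_le_left _ _))
  have hsδ : s * (B₁ * v + 1) ≤ δ := by
    have h1 : s ≤ δ / (B₁ * v + 1) := hss.trans ((min_le_right _ _).trans (min_le_right _ _))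
    rwa [le_div_iff₀ (by positivity)] at h1
  have hball : closedBall z s ⊆ cthickening r K :=
    (closedBall_subset_closedBall hsr).trans (closedBall_subset_cthickening hz r)
  have hm : AEMeasurable (fun y => ‖η y‖ₑ) (volume.restrict (closedBall z s)) :=
    ((hη.mono (hball.trans hrU)).aestronglyMeasurable measurableSet_closedBall).enorm
  unfold ms
  calc ∫⁻ z' in closedBall z s, ‖θ z' + η z'‖ₑ
      ≤ ∫⁻ z' in closedBall z s, (‖θ z'‖ₑ + ‖η z'‖ₑ) := lintegral_mono fun y => by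
        rw [← ofReal_norm, ← ofReal_norm, ← ofReal_norm,
          ← ENNReal.ofReal_add (norm_nonneg _) (norm_nonneg _)]
        exact ENNReal.ofReal_le_ofReal (norm_add_le _ _)
    _ = (∫⁻ z' in closedBall z s, ‖θ z'‖ₑ) + ∫⁻ z' in closedBall z s, ‖η z'‖ₑ :=
        lintegral_add_right' _ hm
    _ ≤ (∫⁻ z' in closedBall z s, ‖θ z'‖ₑ) + ENNReal.ofReal (δ * s ^ (d - 2)) := by
        gcongr
        calc ∫⁻ z' in closedBall z s, ‖η z'‖ₑ ≤ ∫⁻ _ in closedBall z s, ENNReal.ofReal B₁ := by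
              refine setLIntegral_mono' measurableSet_closedBall fun y hy => ?_
              rw [← ofReal_norm]
              exact ENNReal.ofReal_le_ofReal ((hB y (hball hy)).trans (le_max_left _ _))
          _ = ENNReal.ofReal B₁ * (ENNReal.ofReal (s ^ d) * ENNReal.ofReal v) := by
              rw [setLIntegral_const, LG.vol_ball z hs.le, hv, ENNReal.ofReal_toReal hvt]
          _ = ENNReal.ofReal (B₁ * (s ^ d * v)) := by
              rw [← ENNReal.ofReal_mul (by positivity), ← ENNReal.ofReal_mul hB0]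
          _ ≤ ENNReal.ofReal (δ * s ^ (d - 2)) := by
              refine ENNReal.ofReal_le_ofReal ?_
              have e1 : s ^ d = s ^ (d - 2) * (s * s) := by
                rw [← sq, ← pow_add]
                congr 1
                omega
              have h2 : s * s ≤ s := by nlinarith
              have h3 : B₁ * v * (s * s) ≤ δ := by
                have h4 : B₁ * v * (s * s) ≤ B₁ * v * s := by gcongr
                nlinarith
              have h5 : 0 < s ^ (d - 2) := by positivity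
              rw [e1]
              calc B₁ * (s ^ (d - 2) * (s * s) * v) = B₁ * v * (s * s) * s ^ (d - 2) := by ring
                _ ≤ δ * s ^ (d - 2) := by gcongr

/-- the points near which the densities of the small balls are at most `κ` -/
def Sm (θ : E d → (E d) [⋀^Fin 2]→L[ℝ] ℝ) (κ : ℝ) : Set (E d) :=
  {z | ∃ s₀ : ℝ, 0 < s₀ ∧ ∀ z' ∈ closedBall z s₀, ∀ s : ℝ, 0 < s → s ≤ s₀ →
    ms θ z' s ≤ ENNReal.ofReal (κ * s ^ (d - 2))}

theorem isOpen_Sm (θ : E d → (E d) [⋀^Fin 2]→L[ℝ] ℝ) (κ : ℝ) : IsOpen (Sm θ κ) := by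
  rw [Metric.isOpen_iff]
  rintro z ⟨s₀, hs₀, h⟩
  refine ⟨s₀ / 2, by positivity, fun z₁ hz₁ => ⟨s₀ / 2, by positivity, fun z' hz' s hs hss =>
    h z' ?_ s hs (by linarith)⟩⟩
  rw [mem_ball] at hz₁
  rw [mem_closedBall] at hz' ⊢
  linarith [dist_triangle z' z₁ z]

theorem Sm_compact {θ : E d → (E d) [⋀^Fin 2]→L[ℝ] ℝ} {κ : ℝ} {K : Set (E d)} (hK : IsCompact K)
    (h : K ⊆ Sm θ κ) : ∃ s₀ : ℝ, 0 < s₀ ∧ ∀ z ∈ K, ∀ s : ℝ, 0 < s → s ≤ s₀ →
      ms θ z s ≤ ENNReal.ofReal (κ * s ^ (d - 2)) := by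
  refine hK.induction_on (p := fun K => ∃ s₀ : ℝ, 0 < s₀ ∧ ∀ z ∈ K, ∀ s : ℝ, 0 < s → s ≤ s₀ →
      ms θ z s ≤ ENNReal.ofReal (κ * s ^ (d - 2))) ?_ ?_ ?_ ?_
  · exact ⟨1, one_pos, fun z hz => hz.elim⟩
  · rintro s t hst ⟨s₀, hs₀, h⟩
    exact ⟨s₀, hs₀, fun z hz => h z (hst hz)⟩
  · rintro s t ⟨s₀, hs₀, h⟩ ⟨s₁, hs₁, h'⟩
    refine ⟨min s₀ s₁, by positivity, ?_⟩
    rintro z (hz | hz) r hr hrr
    · exact h z hz r hr (hrr.trans (min_le_left _ _))
    · exact h' z hz r hr (hrr.trans (min_le_right _ _))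
  · intro z hz
    obtain ⟨s₀, hs₀, h1⟩ := h hz
    exact ⟨closedBall z s₀, mem_nhdsWithin_of_mem_nhds (closedBall_mem_nhds z hs₀), s₀, hs₀, h1⟩

end Pool.Agent.H819.HN
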