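import Mathlib
import Pool.Agent.H819.LN.Piece

/-!
# General pieces with small density
-/

set_option autoImplicit false

open Set Filter Topology MeasureTheory Metric
open scoped Manifold ContDiff ENNReal NNReal

noncomputable section

namespace Pool.Agent.H819.HN

open Pool.Agent.Y501.SY
open Pool.Agent.H819.LN

variable {d : ℕ} {X : Type} [TopologicalSpace X] [ChartedSpace (E d) X] {ι : Type} [Fintype ι]
  [DecidableEq ι] [IsManifold (𝓡 d) ∞ X]

/-- the bounds of `psi_bounds` on the set `K` -/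
def PsiB (c : ι → Sh d X) (R : ℝ) (i : ι) (K : Set (E d)) (r C : ℝ) : Prop :=
  ∀ y : ι → E d, ‖y‖ ≤ r → ∀ z ∈ K,
      (y, z) ∈ PsiD c R (c i).x₀ ∧
      ‖Psi c (c i).x₀ (y, z) - z‖ ≤ C * ‖y‖ ∧
      ‖fderiv ℝ (fun z' => Psi c (c i).x₀ (y, z')) z - ContinuousLinearMap.id ℝ (E d)‖ ≤
        C * ‖y‖ ∧
      ‖(fderiv ℝ (fun y' => Psi c (c i).x₀ (y', z)) y).comp (inc i) -
        ContinuousLinearMap.id ℝ (E d)‖ ≤ C * ‖y‖ + 1 / 4

omit [DecidableEq ι] in
theorem PsiB.mono' {c : ι → Sh d X} [DecidableEq ι] {R : ℝ} {i : ι} {K K' : Set (E d)} {r C : ℝ}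
    (h : PsiB c R i K r C) (hK : K' ⊆ K) : PsiB c R i K' r C :=
  fun y hy z hz => h y hy z (hK hz)

/-- **General pieces with small density.**  The constant `C₁` is obtained from a compact set which
contains the piece; the smallness condition depends only on `C₁`. -/
theorem piece_small (c : ι → Sh d X) {R : ℝ} (i : ι) {K N : Set (E d)}
    (hd : 2 ≤ d) (hK : IsCompact K) (hKN : K ⊆ interior N) {r₁ C₁ : ℝ} (hr₁ : 0 < r₁)
    (hC₁ : 1 ≤ C₁) (hb : PsiB c R i K r₁ C₁)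
    {A : E d → (E d →L[ℝ] E d)} {M L : ℝ} (hM0 : 0 ≤ M) (hM : ∀ z ∈ N, ‖A z‖ ≤ M)
    (hL : ∀ z ∈ N, ∀ z' ∈ N, ‖A z' - A z‖ ≤ L * ‖z' - z‖)
    {θ : E d → (E d) [⋀^Fin 2]→L[ℝ] ℝ} {C c₀ D₀ s₀ : ℝ} (hs₀ : 0 < s₀)
    (hs : ∀ z ∈ K, ∀ s : ℝ, 0 < s → s ≤ s₀ → ms θ z s ≤ ENNReal.ofReal (D₀ * s ^ (d - 2)))
    (hsmall : ((2 * M + |L|) * C₁) ^ 2 * (C₁ ^ (d - 2) * D₀) ≤ epsC d C M * c₀) :
    ∃ r₀ : ℝ, 0 < r₀ ∧ ∀ r : ℝ, 0 < r → r ≤ r₀ → ∃ ρ e : ℝ, PieceAt c R i K N A θ C M c₀ r ρ e := by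
  obtain ⟨ρ₁, hρ₁, hρ₁'⟩ := exists_ball_sub hK isOpen_interior hKN
  set C₂ : ℝ := (2 * M + |L|) * C₁ with hC₂
  have hC₁0 : 0 < C₁ := by linarith
  have hC₂0 : 0 ≤ C₂ := by positivity
  refine ⟨min r₁ (min (ρ₁ / C₁) (min (1 / (4 * C₁)) (s₀ / C₁))), by positivity, ?_⟩
  intro r hr hrr
  have hrr₁ : r ≤ r₁ := hrr.trans (min_le_left _ _)
  have hrρ : C₁ * r ≤ ρ₁ := by
    have : r ≤ ρ₁ / C₁ := hrr.trans ((min_le_right _ _).trans (min_le_left _ _))
    rw [le_div_iff₀ hC₁0] at this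
    linarith
  have hr4 : C₁ * r ≤ 1 / 4 := by
    have : r ≤ 1 / (4 * C₁) := hrr.trans ((min_le_right _ _).trans ((min_le_right _ _).trans
      (min_le_left _ _)))
    rw [le_div_iff₀ (by positivity)] at this
    linarith
  have hrs : C₁ * r ≤ s₀ := by
    have : r ≤ s₀ / C₁ := hrr.trans ((min_le_right _ _).trans ((min_le_right _ _).trans
      (min_le_right _ _)))
    rw [le_div_iff₀ hC₁0] at this
    linarith
  have hball : ∀ z ∈ K, closedBall z (C₁ * r) ⊆ N := fun z hz =>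
    (closedBall_subset_closedBall hrρ).trans ((hρ₁' z hz).trans interior_subset)
  have hyr : ∀ y : ι → E d, ‖y‖ ≤ r → C₁ * ‖y‖ ≤ C₁ * r := fun y hy => by gcongr
  refine ⟨C₁ * r, C₂ * r, by positivity, hball, ?_, ?_, ?_, ?_, ?_, ?_⟩
  · intro y hy z hz
    exact (hb y (hy.trans hrr₁) z hz).1
  · intro y hy z hz
    exact (hb y (hy.trans hrr₁) z hz).2.1.trans (hyr y hy)
  · intro y hy z hz
    refine (hb y (hy.trans hrr₁) z hz).2.2.1.trans ((hyr y hy).trans (hr4.trans (by norm_num)))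
  · intro y hy z hz
    refine (hb y (hy.trans hrr₁) z hz).2.2.2.trans ?_
    have := hyr y hy
    linarith
  · intro y hy z hz
    obtain ⟨h1, h2, h3, h4⟩ := hb y (hy.trans hrr₁) z hz
    have hPN : Psi c (c i).x₀ (y, z) ∈ N := by
      refine hball z hz ?_
      rw [mem_closedBall, dist_eq_norm]
      exact h2.trans (hyr y hy)
    have hzN : z ∈ N := interior_subset (hKN hz)
    have h5 := hL z hzN _ hPN
    refine (err_general (b := |L| * (C₁ * r)) (hM z hzN) (hM _ hPN) (h3.trans (hyr y hy))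
      (h5.trans ?_)).trans ?_
    · calc L * ‖Psi c (c i).x₀ (y, z) - z‖ ≤ |L| * ‖Psi c (c i).x₀ (y, z) - z‖ := by
            gcongr
            exact le_abs_self L
        _ ≤ |L| * (C₁ * r) := by
            gcongr
            exact h2.trans (hyr y hy)
    · rw [hC₂]
      linarith
  · intro z hz
    have h1 := hs z hz (C₁ * r) (by positivity) hrs
    calc ENNReal.ofReal ((C₂ * r) ^ 2) * ms θ z (C₁ * r)
        ≤ ENNReal.ofReal ((C₂ * r) ^ 2) * ENNReal.ofReal (D₀ * (C₁ * r) ^ (d - 2)) := by gcongr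
      _ = ENNReal.ofReal ((C₂ * r) ^ 2 * (D₀ * (C₁ * r) ^ (d - 2))) :=
          (ENNReal.ofReal_mul (sq_nonneg _)).symm
      _ ≤ ENNReal.ofReal (epsC d C M * c₀ * r ^ d) := by
          refine ENNReal.ofReal_le_ofReal ?_
          have e1 : r ^ d = r ^ 2 * r ^ (d - 2) := by
            rw [← pow_add]
            congr 1
            omega
          have e2 : (C₂ * r) ^ 2 * (D₀ * (C₁ * r) ^ (d - 2)) =
              (C₂ ^ 2 * (C₁ ^ (d - 2) * D₀)) * (r ^ 2 * r ^ (d - 2)) := by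
            rw [mul_pow, mul_pow]
            ring
          rw [e1, e2]
          exact mul_le_mul_of_nonneg_right hsmall (by positivity)

end Pool.Agent.H819.HN
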