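import Mathlib
import Pool.Agent.H819.LN.Chart
import Pool.Agent.H819.LN.Asm
import Pool.Agent.H819.DR.Def
import Pool.Agent.H819.HN.Piece
import Pool.Agent.H819.HN.Good
import Pool.Agent.H819.HN.Man
import Pool.Agent.H819.HN.Ms

/-!
# Assembling with an exact form which is large near the singular set
-/

set_option autoImplicit false

open Set Filter Topology MeasureTheory Metric
open scoped Manifold ContDiff ENNReal NNReal

noncomputable section

namespace Pool.Agent.H819.HN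

open Pool.Agent.Y501.SY
open Pool.Agent.H819
open Pool.Agent.H819.LN
open Pool.Agent.H819.LG (GoodAt InClass TamedIn Represents StronglyTames LocHolder
  smooth_chart inChart_sq weakPrim_of_smooth)

variable {d : ℕ} {X : Type} [TopologicalSpace X] [ChartedSpace (E d) X] [IsManifold (𝓡 d) ∞ X]

/-- a constant below finitely many positive numbers -/
theorem exists_min {γ : Type} [Finite γ] (f : γ → ℝ) (hf : ∀ i, 0 < f i) :
    ∃ r : ℝ, 0 < r ∧ ∀ i, r ≤ f i := exists_pos_le' f hf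

/-- a constant above finitely many numbers -/
theorem exists_max {γ : Type} [Finite γ] (f : γ → ℝ) : ∃ r : ℝ, 0 < r ∧ ∀ i, f i ≤ r := by
  cases nonempty_fintype γ
  refine ⟨1 + ∑ i, |f i|, by positivity, fun i => ?_⟩
  have h1 : |f i| ≤ ∑ i, |f i| :=
    Finset.single_le_sum (f := fun i => |f i|) (fun j _ => abs_nonneg _) (Finset.mem_univ i)
  linarith [le_abs_self (f i)]

/-- `exists_strong_near` for finite index types -/
theorem exists_strong_near' [T2Space X] [CompactSpace X] (hnear : S_Near d) {J : End d X}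
    (hJ2 : ∀ (x : X) (v : TangentSpace (𝓡 d) x), J x (J x v) = -v)
    (hJc : ∀ x₀, ContinuousOn (inChart J x₀) (chartAt (E d) x₀).target)
    (hJL : LocHolder J 1) {S : Set X} (hS : IsClosed S)
    (h0 : ∀ x₀ : X, μH[2] (chartAt (E d) x₀ '' (S ∩ (chartAt (E d) x₀).source)) = 0)
    {γ : Type} [Finite γ] (x : γ → X) (N : γ → Set (E d)) (hN : ∀ i, IsCompact (N i))
    (hNt : ∀ i, N i ⊆ (chartAt (E d) (x i)).target) (K : ℝ) {ε : ℝ} (hε : 0 < ε) :
    ∃ (ζ : Form d X 1) (η : Form d X 2) (O : Set X), IsSmooth ζ ∧ IsSmooth η ∧ IsD ζ η ∧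
      IsOpen O ∧ S ⊆ O ∧ ∀ i, ∀ z ∈ N i,
        (∀ u : E d, -(ε * ‖u‖ ^ 2) ≤
          pb (chartAt (E d) (x i)).symm η z ![u, inChart J (x i) z u]) ∧
        (∀ u v : E d, |pb (chartAt (E d) (x i)).symm η z ![inChart J (x i) z u,
          inChart J (x i) z v] - pb (chartAt (E d) (x i)).symm η z ![u, v]| ≤ ε * ‖u‖ * ‖v‖) ∧
        ((chartAt (E d) (x i)).symm z ∈ O → ∀ u : E d,
          K * ‖u‖ ^ 2 ≤ pb (chartAt (E d) (x i)).symm η z ![u, inChart J (x i) z u]) := by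
  obtain ⟨n, ⟨e⟩⟩ := Finite.exists_equiv_fin γ
  obtain ⟨ζ, η, O, h1, h2, h3, h4, h5, h6⟩ := exists_strong_near hnear hJ2 hJc hJL hS h0
    (fun i => x (e.symm i)) (fun i => N (e.symm i)) (fun i => hN _) (fun i => hNt _) K hε
  refine ⟨ζ, η, O, h1, h2, h3, h4, h5, fun i z hz => ?_⟩
  have h7 := h6 (e i) z
  simp only [Equiv.symm_apply_apply] at h7
  exact h7 hz

theorem represents_add {σ₀ θ : Form d X 2} (h : Represents σ₀ θ) {ζ : Form d X 1}
    {η : Form d X 2} (hζ : IsSmooth ζ) (hη : IsSmooth η) (hd : IsD ζ η) :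
    Represents σ₀ (θ + η) := by
  obtain ⟨α, hα⟩ := h
  refine ⟨α + ζ, ?_⟩
  have h1 : θ + η - σ₀ = (θ - σ₀) + η := by abel
  rw [h1]
  exact DR.weakPrim_add hα (weakPrim_of_smooth hζ hη hd)

/-- what is needed of the special pieces -/
def Special {ι : Type} [Fintype ι] [DecidableEq ι] (c : ι → Sh d X) (R : ℝ) (i : ι)
    (K N : Set (E d)) (A : E d → E d →L[ℝ] E d) (θ : E d → (E d) [⋀^Fin 2]→L[ℝ] ℝ) : Prop :=
  ∃ M C c₀ D₀ s₀ : ℝ, 1 ≤ M ∧ 0 ≤ C ∧ 0 < c₀ ∧ 0 ≤ D₀ ∧ 0 < s₀ ∧ (∀ z ∈ N, ‖A z‖ ≤ M) ∧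
    (∀ᵐ z ∂(volume.restrict N), GoodAt θ A C c₀ z) ∧
    (∀ z ∈ K, ∀ s : ℝ, 0 < s → s ≤ s₀ → ms θ z s ≤ ENNReal.ofReal (D₀ * s ^ (d - 2))) ∧
    ∀ (θ' : E d → (E d) [⋀^Fin 2]→L[ℝ] ℝ) (s₁ : ℝ), 0 < s₁ →
      (∀ z ∈ K, ∀ s : ℝ, 0 < s → s ≤ s₁ →
        ms θ' z s ≤ ENNReal.ofReal ((D₀ + 1) * s ^ (d - 2))) →
      ∃ r₀ : ℝ, 0 < r₀ ∧ ∀ r : ℝ, 0 < r → r ≤ r₀ → ∃ ρ e : ℝ,
        PieceAt c R i K N A θ' (12 * C + 6) M (c₀ / 2) r ρ e

/-- **Assembling.**  The density of `θ` need only vanish, on the general pieces, outside a set of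
zero two-dimensional measure. -/
theorem assemble_null [T2Space X] [CompactSpace X] (hd : 2 ≤ d) (hnear : S_Near d) {J : End d X}
    (hJ2 : ∀ (x : X) (v : TangentSpace (𝓡 d) x), J x (J x v) = -v)
    (hJ : ∀ x₀, ContinuousOn (inChart J x₀) (chartAt (E d) x₀).target)
    (hJL : LocHolder J 1)
    {σ₀ θ : Form d X 2} (hσ : IsSmooth σ₀) (hcl : IsClosedForm σ₀) (hrep : Represents σ₀ θ)
    (ht : StronglyTames θ J) {ι : Type} [Fintype ι] [DecidableEq ι] (c : ι → Sh d X) {R : ℝ}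
    (hR0 : 0 < R) (hR : ∀ i, R ≤ (c i).R) {γ τ : Type} [Finite γ] [Finite τ]
    (a : γ → ι) (K N : γ → Set (E d)) (hK : ∀ g, IsCompact (K g)) (hN : ∀ g, IsCompact (N g))
    (hKN : ∀ g, K g ⊆ interior (N g)) (hNt : ∀ g, N g ⊆ (c (a g)).e.target)
    (hK1 : ∀ g, ∀ z ∈ K g, ‖(c (a g)).V z - ContinuousLinearMap.id ℝ (E d)‖ ≤ 1 / 4)
    (b : τ → ι) (K' N' : τ → Set (E d)) (hK' : ∀ j, IsCompact (K' j))
    (hN' : ∀ j, IsCompact (N' j)) (hKN' : ∀ j, K' j ⊆ N' j)
    (hNt' : ∀ j, N' j ⊆ (c (b j)).e.target)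
    (hsp : ∀ j, Special c R (b j) (K' j) (N' j) (inChart J (c (b j)).x₀)
      (pb (c (b j)).e.symm θ))
    (hcov : ∀ p : X, (∃ g, ∃ z ∈ K g, (c (a g)).e.symm z = p) ∨
      ∃ j, ∃ z ∈ K' j, (c (b j)).e.symm z = p)
    (h0 : ∀ x₀ : X, μH[2] (chartAt (E d) x₀ '' ({p : X | (∃ g, ∃ z ∈ K g,
      (c (a g)).e.symm z = p) ∧ ¬ ZeroLelong θ p} ∩ (chartAt (E d) x₀).source)) = 0) :
    TamedIn σ₀ J := by
  classical
  have hT := taming_chart hJ2 hJ hJL hσ hcl hrep ht
  have hKNs : ∀ g, K g ⊆ N g := fun g => (hKN g).trans interior_subset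
  -- constants on the general pieces
  have hMex : ∀ g, ∃ M : ℝ, 1 ≤ M ∧ ∀ z ∈ N g, ‖inChart J (c (a g)).x₀ z‖ ≤ M := by
    intro g
    obtain ⟨M, hM⟩ := (hN g).exists_bound_of_continuousOn ((hJ (c (a g)).x₀).mono (hNt g))
    exact ⟨max M 1, le_max_right _ _, fun z hz => (hM z hz).trans (le_max_left _ _)⟩
  choose M hM1 hM using hMex
  have hLex := fun g => (hT (c (a g)).x₀).lip (N g) (hN g) (hNt g)
  choose L hL using hLex
  have hCex : ∀ g, ∃ c₀ C : ℝ, 0 < c₀ ∧ 0 ≤ C ∧ ∀ᵐ z ∂(volume.restrict (N g)),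
      GoodAt (pb (c (a g)).e.symm θ) (inChart J (c (a g)).x₀) C c₀ z := by
    intro g
    obtain ⟨c₀, hc₀, C, hC⟩ := (hT (c (a g)).x₀).good (N g) (hN g) (hNt g)
    refine ⟨c₀, max C 0, hc₀, le_max_right _ _, ?_⟩
    filter_upwards [hC] with z hz
    exact hz.mono hc₀.le (le_max_left _ _) le_rfl
  choose c₀ C hc₀ hC hgood using hCex
  have hDex := fun g => dens_bound hd (hT (c (a g)).x₀) (hK g) ((hKNs g).trans (hNt g))
  choose s₀ hs₀ D₀ hD₀ hdens using hDex
  have hPex := fun g => psi_bounds c hR0 hR (a g) (hK g) ((hKNs g).trans (hNt g)) (hK1 g)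
  choose r₁ hr₁ hr₁R C₁ hC₁ hpsi using hPex
  -- constants on the special pieces
  choose Mt Ct ct Dt st hMt1 hCt hct hDt hst hMt hgoodt hdenst hpiece using hsp
  set Λ : γ → ℝ := fun g => ((2 * M g + |L g|) * C₁ g) ^ 2 * C₁ g ^ (d - 2) with hΛ
  have hΛ0 : ∀ g, 0 ≤ Λ g := by
    intro g
    have := hC₁ g
    have h2 : 0 ≤ C₁ g := by linarith
    exact mul_nonneg (sq_nonneg _) (pow_nonneg h2 _)
  set C' : γ → ℝ := fun g => 12 * C g + 6 with hC'
  have hC'0 : ∀ g, 0 ≤ C' g := fun g => by have := hC g; show 0 ≤ 12 * C g + 6; linarith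
  have hM0 : ∀ g, 0 ≤ M g := fun g => by linarith [hM1 g]
  have heps : ∀ g, 0 < epsC d (C' g) (M g) := fun g => epsC_pos (hC'0 g) (hM0 g)
  obtain ⟨κ, hκ, hκ'⟩ := exists_min (fun g => epsC d (C' g) (M g) * (c₀ g / 2) / (2 * (Λ g + 1)))
    (fun g => by have := heps g; have := hc₀ g; have := hΛ0 g; positivity)
  obtain ⟨Kb, hKb, hKb'⟩ := exists_max (fun g => Λ g * (D₀ g + 1) / epsC d (C' g) (M g))
  obtain ⟨ε₁, hε₁, hε₁'⟩ := exists_min (fun g => c₀ g / (4 * (1 + M g ^ 2)))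
    (fun g => by have := hc₀ g; positivity)
  obtain ⟨ε₂, hε₂, hε₂'⟩ := exists_min (fun j => ct j / (4 * (1 + Mt j ^ 2)))
    (fun j => by have := hct j; positivity)
  set ε : ℝ := min ε₁ ε₂ with hε
  have hε0 : 0 < ε := lt_min hε₁ hε₂
  have hεg : ∀ g, 4 * (1 + M g ^ 2) * ε ≤ c₀ g := by
    intro g
    have h1 : ε ≤ c₀ g / (4 * (1 + M g ^ 2)) := (min_le_left _ _).trans (hε₁' g)
    rw [le_div_iff₀ (by positivity)] at h1
    linarith
  have hεj : ∀ j, 4 * (1 + Mt j ^ 2) * ε ≤ ct j := by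
    intro j
    have h1 : ε ≤ ct j / (4 * (1 + Mt j ^ 2)) := (min_le_right _ _).trans (hε₂' j)
    rw [le_div_iff₀ (by positivity)] at h1
    linarith
  -- the singular set
  set G : γ → Set (E d) := fun g => Sm (pb (c (a g)).e.symm θ) κ with hG
  have hGo : ∀ g, IsOpen (G g) := fun g => isOpen_Sm _ _
  set S : Set X := ⋃ g, (c (a g)).e.symm '' (K g \ G g) with hS
  have hSc : IsClosed S := by
    refine isClosed_iUnion_of_finite fun g => ?_
    refine IsCompact.isClosed ?_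
    refine ((hK g).diff (hGo g)).image_of_continuousOn ?_
    exact (c (a g)).e.continuousOn_symm.mono (sdiff_subset.trans ((hKNs g).trans (hNt g)))
  have hS0 : ∀ x₀ : X, μH[2] (chartAt (E d) x₀ '' (S ∩ (chartAt (E d) x₀).source)) = 0 := by
    intro x₀
    refine measure_mono_null (image_mono (inter_subset_inter_left _ ?_)) (h0 x₀)
    intro p hp
    obtain ⟨g, z, hz, rfl⟩ := mem_iUnion.1 hp
    refine ⟨⟨g, z, hz.1, rfl⟩, fun h => hz.2 ?_⟩
    exact small_at hd hT (c (a g)).x₀ (hNt g (hKNs g hz.1)) h hκ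
  -- the exact form
  obtain ⟨ζ, η, O, hζ, hη, hdη, hO, hSO, hnr⟩ := exists_strong_near' hnear hJ2 hJ hJL hSc hS0
    (γ := γ ⊕ τ) (fun k => (c (Sum.elim a b k)).x₀) (fun k => Sum.elim N N' k)
    (by rintro (g | j); exacts [hN g, hN' j]) (by rintro (g | j); exacts [hNt g, hNt' j]) Kb hε0
  obtain ⟨O₁, hO₁, hSO₁, hO₁O⟩ := normal_exists_closure_subset hSc hO hSO
  have hrep' : Represents σ₀ (θ + η) := represents_add hrep hζ hη hdη
  have hpb : ∀ i, pb (c i).e.symm (θ + η) =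
      fun y => pb (c i).e.symm θ y + pb (c i).e.symm η y := fun i => pb_add _ _ _
  have hηc : ∀ i, ContinuousOn (pb (c i).e.symm η) (c i).e.target := fun i =>
    (smooth_chart hη (c i).x₀).continuousOn
  -- the good constants of the sum
  have hgood' : ∀ g, ∀ᵐ z ∂(volume.restrict (N g)),
      GoodAt (pb (c (a g)).e.symm (θ + η)) (inChart J (c (a g)).x₀) (C' g) (c₀ g / 2) z ∧
      ((c (a g)).e.symm z ∈ O → GoodAt (pb (c (a g)).e.symm (θ + η)) (inChart J (c (a g)).x₀)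
        (C' g) Kb z) := by
    intro g
    filter_upwards [hgood g, ae_restrict_mem (hN g).measurableSet] with z hz hzN
    obtain ⟨n1, n2, n3⟩ := hnr (Sum.inl g) z hzN
    obtain ⟨g1, g2⟩ := goodAt_add (hC g) (hc₀ g) hε0.le
      (fun u => inChart_sq hJ2 (c (a g)).x₀ (hNt g hzN) u) (hM g z hzN) hz (hεg g) n1 n2
    rw [hpb]
    exact ⟨g1, fun h => g2 Kb (n3 h)⟩
  have hgoodt' : ∀ j, ∀ᵐ z ∂(volume.restrict (N' j)),
      GoodAt (pb (c (b j)).e.symm (θ + η)) (inChart J (c (b j)).x₀) (12 * Ct j + 6)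
        (ct j / 2) z := by
    intro j
    filter_upwards [hgoodt j, ae_restrict_mem (hN' j).measurableSet] with z hz hzN
    obtain ⟨n1, n2, n3⟩ := hnr (Sum.inr j) z hzN
    obtain ⟨g1, g2⟩ := goodAt_add (hCt j) (hct j) hε0.le
      (fun u => inChart_sq hJ2 (c (b j)).x₀ (hNt' j hzN) u) (hMt j z hzN) hz (hεj j) n1 n2
    rw [hpb]
    exact g1
  -- the parts of the general pieces
  set KA : γ → Set (E d) := fun g => K g \ ((c (a g)).e.target ∩ (c (a g)).e.symm ⁻¹' O₁) with hKA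
  set KB : γ → Set (E d) := fun g => K g \ ((c (a g)).e.target ∩
    (c (a g)).e.symm ⁻¹' (closure O₁)ᶜ) with hKB
  have hKAc : ∀ g, IsCompact (KA g) := fun g =>
    (hK g).diff ((c (a g)).e.isOpen_inter_preimage_symm hO₁)
  have hKBc : ∀ g, IsCompact (KB g) := fun g =>
    (hK g).diff ((c (a g)).e.isOpen_inter_preimage_symm isClosed_closure.isOpen_compl)
  have hKAG : ∀ g, KA g ⊆ G g := by
    intro g z hz
    by_contra h
    refine hz.2 ⟨hNt g (hKNs g hz.1), hSO₁ ?_⟩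
    exact mem_iUnion.2 ⟨g, z, ⟨hz.1, h⟩, rfl⟩
  have hKBO : ∀ g, KB g ⊆ interior (N g) ∩ ((c (a g)).e.target ∩ (c (a g)).e.symm ⁻¹' O) := by
    intro g z hz
    have hzt := hNt g (hKNs g hz.1)
    refine ⟨hKN g hz.1, hzt, hO₁O ?_⟩
    by_contra h
    exact hz.2 ⟨hzt, h⟩
  have hNBex := fun g => exists_compact_between (hKBc g)
    (isOpen_interior.inter ((c (a g)).e.isOpen_inter_preimage_symm hO)) (hKBO g)
  choose NB hNBc hKNB hNBs using hNBex
  have hNBN : ∀ g, NB g ⊆ N g := fun g => (hNBs g).trans (inter_subset_left.trans interior_subset)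
  -- the pieces
  refine assemble c hR0 hR (κ := (γ ⊕ γ) ⊕ τ) (Sum.elim (Sum.elim a a) b)
    (Sum.elim (Sum.elim KA KB) K') (Sum.elim (Sum.elim N NB) N') ?_ ?_ ?_ ?_ hJ hσ hcl hrep' ?_
  · rintro ((g | g) | j)
    exacts [hKAc g, hKBc g, hK' j]
  · rintro ((g | g) | j)
    exacts [hN g, hNBc g, hN' j]
  · rintro ((g | g) | j)
    exacts [hNt g, (hNBN g).trans (hNt g), hNt' j]
  · intro p
    rcases hcov p with ⟨g, z, hz, hp⟩ | ⟨j, z, hz, hp⟩
    · by_cases h : z ∈ (c (a g)).e.target ∩ (c (a g)).e.symm ⁻¹' O₁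
      · exact ⟨Sum.inl (Sum.inr g), z, ⟨hz, fun h2 => h2.2 (subset_closure h.2)⟩, hp⟩
      · exact ⟨Sum.inl (Sum.inl g), z, ⟨hz, h⟩, hp⟩
    · exact ⟨Sum.inr j, z, hz, hp⟩
  · rintro ((g | g) | j)
    · -- away from the singular set
      have hc2 : 0 < c₀ g / 2 := by have := hc₀ g; positivity
      refine ⟨M g, C' g, c₀ g / 2, hM1 g, hC'0 g, hc2, hM g, ?_, ?_⟩
      · filter_upwards [hgood' g] with z hz
        exact hz.1
      · obtain ⟨sA, hsA, hsm⟩ := Sm_compact (hKAc g) (hKAG g)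
        obtain ⟨sη, hsη, hms⟩ := ms_cont hd (c (a g)).e.open_target (hηc (a g)) (hKAc g)
          (sdiff_subset.trans ((hKNs g).trans (hNt g))) hκ
        refine piece_small c (a g) (K := KA g) (N := N g) hd (hKAc g)
          (sdiff_subset.trans (hKN g)) (hr₁ g) (hC₁ g)
          (fun y hy z hz => hpsi g y hy z hz.1) (hM0 g) (hM g) (hL g) (D₀ := 2 * κ)
          (s₀ := min sA sη) (lt_min hsA hsη) ?_ ?_
        · intro z hz s hs hss
          show ms (pb (c (a g)).e.symm (θ + η)) z s ≤ _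
          rw [hpb]
          refine (hms z hz s hs (hss.trans (min_le_right _ _)) _).trans ?_
          calc ms (pb (c (a g)).e.symm θ) z s + ENNReal.ofReal (κ * s ^ (d - 2))
              ≤ ENNReal.ofReal (κ * s ^ (d - 2)) + ENNReal.ofReal (κ * s ^ (d - 2)) := by
                gcongr
                exact hsm z hz s hs (hss.trans (min_le_left _ _))
            _ = ENNReal.ofReal (2 * κ * s ^ (d - 2)) := by
                rw [← ENNReal.ofReal_add (by positivity) (by positivity)]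
                congr 1
                ring
        · have h1 := hκ' g
          have h2 := hΛ0 g
          rw [le_div_iff₀ (by positivity)] at h1
          calc ((2 * M g + |L g|) * C₁ g) ^ 2 * (C₁ g ^ (d - 2) * (2 * κ)) = Λ g * (2 * κ) := by
                rw [hΛ]
                ring
            _ ≤ κ * (2 * (Λ g + 1)) := by nlinarith
            _ ≤ _ := h1
    · -- near the singular set
      refine ⟨M g, C' g, Kb, hM1 g, hC'0 g, hKb, fun z hz => hM g z (hNBN g hz), ?_, ?_⟩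
      · have h1 := ae_restrict_of_ae_restrict_of_subset (hNBN g) (hgood' g)
        filter_upwards [h1, ae_restrict_mem (hNBc g).measurableSet] with z hz hzN
        exact hz.2 (hNBs g hzN).2.2
      · obtain ⟨sη, hsη, hms⟩ := ms_cont hd (c (a g)).e.open_target (hηc (a g)) (hK g)
          ((hKNs g).trans (hNt g)) one_pos
        refine piece_small c (a g) (K := KB g) (N := NB g) hd (hKBc g)
          (hKNB g) (hr₁ g) (hC₁ g)
          (fun y hy z hz => hpsi g y hy z hz.1) (hM0 g) (fun z hz => hM g z (hNBN g hz))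
          (fun z hz z' hz' => hL g z (hNBN g hz) z' (hNBN g hz')) (D₀ := D₀ g + 1)
          (s₀ := min (s₀ g) sη) (lt_min (hs₀ g) hsη) ?_ ?_
        · intro z hz s hs hss
          show ms (pb (c (a g)).e.symm (θ + η)) z s ≤ _
          rw [hpb]
          refine (hms z hz.1 s hs (hss.trans (min_le_right _ _)) _).trans ?_
          calc ms (pb (c (a g)).e.symm θ) z s + ENNReal.ofReal (1 * s ^ (d - 2))
              ≤ ENNReal.ofReal (D₀ g * s ^ (d - 2)) + ENNReal.ofReal (1 * s ^ (d - 2)) := by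
                gcongr
                exact hdens g z hz.1 s hs (hss.trans (min_le_left _ _))
            _ = ENNReal.ofReal ((D₀ g + 1) * s ^ (d - 2)) := by
                have := hD₀ g
                rw [← ENNReal.ofReal_add (by positivity) (by positivity)]
                congr 1
                ring
        · have h1 := hKb' g
          rw [div_le_iff₀ (heps g)] at h1
          calc ((2 * M g + |L g|) * C₁ g) ^ 2 * (C₁ g ^ (d - 2) * (D₀ g + 1)) =
                Λ g * (D₀ g + 1) := by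
                rw [hΛ]
                ring
            _ ≤ Kb * epsC d (C' g) (M g) := h1
            _ = _ := mul_comm _ _
    · -- special pieces
      have hc2 : 0 < ct j / 2 := by have := hct j; positivity
      refine ⟨Mt j, 12 * Ct j + 6, ct j / 2, hMt1 j, by have := hCt j; positivity, hc2, hMt j,
        hgoodt' j, ?_⟩
      obtain ⟨sη, hsη, hms⟩ := ms_cont hd (c (b j)).e.open_target (hηc (b j)) (hK' j)
        ((hKN' j).trans (hNt' j)) one_pos
      refine hpiece j (pb (c (b j)).e.symm (θ + η)) (min (st j) sη) (lt_min (hst j) hsη) ?_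
      intro z hz s hs hss
      rw [hpb]
      refine (hms z hz s hs (hss.trans (min_le_right _ _)) _).trans ?_
      calc ms (pb (c (b j)).e.symm θ) z s + ENNReal.ofReal (1 * s ^ (d - 2))
          ≤ ENNReal.ofReal (Dt j * s ^ (d - 2)) + ENNReal.ofReal (1 * s ^ (d - 2)) := by
            gcongr
            exact hdenst j z hz s hs (hss.trans (min_le_left _ _))
        _ = ENNReal.ofReal ((Dt j + 1) * s ^ (d - 2)) := by
            have := hDt j
            rw [← ENNReal.ofReal_add (by positivity) (by positivity)]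
            congr 1
            ring

end Pool.Agent.H819.HN
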