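import Mathlib
import Pool.Agent.H819.LN.Main
import Pool.Agent.H819.HN.Asm

/-!
# Removal of null sets and of totally disconnected sets
-/

set_option autoImplicit false

open Set Filter Topology MeasureTheory Metric
open scoped Manifold ContDiff ENNReal NNReal

noncomputable section

namespace Pool.Agent.H819.HN

open Pool.Agent.Y501.SY
open Pool.Agent.H819
open Pool.Agent.H819.LN
open Pool.Agent.H819.LG (GoodAt InClass TamedIn Represents StronglyTames LocHolder
  smooth_chart inChart_sq)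

variable {d : ℕ} {X : Type} [TopologicalSpace X] [ChartedSpace (E d) X]

/-- the constants at a point near which the special pieces are chosen -/
structure SpData (J : End d X) (θ : Form d X 2) (p : X) (N : Set (E d))
    (M C c₀ κ η D₀ s₀ : ℝ) : Prop where
  Nc : IsCompact N
  Nt : N ⊆ (chartAt (E d) p).target
  M1 : 1 ≤ M
  C0 : 0 ≤ C
  c0 : 0 < c₀
  Mb : ∀ z ∈ N, ‖inChart J p z‖ ≤ M
  good : ∀ᵐ z ∂(volume.restrict N), GoodAt (pb (chartAt (E d) p).symm θ) (inChart J p) C c₀ z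
  η0 : 0 < η
  ηN : closedBall (chartAt (E d) p p) η ⊆ interior N
  κ0 : 0 ≤ κ
  B : ‖corr (inChart J p) (chartAt (E d) p p)‖ * η ≤ 1 / 4
  err : ∀ z y : E d, ‖z - chartAt (E d) p p‖ ≤ η → ‖y‖ ≤ η →
        ‖(ContinuousLinearMap.id ℝ (E d) + corr (inChart J p) (chartAt (E d) p p) y).comp
          (inChart J p z) -
        (inChart J p (z + (y + corr (inChart J p) (chartAt (E d) p p) y
          (z - chartAt (E d) p p)))).comp
          (ContinuousLinearMap.id ℝ (E d) + corr (inChart J p) (chartAt (E d) p p) y)‖ ≤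
        κ * ‖y‖
  s0 : 0 < s₀
  D0 : 0 ≤ D₀
  dens : ∀ z ∈ closedBall (chartAt (E d) p p) η, ∀ s : ℝ, 0 < s → s ≤ s₀ →
        ms (pb (chartAt (E d) p).symm θ) z s ≤ ENNReal.ofReal (D₀ * s ^ (d - 2))
  small : κ ^ 2 * ((D₀ + 1) * 2 ^ (d - 2)) ≤ epsC d (12 * C + 6) M * (c₀ / 2)

theorem special_data [T2Space X] (hd : 2 ≤ d) {J : End d X} {θ : Form d X 2}
    (hT : ∀ x₀, Taming (chartAt (E d) x₀).target (pb (chartAt (E d) x₀).symm θ) (inChart J x₀))
    (p : X) (hJ1 : ContDiffAt ℝ 1 (inChart J p) (chartAt (E d) p p)) :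
    ∃ (N : Set (E d)) (M C c₀ κ η D₀ s₀ : ℝ), SpData J θ p N M C c₀ κ η D₀ s₀ := by
  set q := chartAt (E d) p p with hq
  set A := inChart J p with hA
  have hqt : q ∈ (chartAt (E d) p).target := mem_chart_target (E d) p
  obtain ⟨s, hs, hst⟩ := Metric.nhds_basis_closedBall.mem_iff.1
    ((chartAt (E d) p).open_target.mem_nhds hqt)
  set N := closedBall q s with hN
  have hNc : IsCompact N := isCompact_closedBall q s
  obtain ⟨M', hM'⟩ := hNc.exists_bound_of_continuousOn ((hT p).cont.mono hst)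
  set M := max M' 1 with hM
  obtain ⟨c₀, hc₀, C', hC'⟩ := (hT p).good N hNc hst
  set C := max C' 0 with hC
  have hC0 : 0 ≤ C := le_max_right _ _
  have hM1 : 1 ≤ M := le_max_right _ _
  obtain ⟨s₀, hs₀, D₀, hD₀, hdens⟩ := dens_bound hd (hT p) (K := N) hNc hst
  have heps := epsC_pos (d := d) (C := 12 * C + 6) (by positivity) (by linarith : (0 : ℝ) ≤ M)
  set κ : ℝ := Real.sqrt (epsC d (12 * C + 6) M * (c₀ / 2) / ((D₀ + 1) * 2 ^ (d - 2))) with hκ
  have hκ0 : 0 < κ := Real.sqrt_pos.2 (by positivity)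
  have hκ2 : κ ^ 2 = epsC d (12 * C + 6) M * (c₀ / 2) / ((D₀ + 1) * 2 ^ (d - 2)) :=
    Real.sq_sqrt (by positivity)
  have hJ2 : ∀ᶠ z in 𝓝 q, (A z).comp (A z) = -ContinuousLinearMap.id ℝ (E d) := by
    filter_upwards [(chartAt (E d) p).open_target.mem_nhds hqt] with z hz
    refine ContinuousLinearMap.ext fun u => ?_
    have := (hT p).sq z hz u
    simpa using this
  obtain ⟨η, hη, herr⟩ := special_err hJ1 hJ2 hκ0
  set B := corr A q with hB
  set η' : ℝ := min η (min (s / 2) (1 / (4 * (‖B‖ + 1)))) with hη'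
  have hη'0 : 0 < η' := by positivity
  have h1 : η' ≤ η := min_le_left _ _
  have h2 : η' ≤ s / 2 := (min_le_right _ _).trans (min_le_left _ _)
  have h3 : η' ≤ 1 / (4 * (‖B‖ + 1)) := (min_le_right _ _).trans (min_le_right _ _)
  refine ⟨N, M, C, c₀, κ, η', D₀, s₀, hNc, hst, hM1, hC0, hc₀,
    fun z hz => (hM' z hz).trans (le_max_left _ _), ?_, hη'0, ?_, hκ0.le, ?_,
    fun z y hz hy => herr z y (hz.trans h1) (hy.trans h1), hs₀, hD₀,
    fun z hz => hdens z (closedBall_subset_closedBall (by linarith) hz), ?_⟩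
  · filter_upwards [hC'] with z hz
    exact hz.mono hc₀.le (le_max_left _ _) le_rfl
  · exact (closedBall_subset_ball (by linarith)).trans ball_subset_interior_closedBall
  · rw [le_div_iff₀ (by positivity)] at h3
    nlinarith [norm_nonneg B]
  · rw [hκ2, div_mul_cancel₀ _ (by positivity)]

variable [IsManifold (𝓡 d) ∞ X]

/-- **Removal of null sets and of totally disconnected sets.** -/
theorem tamedIn_of_null [T2Space X] [CompactSpace X] (hd : 2 ≤ d) (hnear : S_Near d)
    {J : End d X}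
    (hJ2 : ∀ (x : X) (v : TangentSpace (𝓡 d) x), J x (J x v) = -v)
    (hJ : ∀ x₀, ContinuousOn (inChart J x₀) (chartAt (E d) x₀).target)
    (hJL : LocHolder J 1)
    {σ₀ θ : Form d X 2} (hσ : IsSmooth σ₀) (hcl : IsClosedForm σ₀) (hrep : Represents σ₀ θ)
    (ht : StronglyTames θ J) {S : Set X} (hS : IsClosed S) (hSd : IsTotallyDisconnected S)
    (hJ1 : ∀ p ∈ S, ContDiffAt ℝ 1 (inChart J p) (chartAt (E d) p p))
    (h0 : ∀ x₀ : X, μH[2] (chartAt (E d) x₀ '' ({p : X | p ∉ S ∧ ¬ ZeroLelong θ p} ∩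
      (chartAt (E d) x₀).source)) = 0) : TamedIn σ₀ J := by
  classical
  have hT := taming_chart hJ2 hJ hJL hσ hcl hrep ht
  -- the constants at the points of `S`
  have hspex : ∀ p : X, ∃ (N : Set (E d)) (M C c₀ κ η D₀ s₀ : ℝ),
      p ∈ S → SpData J θ p N M C c₀ κ η D₀ s₀ := by
    intro p
    by_cases hp : p ∈ S
    · obtain ⟨N, M, C, c₀, κ, η, D₀, s₀, h⟩ := special_data hd hT p (hJ1 p hp)
      exact ⟨N, M, C, c₀, κ, η, D₀, s₀, fun _ => h⟩
    · exact ⟨∅, 0, 0, 0, 0, 0, 0, 0, fun h => absurd h hp⟩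
  choose Ns Ms Cs cs κs ηs Ds ss hSp using hspex
  set W : X → Set X := fun p => (chartAt (E d) p).source ∩
    (chartAt (E d) p) ⁻¹' (ball (chartAt (E d) p p) (ηs p)) with hW
  obtain ⟨m, p, U, P, A, hpS, hUo, hUW, hUd, hAc, hPc, hAP, hPU, hSA⟩ :=
    exists_disc_cover hS hSd (W := W) fun p hp =>
      ⟨(chartAt (E d) p).isOpen_inter_preimage isOpen_ball,
        mem_chart_source (E d) p, mem_ball_self (hSp p hp).η0⟩
  have hPs : ∀ j, P j ⊆ (chartAt (E d) (p j)).source := fun j x hx => (hUW j (hPU j hx)).1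
  -- the open sets in the charts
  have hOo : ∀ j, IsOpen ((chartAt (E d) (p j)).target ∩ (chartAt (E d) (p j)).symm ⁻¹' (U j)) :=
    fun j => (chartAt (E d) (p j)).isOpen_inter_preimage_symm (hUo j)
  have hOball : ∀ j, ∀ z ∈ (chartAt (E d) (p j)).target ∩ (chartAt (E d) (p j)).symm ⁻¹' (U j),
      ‖z - chartAt (E d) (p j) (p j)‖ < ηs (p j) := by
    intro j z hz
    have h1 := (hUW j hz.2).2
    have h2 : chartAt (E d) (p j) ((chartAt (E d) (p j)).symm z) ∈
      ball (chartAt (E d) (p j) (p j)) (ηs (p j)) := h1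
    rw [(chartAt (E d) (p j)).right_inv hz.1, mem_ball, dist_eq_norm] at h2
    exact h2
  have himg : ∀ j, ∀ Q ⊆ P j, chartAt (E d) (p j) '' Q ⊆
      (chartAt (E d) (p j)).target ∩ (chartAt (E d) (p j)).symm ⁻¹' (U j) := by
    rintro j Q hQ _ ⟨x, hx, rfl⟩
    have hxs := hPs j (hQ hx)
    refine ⟨(chartAt (E d) (p j)).map_source hxs, ?_⟩
    show (chartAt (E d) (p j)).symm (chartAt (E d) (p j) x) ∈ U j
    rw [(chartAt (E d) (p j)).left_inv hxs]
    exact hPU j (hQ hx)
  have himgc : ∀ j, ∀ Q ⊆ P j, IsCompact Q → IsCompact (chartAt (E d) (p j) '' Q) :=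
    fun j Q hQ hQc => hQc.image_of_continuousOn
      ((chartAt (E d) (p j)).continuousOn.mono (hQ.trans (hPs j)))
  -- the special shifts
  have hTsm : ∀ j, ContDiff ℝ ∞ (fun z : E d => ContinuousLinearMap.id ℝ (E d) +
      (corr (inChart J (p j)) (chartAt (E d) (p j) (p j))).flip
        (z - chartAt (E d) (p j) (p j))) := by
    intro j
    refine contDiff_const.add ?_
    exact (corr (inChart J (p j)) (chartAt (E d) (p j) (p j))).flip.contDiff.comp
      (contDiff_id.sub contDiff_const)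
  have hflip : ∀ j, ∀ z : E d, ‖z - chartAt (E d) (p j) (p j)‖ ≤ ηs (p j) →
      ‖(corr (inChart J (p j)) (chartAt (E d) (p j) (p j))).flip
        (z - chartAt (E d) (p j) (p j))‖ ≤ 1 / 4 := by
    intro j z hz
    refine (ContinuousLinearMap.le_opNorm _ _).trans ?_
    rw [ContinuousLinearMap.opNorm_flip]
    have h1 : 0 ≤ ‖corr (inChart J (p j)) (chartAt (E d) (p j) (p j))‖ :=
      ContinuousLinearMap.opNorm_nonneg _
    exact (mul_le_mul_of_nonneg_left hz h1).trans (hSp (p j) (hpS j)).B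
  have hex1 := fun j => exists_sh (p j) (himgc j (P j) Subset.rfl (hPc j)) (hOo j)
    (himg j (P j) Subset.rfl) inter_subset_left (hTsm j) (fun z hz => by
      refine (norm_add_le _ _).trans ?_
      have h1 := hflip j z (hOball j z hz).le
      have h2 := ContinuousLinearMap.norm_id_le (𝕜 := ℝ) (E := E d)
      linarith)
  choose c₁ hc₁x hc₁ hc₁t using hex1
  choose O₁ hO₁o hO₁P hO₁U hO₁V using hc₁
  obtain rfl : p = fun j => (c₁ j).x₀ := funext fun j => (hc₁x j).symm
  -- the ordinary shifts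
  set O : Set X := (⋃ j, A j)ᶜ with hO
  have hOopen : IsOpen O := (isClosed_iUnion_of_finite fun j => (hAc j).isClosed).isOpen_compl
  set Y : Set X := (⋃ j, interior (P j))ᶜ with hY
  have hYc : IsCompact Y := (isOpen_iUnion fun j => isOpen_interior).isClosed_compl.isCompact
  have hYO : Y ⊆ O := by
    intro x hx hxA
    obtain ⟨j, hj⟩ := mem_iUnion.1 hxA
    exact hx (mem_iUnion.2 ⟨j, hAP j hj⟩)
  obtain ⟨n, x, t, ht0, htO, hYcov⟩ := exists_ord_cover (d := d) hYc hOopen hYO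
  have hex0 := fun i => exists_sh (d := d) (x i)
    (isCompact_closedBall (chartAt (E d) (x i) (x i)) (t i))
    (isOpen_ball (x := chartAt (E d) (x i) (x i)) (ε := 3 * t i))
    (closedBall_subset_ball (by have := ht0 i; linarith))
    ((ball_subset_closedBall.trans (htO i)).trans inter_subset_left)
    (T := fun _ => ContinuousLinearMap.id ℝ (E d)) contDiff_const (fun z _ => by
      have h2 := ContinuousLinearMap.norm_id_le (𝕜 := ℝ) (E := E d)
      linarith)
  choose c₀ hc₀x hc₀ hc₀t using hex0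
  choose O₀ hO₀o hO₀K hO₀b hO₀V using hc₀
  obtain rfl : x = fun i => (c₀ i).x₀ := funext fun i => (hc₀x i).symm
  -- the family
  set c : Fin n ⊕ Fin m → Sh d X := Sum.elim c₀ c₁ with hc
  obtain ⟨R, hR0, hR⟩ := exists_pos_le' (fun i => (c i).R) fun i => (c i).pos
  have hAPs : ∀ j, A j ⊆ P j := fun j => (hAP j).trans interior_subset
  have hshellc : ∀ j, IsCompact (P j \ interior (A j)) := fun j => (hPc j).diff isOpen_interior
  have hnotS : ∀ q ∈ O, q ∉ S := by
    intro q hq hqS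
    obtain ⟨j, hj⟩ := mem_iUnion.1 (hSA hqS)
    exact hq (mem_iUnion.2 ⟨j, interior_subset hj⟩)
  have hshellS : ∀ j, ∀ q ∈ P j \ interior (A j), q ∉ S := by
    intro j q hq hqS
    obtain ⟨k, hk⟩ := mem_iUnion.1 (hSA hqS)
    by_cases hjk : j = k
    · subst hjk
      exact hq.2 hk
    · exact Set.disjoint_left.1 (hUd j k hjk) (hPU j hq.1) (hPU k (hAPs k (interior_subset hk)))
  have hONs : ∀ j, (chartAt (E d) (c₁ j).x₀).target ∩ (chartAt (E d) (c₁ j).x₀).symm ⁻¹' (U j) ⊆
      interior (Ns (c₁ j).x₀) := by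
    intro j z hz
    refine (hSp _ (hpS j)).ηN ?_
    rw [mem_closedBall, dist_eq_norm]
    exact (hOball j z hz).le
  refine assemble_null hd hnear hJ2 hJ hJL hσ hcl hrep ht c hR0 hR (γ := Fin n ⊕ Fin m)
    (τ := Fin m) id
    (Sum.elim (fun i => closedBall (chartAt (E d) (c₀ i).x₀ (c₀ i).x₀) (t i))
      (fun j => chartAt (E d) (c₁ j).x₀ '' (P j \ interior (A j))))
    (Sum.elim (fun i => closedBall (chartAt (E d) (c₀ i).x₀ (c₀ i).x₀) (3 * t i))
      (fun j => Ns (c₁ j).x₀)) ?_ ?_ ?_ ?_ ?_ Sum.inr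
    (fun j => chartAt (E d) (c₁ j).x₀ '' A j) (fun j => Ns (c₁ j).x₀) ?_ ?_ ?_ ?_ ?_ ?_ ?_
  · rintro (i | j)
    · exact isCompact_closedBall _ _
    · exact himgc j _ sdiff_subset (hshellc j)
  · rintro (i | j)
    · exact isCompact_closedBall _ _
    · exact (hSp _ (hpS j)).Nc
  · rintro (i | j)
    · refine (closedBall_subset_ball ?_).trans ball_subset_interior_closedBall
      have := ht0 i
      linarith
    · exact (himg j _ sdiff_subset).trans (hONs j)
  · rintro (i | j)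
    · exact (htO i).trans inter_subset_left
    · exact (hSp _ (hpS j)).Nt
  · rintro (i | j) z hz
    · have h1 : (c (Sum.inl i)).V z = ContinuousLinearMap.id ℝ (E d) := hO₀V i z (hO₀K i hz)
      show ‖(c (Sum.inl i)).V z - _‖ ≤ _
      rw [h1, sub_self, norm_zero]
      norm_num
    · have h1 : (c (Sum.inr j)).V z = ContinuousLinearMap.id ℝ (E d) +
          (corr (inChart J (c₁ j).x₀) (chartAt (E d) (c₁ j).x₀ (c₁ j).x₀)).flip
            (z - chartAt (E d) (c₁ j).x₀ (c₁ j).x₀) :=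
        hO₁V j z (hO₁P j (image_mono sdiff_subset hz))
      show ‖(c (Sum.inr j)).V z - _‖ ≤ _
      rw [h1, add_sub_cancel_left]
      exact hflip j z (hOball j z (himg j _ sdiff_subset hz)).le
  · exact fun j => himgc j (A j) (hAPs j) (hAc j)
  · exact fun j => (hSp _ (hpS j)).Nc
  · exact fun j => (himg j _ (hAPs j)).trans ((hONs j).trans interior_subset)
  · exact fun j => (hSp _ (hpS j)).Nt
  · intro j
    have H := hSp _ (hpS j)
    refine ⟨Ms (c₁ j).x₀, Cs (c₁ j).x₀, cs (c₁ j).x₀, Ds (c₁ j).x₀, ss (c₁ j).x₀, H.M1, H.C0,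
      H.c0, H.D0, H.s0, H.Mb, H.good, ?_, fun θ' s₁ hs₁ hθ' => ?_⟩
    · intro z hz
      refine H.dens z ?_
      rw [mem_closedBall, dist_eq_norm]
      exact (hOball j z (himg j (A j) (hAPs j) hz)).le
    · refine piece_special hd c hR0 (Sum.inr j) (K := chartAt (E d) (c₁ j).x₀ '' A j)
        (N := Ns (c₁ j).x₀) (O := O₁ j) (himgc j (A j) (hAPs j) (hAc j)) (hO₁o j)
        ((image_mono (hAPs j)).trans (hO₁P j))
        ((hO₁U j).trans ((hONs j).trans interior_subset)) H.Nt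
        (q := chartAt (E d) (c₁ j).x₀ (c₁ j).x₀) (η := ηs (c₁ j).x₀) (κ := κs (c₁ j).x₀) H.η0
        (hO₁V j) ?_ H.B H.err ?_ H.κ0 hs₁ (D₀ := Ds (c₁ j).x₀ + 1) hθ' H.small
      · intro z hz
        exact (hOball j z (himg j (A j) (hAPs j) hz)).le
      · rintro (i | k) hk z hz hm
        · -- ordinary shifts
          obtain ⟨w, hw, hwz⟩ := hm
          have h1 : (c₀ i).e.symm w ∈ O := (htO i (ball_subset_closedBall (hc₀t i hw))).2
          have h2 : (chartAt (E d) (c₁ j).x₀).symm z ∈ A j := by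
            obtain ⟨q, hq, hqz⟩ := hz
            rw [← hqz, (chartAt (E d) (c₁ j).x₀).left_inv (hPs j (hAPs j hq))]
            exact hq
          apply h1
          have h3 : (c₀ i).e.symm w = (chartAt (E d) (c₁ j).x₀).symm z := hwz
          rw [h3]
          exact mem_iUnion.2 ⟨j, h2⟩
        · obtain ⟨w, hw, hwz⟩ := hm
          have hkj : k ≠ j := fun h => hk (by rw [h])
          have h1 : (c₁ k).e.symm w ∈ U k := (hc₁t k hw).2
          have h2 : (chartAt (E d) (c₁ j).x₀).symm z ∈ U j := (himg j (A j) (hAPs j) hz).2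
          have h3 : (c₁ k).e.symm w = (chartAt (E d) (c₁ j).x₀).symm z := hwz
          rw [h3] at h1
          exact Set.disjoint_left.1 (hUd k j hkj) h1 h2
  · intro q
    by_cases hq : q ∈ ⋃ j, interior (P j)
    · obtain ⟨j, hj⟩ := mem_iUnion.1 hq
      have hqP : q ∈ P j := interior_subset hj
      by_cases hqA : q ∈ A j
      · exact Or.inr ⟨j, chartAt (E d) (c₁ j).x₀ q, ⟨q, hqA, rfl⟩,
          (chartAt (E d) (c₁ j).x₀).left_inv (hPs j hqP)⟩
      · exact Or.inl ⟨Sum.inr j, chartAt (E d) (c₁ j).x₀ q,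
          ⟨q, ⟨hqP, fun h => hqA (interior_subset h)⟩, rfl⟩,
          (chartAt (E d) (c₁ j).x₀).left_inv (hPs j hqP)⟩
    · obtain ⟨i, z, hz, hzq⟩ := hYcov q hq
      exact Or.inl ⟨Sum.inl i, z, hz, hzq⟩
  · intro x₀
    refine measure_mono_null (image_mono (inter_subset_inter_left _ ?_)) (h0 x₀)
    rintro q ⟨⟨g, z, hz, hzq⟩, hq⟩
    refine ⟨?_, hq⟩
    rcases g with (i | j)
    · refine hnotS q ?_
      rw [← hzq]
      exact (htO i (closedBall_subset_closedBall (by have := ht0 i; linarith) hz)).2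
    · obtain ⟨q', hq', hqz⟩ := hz
      have h1 : q = q' := by
        rw [← hzq, ← hqz]
        exact (chartAt (E d) (c₁ j).x₀).left_inv (hPs j hq'.1)
      rw [h1]
      exact hshellS j q' hq'

end Pool.Agent.H819.HN
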