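import Mathlib

/-!
# Economical covers of sets of zero two-dimensional Hausdorff measure
-/

set_option autoImplicit false

open Set Filter Topology MeasureTheory Metric
open scoped ENNReal NNReal

noncomputable section

namespace Pool.Agent.H819.HN

/-- the total area -/
def Mt {X : Type*} (T : Finset (X × ℕ)) : ℝ := ∑ p ∈ T, ((1 / 2 : ℝ) ^ p.2) ^ 2

lemma sum_image_le' {ι κ : Type*} [DecidableEq κ] (F : Finset ι) (f : ι → κ) (g : κ → ℝ)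
    (hg : ∀ x, 0 ≤ g x) : ∑ p ∈ F.image f, g p ≤ ∑ i ∈ F, g (f i) := by
  classical
  induction F using Finset.induction_on with
  | empty => simp
  | insert a s ha ih =>
    rw [Finset.image_insert, Finset.sum_insert ha]
    by_cases h : f a ∈ s.image f
    · rw [Finset.insert_eq_of_mem h]
      linarith [hg (f a)]
    · rw [Finset.sum_insert h]
      linarith

/-- Step 1: a finite cover by dyadic balls with small total area -/
lemma step1 {X : Type*} [MetricSpace X] [MeasurableSpace X] [BorelSpace X] {S : Set X}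
    (hS : IsCompact S) (h0 : μH[2] S = 0) (k₀ : ℕ) {η : ℝ} (hη : 0 < η) :
    ∃ T : Finset (X × ℕ), (∀ p ∈ T, p.1 ∈ S ∧ k₀ ≤ p.2) ∧
      (∀ w ∈ S, ∃ p ∈ T, dist w p.1 < (1 / 2 : ℝ) ^ p.2) ∧ Mt T ≤ η := by
  classical
  obtain ⟨η1, hη1, hη1a, hη1b⟩ : ∃ η1 : ℝ, 0 < η1 ∧ 8 * η1 ≤ η ∧
      8 * η1 ≤ ((1 / 2 : ℝ) ^ k₀) ^ 2 :=
    ⟨min (η / 8) (((1 / 2 : ℝ) ^ k₀) ^ 2 / 8), by positivity, by
      linarith [min_le_left (η / 8) (((1 / 2 : ℝ) ^ k₀) ^ 2 / 8)], by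
      linarith [min_le_right (η / 8) (((1 / 2 : ℝ) ^ k₀) ^ 2 / 8)]⟩
  obtain ⟨t, ht, hsum⟩ : ∃ t : ℕ → Set X, S ⊆ ⋃ n, t n ∧
      ∑' n, ⨆ _ : (t n).Nonempty, ediam (t n) ^ (2 : ℝ) < ENNReal.ofReal η1 := by
    rw [Measure.hausdorffMeasure_apply] at h0
    have h2 : ⨅ (t : ℕ → Set X) (_ : S ⊆ ⋃ n, t n) (_ : ∀ n, ediam (t n) ≤ 1),
          ∑' n, ⨆ _ : (t n).Nonempty, ediam (t n) ^ (2 : ℝ) < ENNReal.ofReal η1 := by
      refine lt_of_le_of_lt ?_ (ENNReal.ofReal_pos.2 hη1)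
      rw [← h0]
      exact le_iSup₂ (f := fun (r : ℝ≥0∞) (_ : 0 < r) =>
        ⨅ (t : ℕ → Set X) (_ : S ⊆ ⋃ n, t n) (_ : ∀ n, ediam (t n) ≤ r),
          ∑' n, ⨆ _ : (t n).Nonempty, ediam (t n) ^ (2 : ℝ)) 1 one_pos
    simp only [iInf_lt_iff] at h2
    obtain ⟨t, h3, _, h4⟩ := h2
    exact ⟨t, h3, h4⟩
  set x : ℕ → ℝ≥0∞ := fun n => ⨆ _ : (t n).Nonempty, ediam (t n) ^ (2 : ℝ) with hx
  have hxfin : ∀ n, x n ≠ ∞ := fun n =>
    ne_top_of_le_ne_top (hsum.trans ENNReal.ofReal_lt_top).ne (ENNReal.le_tsum n)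
  let J := {n : ℕ // (t n ∩ S).Nonempty}
  obtain ⟨e, he, hesum⟩ := ENNReal.exists_pos_sum_of_countable (ENNReal.ofReal_pos.2 hη1).ne' J
  choose y hy using fun i : J => i.2
  let q : J → ℝ := fun i => (x i.1).toReal + e i
  have hq : ∀ i, 0 < q i := fun i =>
    add_pos_of_nonneg_of_pos ENNReal.toReal_nonneg (NNReal.coe_pos.2 (he i))
  have hqsum : ∀ F : Finset J, ∑ i ∈ F, q i ≤ 2 * η1 := by
    intro F
    have h1 : ENNReal.ofReal (∑ i ∈ F, q i) ≤ ENNReal.ofReal (2 * η1) := by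
      rw [ENNReal.ofReal_sum_of_nonneg (fun i _ => (hq i).le), two_mul,
        ENNReal.ofReal_add hη1.le hη1.le]
      have h2 : ∀ i ∈ F, ENNReal.ofReal (q i) = x i.1 + e i := fun i _ => by
        simp only [q]
        rw [ENNReal.ofReal_add ENNReal.toReal_nonneg (NNReal.coe_nonneg _),
          ENNReal.ofReal_toReal (hxfin _), ENNReal.ofReal_coe_nnreal]
      rw [Finset.sum_congr rfl h2, Finset.sum_add_distrib]
      have h3 : ∑ i ∈ F, x i.1 ≤ ENNReal.ofReal η1 :=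
        calc ∑ i ∈ F, x i.1 ≤ ∑' i : J, x i.1 := ENNReal.sum_le_tsum _
          _ ≤ ∑' n, x n := ENNReal.tsum_comp_le_tsum_of_injective Subtype.val_injective x
          _ ≤ _ := hsum.le
      have h4 : ∑ i ∈ F, (e i : ℝ≥0∞) ≤ ENNReal.ofReal η1 := (ENNReal.sum_le_tsum _).trans hesum.le
      exact add_le_add h3 h4
    exact (ENNReal.ofReal_le_ofReal_iff (by positivity)).1 h1
  have hq1 : ∀ i, q i ≤ 2 * η1 := fun i => by
    have := hqsum {i}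
    rwa [Finset.sum_singleton] at this
  have hk : ∀ i : J, ∃ k : ℕ, Real.sqrt (q i) ≤ (1 / 2 : ℝ) ^ k ∧
      ((1 / 2 : ℝ) ^ k) ^ 2 ≤ 4 * q i ∧ k₀ ≤ k := by
    intro i
    have hb : ((1 / 2 : ℝ) ^ k₀) ^ 2 ≤ 1 := by
      rw [← pow_mul]
      exact pow_le_one₀ (by norm_num) (by norm_num)
    have hs : Real.sqrt (q i) ≤ 1 := by
      rw [Real.sqrt_le_one]
      linarith [hq1 i]
    obtain ⟨k, hk1, hk2⟩ := exists_nat_pow_near_of_lt_one (Real.sqrt_pos.2 (hq i)) hs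
      (by norm_num : (0 : ℝ) < 1 / 2) (by norm_num : (1 / 2 : ℝ) < 1)
    have h4 : ((1 / 2 : ℝ) ^ k) ^ 2 < 4 * q i := by
      rw [pow_succ] at hk1
      have h5 := Real.sq_sqrt (hq i).le
      have h6 : 0 < (1 / 2 : ℝ) ^ k := by positivity
      nlinarith [Real.sqrt_nonneg (q i)]
    refine ⟨k, hk2, h4.le, ?_⟩
    by_contra hlt
    rw [not_le] at hlt
    have h7 : (1 / 2 : ℝ) ^ k₀ ≤ (1 / 2) ^ k :=
      pow_le_pow_of_le_one (by norm_num) (by norm_num) hlt.le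
    have h8 : ((1 / 2 : ℝ) ^ k₀) ^ 2 ≤ ((1 / 2) ^ k) ^ 2 := pow_le_pow_left₀ (by positivity) h7 2
    linarith [hq1 i]
  choose k hk1 hk2 hk3 using hk
  have hcov : S ⊆ ⋃ i : J, ball (y i) ((1 / 2 : ℝ) ^ (k i)) := by
    intro w hw
    obtain ⟨n, hn⟩ := mem_iUnion.1 (ht hw)
    let i : J := ⟨n, ⟨w, hn, hw⟩⟩
    refine mem_iUnion.2 ⟨i, ?_⟩
    rw [mem_ball]
    refine lt_of_lt_of_le ?_ (hk1 i)
    apply Real.lt_sqrt_of_sq_lt
    have h5 : edist w (y i) ^ (2 : ℝ) ≤ x n := by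
      refine le_trans ?_ (le_iSup (fun _ : (t n).Nonempty => ediam (t n) ^ (2 : ℝ)) ⟨w, hn⟩)
      exact ENNReal.rpow_le_rpow (edist_le_ediam_of_mem hn (hy i).1) (by norm_num)
    have h6 : dist w (y i) ^ 2 ≤ (x n).toReal := by
      rw [dist_edist, ← ENNReal.toReal_pow]
      apply ENNReal.toReal_mono (hxfin n)
      rw [← ENNReal.rpow_natCast]
      exact_mod_cast h5
    have h7 : 0 < (e i : ℝ) := NNReal.coe_pos.2 (he i)
    have h8 : q i = (x n).toReal + e i := rfl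
    rw [h8]
    linarith
  obtain ⟨F, hF⟩ := hS.elim_finite_subcover _ (fun i => isOpen_ball) hcov
  refine ⟨F.image fun i => (y i, k i), ?_, ?_, ?_⟩
  · intro p hp
    obtain ⟨i, _, rfl⟩ := Finset.mem_image.1 hp
    exact ⟨(hy i).2, hk3 i⟩
  · intro w hw
    obtain ⟨i, hi, hwi⟩ := mem_iUnion₂.1 (hF hw)
    exact ⟨(y i, k i), Finset.mem_image_of_mem _ hi, hwi⟩
  · unfold Mt
    calc ∑ p ∈ F.image (fun i => (y i, k i)), ((1 / 2 : ℝ) ^ p.2) ^ 2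
        ≤ ∑ i ∈ F, ((1 / 2 : ℝ) ^ (k i)) ^ 2 :=
          sum_image_le' F (fun i => (y i, k i)) (fun p => ((1 / 2 : ℝ) ^ p.2) ^ 2)
            (fun p => by positivity)
      _ ≤ ∑ i ∈ F, 4 * q i := Finset.sum_le_sum fun i _ => hk2 i
      _ = 4 * ∑ i ∈ F, q i := (Finset.mul_sum _ _ _).symm
      _ ≤ 4 * (2 * η1) := by gcongr; exact hqsum F
      _ ≤ η := by linarith

/-- Step 2: a minimal cover -/
lemma step2 {X : Type*} [MetricSpace X] {S : Set X} {T0 : Finset (X × ℕ)} {k₀ : ℕ}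
    (h1 : ∀ p ∈ T0, p.1 ∈ S ∧ k₀ ≤ p.2)
    (h2 : ∀ w ∈ S, ∃ p ∈ T0, dist w p.1 < (1 / 2 : ℝ) ^ p.2) :
    ∃ T : Finset (X × ℕ), (∀ p ∈ T, p.1 ∈ S ∧ k₀ ≤ p.2) ∧
      (∀ w ∈ S, ∃ p ∈ T, dist w p.1 < (1 / 2 : ℝ) ^ p.2) ∧ Mt T ≤ Mt T0 ∧
      ∀ (z : X) (ρ : ℝ), 0 < ρ → 4 * ρ ≤ (1 / 2 : ℝ) ^ k₀ →
        Mt (T.filter fun p => dist z p.1 + (1 / 2 : ℝ) ^ p.2 ≤ ρ) ≤ 16 * ρ ^ 2 := by
  classical
  let Y := T0.image Prod.fst
  let N := T0.sup Prod.snd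
  let P : Finset (X × ℕ) := Y ×ˢ Finset.Icc k₀ N
  let Fam := P.powerset.filter fun T => ∀ w ∈ S, ∃ p ∈ T, dist w p.1 < (1 / 2 : ℝ) ^ p.2
  have hT0 : T0 ∈ Fam := by
    refine Finset.mem_filter.2 ⟨Finset.mem_powerset.2 fun p hp => ?_, h2⟩
    exact Finset.mem_product.2 ⟨Finset.mem_image_of_mem _ hp,
      Finset.mem_Icc.2 ⟨(h1 p hp).2, Finset.le_sup (f := Prod.snd) hp⟩⟩
  obtain ⟨T, hT, hmin⟩ := Finset.exists_min_image Fam Mt ⟨T0, hT0⟩
  have hT' := Finset.mem_filter.1 hT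
  have hTP := Finset.mem_powerset.1 hT'.1
  refine ⟨T, ?_, hT'.2, hmin T0 hT0, ?_⟩
  · intro p hp
    have h3 := Finset.mem_product.1 (hTP hp)
    obtain ⟨q, hq, hqp⟩ := Finset.mem_image.1 h3.1
    exact ⟨hqp ▸ (h1 q hq).1, (Finset.mem_Icc.1 h3.2).1⟩
  · intro z ρ hρ hρ4
    set I := T.filter fun p => dist z p.1 + (1 / 2 : ℝ) ^ p.2 ≤ ρ with hI
    rcases I.eq_empty_or_nonempty with he | ⟨p0, hp0⟩
    · rw [he]
      simp only [Mt, Finset.sum_empty]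
      positivity
    have hp0' := Finset.mem_filter.1 hp0
    have hp0P := Finset.mem_product.1 (hTP hp0'.1)
    have hk0 : (1 / 2 : ℝ) ^ k₀ ≤ 1 := pow_le_one₀ (by norm_num) (by norm_num)
    obtain ⟨k2, hk1, hk2⟩ := exists_nat_pow_near_of_lt_one (x := 2 * ρ) (y := (1 / 2 : ℝ))
      (by linarith) (by linarith) (by norm_num) (by norm_num)
    have hk3 : k₀ ≤ k2 := by
      by_contra hlt
      rw [not_le] at hlt
      have h20 : k2 + 1 ≤ k₀ := hlt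
      have h21 : (1 / 2 : ℝ) ^ k₀ ≤ (1 / 2 : ℝ) ^ (k2 + 1) :=
        pow_le_pow_of_le_one (by norm_num : (0 : ℝ) ≤ 1 / 2) (by norm_num) h20
      linarith
    have hp0d : dist z p0.1 + (1 / 2 : ℝ) ^ p0.2 ≤ ρ := hp0'.2
    have hk4 : k2 ≤ p0.2 := by
      by_contra hlt
      rw [not_le] at hlt
      have := pow_le_pow_of_le_one (by norm_num : (0 : ℝ) ≤ 1 / 2) (by norm_num) hlt.le
      linarith [dist_nonneg (x := z) (y := p0.1)]
    have hT'mem : insert (p0.1, k2) (T \ I) ∈ Fam := by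
      refine Finset.mem_filter.2 ⟨Finset.mem_powerset.2 ?_, ?_⟩
      · exact Finset.insert_subset (Finset.mem_product.2 ⟨hp0P.1,
          Finset.mem_Icc.2 ⟨hk3, hk4.trans (Finset.mem_Icc.1 hp0P.2).2⟩⟩)
          (Finset.sdiff_subset.trans hTP)
      · intro w hw
        obtain ⟨p, hp, hwp⟩ := hT'.2 w hw
        by_cases hpI : p ∈ I
        · refine ⟨(p0.1, k2), Finset.mem_insert_self _ _, ?_⟩
          have h5 : dist z p.1 + (1 / 2 : ℝ) ^ p.2 ≤ ρ := (Finset.mem_filter.1 hpI).2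
          have h6 := dist_triangle4 w p.1 z p0.1
          have h7 : 0 < (1 / 2 : ℝ) ^ p0.2 := by positivity
          rw [dist_comm p.1 z] at h6
          show dist w p0.1 < (1 / 2 : ℝ) ^ k2
          linarith
        · exact ⟨p, Finset.mem_insert_of_mem (Finset.mem_sdiff.2 ⟨hp, hpI⟩), hwp⟩
    have h8 := hmin _ hT'mem
    have h9 : Mt (insert (p0.1, k2) (T \ I)) ≤ ((1 / 2 : ℝ) ^ k2) ^ 2 + Mt (T \ I) := by
      by_cases h : (p0.1, k2) ∈ T \ I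
      · rw [Finset.insert_eq_of_mem h]
        have : 0 ≤ ((1 / 2 : ℝ) ^ k2) ^ 2 := by positivity
        linarith
      · unfold Mt
        rw [Finset.sum_insert h]
    have h10 : Mt (T \ I) + Mt I = Mt T := Finset.sum_sdiff (Finset.filter_subset _ _)
    have h11 : (1 / 2 : ℝ) ^ k2 < 4 * ρ := by
      rw [pow_succ] at hk1
      linarith
    have h12 : ((1 / 2 : ℝ) ^ k2) ^ 2 ≤ (4 * ρ) ^ 2 :=
      pow_le_pow_left₀ (by positivity) h11.le 2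
    nlinarith

/-- Step 3: the potential -/
lemma step3 {X : Type*} [MetricSpace X] {T : Finset (X × ℕ)} {k₀ : ℕ} {τ : ℝ} (hτ : 0 < τ)
    (hτ4 : 4 * τ ≤ (1 / 2 : ℝ) ^ k₀)
    (h : ∀ (z : X) (ρ : ℝ), 0 < ρ → 4 * ρ ≤ (1 / 2 : ℝ) ^ k₀ →
        Mt (T.filter fun p => dist z p.1 + (1 / 2 : ℝ) ^ p.2 ≤ ρ) ≤ 16 * ρ ^ 2) (z : X) :
    ∑ p ∈ T, ((1 / 2 : ℝ) ^ p.2) ^ 2 / (dist z p.1 + (1 / 2 : ℝ) ^ p.2) ≤ Mt T / τ + 64 * τ := by
  classical
  set a : X × ℕ → ℝ := fun p => dist z p.1 + (1 / 2 : ℝ) ^ p.2 with ha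
  have hap : ∀ p, 0 < a p := fun p => add_pos_of_nonneg_of_pos dist_nonneg (by positivity)
  set g : X × ℕ → ℝ := fun p => ((1 / 2 : ℝ) ^ p.2) ^ 2 / a p with hg
  have hgt : ∀ (U : Finset (X × ℕ)) (c : ℝ), 0 < c → (∀ p ∈ U, c < a p) →
      ∑ p ∈ U, g p ≤ Mt U / c := by
    intro U c hc hU
    unfold Mt
    rw [Finset.sum_div]
    refine Finset.sum_le_sum fun p hp => ?_
    simp only [hg]
    exact div_le_div_of_nonneg_left (by positivity) hc (hU p hp).le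
  have hmono : ∀ U V : Finset (X × ℕ), U ⊆ V → Mt U ≤ Mt V := fun U V hUV =>
    Finset.sum_le_sum_of_subset_of_nonneg hUV fun p _ _ => by positivity
  set G : ℕ → ℝ := fun j => ∑ p ∈ T.filter (fun p => a p ≤ τ * (1 / 2) ^ j), g p with hG
  have hstep : ∀ j, G j ≤ G (j + 1) + 32 * τ * (1 / 2) ^ j := by
    intro j
    have hj : 0 < (1 / 2 : ℝ) ^ j := by positivity
    have hj1 : (1 / 2 : ℝ) ^ j ≤ 1 := pow_le_one₀ (by norm_num) (by norm_num)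
    have hsub : T.filter (fun p => a p ≤ τ * (1 / 2) ^ (j + 1)) ⊆
        T.filter (fun p => a p ≤ τ * (1 / 2) ^ j) := by
      intro p hp
      rw [Finset.mem_filter] at hp ⊢
      refine ⟨hp.1, hp.2.trans ?_⟩
      rw [pow_succ]
      nlinarith
    have h1 := Finset.sum_sdiff (f := g) hsub
    have h2 : ∑ p ∈ T.filter (fun p => a p ≤ τ * (1 / 2) ^ j) \
        T.filter (fun p => a p ≤ τ * (1 / 2) ^ (j + 1)), g p ≤ 32 * τ * (1 / 2) ^ j := by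
      refine (hgt _ (τ * (1 / 2) ^ (j + 1)) (by positivity) ?_).trans ?_
      · intro p hp
        rw [Finset.mem_sdiff, Finset.mem_filter, Finset.mem_filter] at hp
        by_contra hlt
        rw [not_lt] at hlt
        exact hp.2 ⟨hp.1.1, hlt⟩
      · rw [div_le_iff₀ (by positivity)]
        have h3 : Mt (T.filter (fun p => a p ≤ τ * (1 / 2) ^ j)) ≤ 16 * (τ * (1 / 2) ^ j) ^ 2 := by
          refine h z (τ * (1 / 2) ^ j) (by positivity) ?_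
          nlinarith
        refine (hmono _ _ Finset.sdiff_subset).trans (h3.trans (le_of_eq ?_))
        rw [pow_succ]
        ring
    simp only [hG]
    linarith
  have hind : ∀ j, G 0 ≤ G j + 64 * τ * (1 - (1 / 2) ^ j) := by
    intro j
    induction j with
    | zero => simp
    | succ j ih =>
      have := hstep j
      rw [pow_succ]
      linarith
  have hN : G (T.sup Prod.snd) = 0 := by
    simp only [hG]
    rw [Finset.filter_false_of_mem, Finset.sum_empty]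
    intro p hp
    rw [not_le]
    have h1 : (1 / 2 : ℝ) ^ (T.sup Prod.snd) ≤ (1 / 2) ^ p.2 :=
      pow_le_pow_of_le_one (by norm_num) (by norm_num) (Finset.le_sup (f := Prod.snd) hp)
    have h2 : 0 < (1 / 2 : ℝ) ^ (T.sup Prod.snd) := by positivity
    have h3 : (1 / 2 : ℝ) ^ k₀ ≤ 1 := pow_le_one₀ (by norm_num) (by norm_num)
    have h4 : τ * (1 / 2 : ℝ) ^ (T.sup Prod.snd) < (1 / 2 : ℝ) ^ (T.sup Prod.snd) := by
      nlinarith
    have h5 : (0 : ℝ) ≤ dist z p.1 := dist_nonneg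
    simp only [ha]
    linarith
  have hG0 : G 0 ≤ 64 * τ := by
    have h1 := hind (T.sup Prod.snd)
    rw [hN] at h1
    have h2 : 0 < (1 / 2 : ℝ) ^ (T.sup Prod.snd) := by positivity
    nlinarith
  have hsplit := Finset.sum_filter_add_sum_filter_not T (fun p => a p ≤ τ * (1 / 2) ^ 0) g
  have hbig : ∑ p ∈ T.filter (fun p => ¬ a p ≤ τ * (1 / 2) ^ 0), g p ≤ Mt T / τ := by
    refine (hgt _ τ hτ ?_).trans ?_
    · intro p hp
      rw [Finset.mem_filter, pow_zero, mul_one, not_le] at hp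
      exact hp.2
    · exact div_le_div_of_nonneg_right (hmono _ _ (Finset.filter_subset _ _)) hτ.le
  have : ∑ p ∈ T, g p ≤ Mt T / τ + 64 * τ := by
    rw [← hsplit]
    simp only [hG] at hG0
    linarith
  exact this


/-- **Economical covers.**  A compact set `S` with `μH[2] S = 0` has finite covers by balls
`ball (x i) (r i)` with arbitrarily small radii, with `∑ r_i² / (|z - x_i| + r_i)` uniformly small
for ALL `z`.

Proof.  Fix `k₀ : ℕ` with `2⁻ᵏ⁰ ≤ δ`, put `τ = min (2⁻ᵏ⁰ / 8) (ε / 200)` and `η = τ * ε / 4`.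

Step 1 (a cover with small total area).  From `μH[2] S = 0` (`Measure.hausdorffMeasure_apply`)
there are sets `t n` with `S ⊆ ⋃ t n`, small diameters and `∑' diam (t n) ^ 2` as small as we like.
Drop the `t n` which do not meet `S`; for the others choose `y n ∈ t n ∩ S` and `k n ≥ k₀` with
`diam (t n) + σ n < 2 ^ (-k n) ≤ 2 (diam (t n) + σ n)`, where `σ n > 0` are tiny and summable
(`∑ (σ n)²` small).  Then `t n ⊆ ball (y n) (2 ^ (-k n))` and `∑ (2 ^ (-k n))² ≤ η`.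
By compactness finitely many `n ∈ F` suffice.  Let `Y = {y n | n ∈ F}` (a finite subset of `S`) and
`N = max (k n)`.

Step 2 (minimal cover).  Consider the finite set of all finite subsets `T` of `Y × {k₀, ..., N}`
such that `S ⊆ ⋃_{(y, k) ∈ T} ball y (2⁻ᵏ)`.  It is not empty by Step 1, choose `T` which minimises
`M(T) = ∑_{(y, k) ∈ T} (2⁻ᵏ)²` (`Finset.exists_min_image`); so `M(T) ≤ η`.
Claim: for all `z` and all `ρ > 0` with `4 ρ ≤ 2⁻ᵏ⁰`: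
`∑_{(y,k) ∈ T, |z - y| + 2⁻ᵏ ≤ ρ} (2⁻ᵏ)² ≤ 16 ρ²`.
Indeed let `I` be the set of these pairs; if it is empty there is nothing to do. Otherwise let
`(y₀, k') ∈ I`; for `(y, k) ∈ I` one has `ball y (2⁻ᵏ) ⊆ ball y₀ (2 ρ)` (or closedBall; note
`|y - y₀| + 2⁻ᵏ ≤ |y - z| + 2⁻ᵏ + |z - y₀| ≤ 2 ρ`).  Take the integer `k''` with
`2 ρ ≤ 2 ^ (-k'') ≤ 4 ρ`; then `k'' ≥ k₀`; and `k'' ≤ k' ≤ N` since `2 ^ (-k') ≤ ρ`.  Replacing
`I` by the single pair `(y₀, k'')` gives another cover, so minimality gives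
`∑_I (2⁻ᵏ)² ≤ (2 ^ (-k''))² ≤ 16 ρ²`.

Step 3 (the potential).  Let `a_i = |z - x_i| + r_i ≥ r_i > 0`.  The terms with `a_i > τ` contribute
at most `M(T) / τ ≤ ε / 4`.  For `m ≥ 0` the terms with `τ 2^(-m-1) < a_i ≤ τ 2^(-m)` contribute at
most `16 (τ 2^(-m))² * 2^(m+1) / τ = 32 τ 2^(-m)`; the sum over `m` is at most `64 τ ≤ ε / 2`
(finitely many `m` matter). -/
theorem exists_economical {d : ℕ} {S : Set (EuclideanSpace ℝ (Fin d))} (hS : IsCompact S) (h0 : μH[2] S = 0)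
    {ε δ : ℝ} (hε : 0 < ε) (hδ : 0 < δ) :
    ∃ (n : ℕ) (x : Fin n → EuclideanSpace ℝ (Fin d)) (r : Fin n → ℝ), (∀ i, 0 < r i ∧ r i ≤ δ) ∧
      (∀ i, x i ∈ S) ∧ (∀ y ∈ S, ∃ i, ‖y - x i‖ < r i) ∧
      ∀ z : EuclideanSpace ℝ (Fin d), ∑ i, r i ^ 2 / (‖z - x i‖ + r i) ≤ ε := by
  classical
  obtain ⟨k₀, hk₀⟩ := exists_pow_lt_of_lt_one hδ (by norm_num : (1 / 2 : ℝ) < 1)
  obtain ⟨τ, hτ, hτ1, hτ2⟩ : ∃ τ : ℝ, 0 < τ ∧ 4 * τ ≤ (1 / 2 : ℝ) ^ k₀ ∧ 200 * τ ≤ ε :=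
    ⟨min ((1 / 2 : ℝ) ^ k₀ / 8) (ε / 200), by positivity, by
      have h1 := min_le_left ((1 / 2 : ℝ) ^ k₀ / 8) (ε / 200)
      have h2 : 0 < (1 / 2 : ℝ) ^ k₀ := by positivity
      linarith, by linarith [min_le_right ((1 / 2 : ℝ) ^ k₀ / 8) (ε / 200)]⟩
  obtain ⟨T0, hT1, hT2, hT3⟩ := step1 hS h0 k₀ (η := τ * ε / 4) (by positivity)
  obtain ⟨T, hA, hB, hC, hD⟩ := step2 hT1 hT2
  have hE := step3 hτ hτ1 hD
  have e := T.equivFin.symm
  refine ⟨T.card, fun i => (e i).1.1, fun i => (1 / 2 : ℝ) ^ (e i).1.2, ?_, ?_, ?_, ?_⟩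
  · intro i
    refine ⟨by positivity, le_trans ?_ hk₀.le⟩
    exact pow_le_pow_of_le_one (by norm_num) (by norm_num) (hA _ (e i).2).2
  · intro i
    exact (hA _ (e i).2).1
  · intro y hy
    obtain ⟨p, hp, hyp⟩ := hB y hy
    refine ⟨e.symm ⟨p, hp⟩, ?_⟩
    show ‖y - (e (e.symm ⟨p, hp⟩)).1.1‖ < (1 / 2 : ℝ) ^ (e (e.symm ⟨p, hp⟩)).1.2
    rw [Equiv.apply_symm_apply, ← dist_eq_norm]
    exact hyp
  · intro z
    have h1 : ∑ i, ((1 / 2 : ℝ) ^ (e i).1.2) ^ 2 / (‖z - (e i).1.1‖ + (1 / 2 : ℝ) ^ (e i).1.2) =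
        ∑ p ∈ T, ((1 / 2 : ℝ) ^ p.2) ^ 2 / (dist z p.1 + (1 / 2 : ℝ) ^ p.2) := by
      rw [← Finset.sum_coe_sort T]
      simp only [dist_eq_norm]
      exact e.sum_comp fun p : T =>
        ((1 / 2 : ℝ) ^ p.1.2) ^ 2 / (‖z - p.1.1‖ + (1 / 2 : ℝ) ^ p.1.2)
    rw [h1]
    refine (hE z).trans ?_
    have h2 : Mt T / τ ≤ ε / 4 := by
      rw [div_le_iff₀ hτ]
      linarith
    linarith

end Pool.Agent.H819.HN
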