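import Mathlib

/-!
# Points of positive density of an integrable function
-/

set_option autoImplicit false

open Set Filter Topology MeasureTheory Metric
open scoped ENNReal NNReal

noncomputable section

namespace Pool.Agent.H819.HN

/-- Vitali covering by small closed balls with centres in `S` -/
theorem vit_cover {d : ℕ} {S W : Set (EuclideanSpace ℝ (Fin d))} (hW : IsOpen W) (hSW : S ⊆ W)
    {δ : ℝ} (hδ : 0 < δ) : ∃ (t : Set (EuclideanSpace ℝ (Fin d))) (r : EuclideanSpace ℝ (Fin d) → ℝ),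
      t ⊆ S ∧ t.Countable ∧ (∀ z ∈ t, 0 < r z ∧ r z ≤ δ ∧ closedBall z (r z) ⊆ W) ∧
      (t.PairwiseDisjoint fun z => closedBall z (r z)) ∧ S ⊆ ⋃ z ∈ t, closedBall z (5 * r z) := by
  have h1 : ∀ z : EuclideanSpace ℝ (Fin d), ∃ r : ℝ, z ∈ S → 0 < r ∧ r ≤ δ ∧ closedBall z r ⊆ W := by
    intro z
    by_cases hz : z ∈ S
    · obtain ⟨e, he, hb⟩ := Metric.isOpen_iff.1 hW z (hSW hz)
      refine ⟨min δ (e / 2), fun _ => ⟨lt_min hδ (half_pos he), min_le_left _ _, ?_⟩⟩
      exact (closedBall_subset_ball (lt_of_le_of_lt (min_le_right _ _) (half_lt_self he))).trans hb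
    · exact ⟨0, fun h => absurd h hz⟩
  choose r hr using h1
  obtain ⟨t, htS, hdis, hcov⟩ := Vitali.exists_disjoint_subfamily_covering_enlargement_closedBall
    S (fun z => z) r δ (fun z hz => (hr z hz).2.1) 5 (by norm_num)
  refine ⟨t, r, htS, ?_, fun z hz => hr z (htS hz), hdis, ?_⟩
  · refine hdis.countable_of_nonempty_interior (fun z hz => ?_)
    exact ⟨z, ball_subset_interior_closedBall (mem_ball_self (hr z (htS hz)).1)⟩
  · intro z hz
    obtain ⟨b, hb, hsub⟩ := hcov z hz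
    exact mem_biUnion hb (hsub (mem_closedBall_self (hr z hz).1.le))

/-- the sum of the powers of the radii of the cover is at most the integral -/
theorem sum_le {d : ℕ} {F : Type} [NormedAddCommGroup F] {f : EuclideanSpace ℝ (Fin d) → F}
    {c s₀ : ℝ} {S W : Set (EuclideanSpace ℝ (Fin d))}
    (hS : ∀ z ∈ S, ∀ s : ℝ, 0 < s → s ≤ s₀ →
      ENNReal.ofReal (c * s ^ (d - 2)) ≤ ∫⁻ z' in closedBall z s, ‖f z'‖ₑ)
    {t : Set (EuclideanSpace ℝ (Fin d))} {r : EuclideanSpace ℝ (Fin d) → ℝ} (htS : t ⊆ S)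
    (ht : t.Countable) (hr : ∀ z ∈ t, 0 < r z ∧ r z ≤ s₀ ∧ closedBall z (r z) ⊆ W)
    (hdis : t.PairwiseDisjoint fun z => closedBall z (r z)) :
    ∑' z : t, ENNReal.ofReal (c * r z ^ (d - 2)) ≤ ∫⁻ z' in W, ‖f z'‖ₑ := by
  calc ∑' z : t, ENNReal.ofReal (c * r z ^ (d - 2))
      ≤ ∑' z : t, ∫⁻ z' in closedBall (z : EuclideanSpace ℝ (Fin d)) (r z), ‖f z'‖ₑ :=
        ENNReal.tsum_le_tsum fun z => hS z (htS z.2) _ (hr z z.2).1 (hr z z.2).2.1
    _ = ∫⁻ z' in ⋃ z ∈ t, closedBall z (r z), ‖f z'‖ₑ :=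
        (lintegral_biUnion ht (fun z _ => isClosed_closedBall.measurableSet) hdis _).symm
    _ ≤ ∫⁻ z' in W, ‖f z'‖ₑ :=
        lintegral_mono_set (iUnion₂_subset fun z hz => (hr z hz).2.2)

/-- **Points of positive density are a null set.**  Let `f` be locally integrable on the open set
`U ⊆ ℝ^d`, `K ⊆ U` compact, and let `S` be the set of the points `z ∈ K` with
`∫_{B(z, s)} ‖f‖ ≥ c s^(d - 2)` for all `0 < s ≤ s₀`.  Then `μH[d - 2] S = 0`.

Proof.  `S` is bounded; shrink `s₀` so that `cthickening (2 * s₀) K ⊆ U` is compact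
(`IsCompact.exists_cthickening_subset_open`), so `f` is integrable on it.

(a) `volume S = 0`: at almost every point `z` of `U` the averages `(volume (B(z, s)))⁻¹ ∫_{B(z,s)}
‖f‖` converge to `‖f z‖ < ∞` (Lebesgue differentiation, e.g.
`IsUnifLocDoublingMeasure.ae_tendsto_average_norm_sub` / `ae_tendsto_average`, or
`Besicovitch.ae_tendsto_rnDeriv`, applied to the indicator of the compact neighbourhood times `f`),
while on `S` they are at least `c s^(d - 2) / (v s^d) → ∞`.  (Only `volume S = 0` for the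
measurable hull is needed: `S ⊆` the exceptional null set.)

(b) Given `κ > 0`, choose an open set `W ⊇ S`, `W ⊆ U`, with `∫_W ‖f‖ ≤ κ` (outer regularity of
`volume` with `volume S = 0`, and absolute continuity of the integral:
`exists_pos_setLIntegral_lt_of_measure_lt`, `Set.exists_isOpen_lt_of_lt`).

(c) Given `δ > 0`: the closed balls `closedBall z s ⊆ W`, `z ∈ S`, `s ≤ min s₀ (δ / 10)`, cover `S`;
by the Vitali covering theorem (`Vitali.exists_disjoint_subfamily_covering_enlargement_closedBall`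
with `τ = 5` or so) there is a disjoint (hence countable, as the balls have nonempty interior)
subfamily `B(z_i, s_i)` such that `S ⊆ ⋃ B(z_i, 5 s_i)`.  Choose for each `z ∈ S` ONE radius
`s(z)`.  Then `∑ diam(B(z_i, 5 s_i))^(d - 2) ≤ 10^(d - 2) ∑ s_i^(d - 2) ≤ 10^(d-2) / c * ∑
∫_{B(z_i, s_i)} ‖f‖ ≤ 10^(d-2) / c * κ`, and the diameters are at most `δ`.  By
`Measure.hausdorffMeasure_apply` (or `mkMetric_apply`, `hausdorffMeasure_le_liminf_tsum`) and
`δ, κ → 0` we get `μH[d - 2] S = 0`.  (If `d = 2` the exponent is `0` and the argument gives that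
the number of the balls is at most `κ / c < 1`, so `S` is empty; the term
`⨆ _ : (t n).Nonempty, diam (t n) ^ 0` is `1` for nonempty sets.  The same computation works.) -/
theorem hausdorff_null {d : ℕ} (hd : 2 ≤ d) {F : Type} [NormedAddCommGroup F]
    {U : Set (EuclideanSpace ℝ (Fin d))} (hU : IsOpen U) {f : EuclideanSpace ℝ (Fin d) → F}
    (hf : LocallyIntegrableOn f U) {K : Set (EuclideanSpace ℝ (Fin d))} (hK : IsCompact K)
    (hKU : K ⊆ U) {c s₀ : ℝ} (hc : 0 < c) (hs₀ : 0 < s₀) :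
    μH[((d - 2 : ℕ) : ℝ)] {z | z ∈ K ∧ ∀ s : ℝ, 0 < s → s ≤ s₀ →
      ENNReal.ofReal (c * s ^ (d - 2)) ≤ ∫⁻ z' in closedBall z s, ‖f z'‖ₑ} = 0 := by
  have hUK := hK.exists_cthickening_subset_open hU hKU
  obtain ⟨e, he, hV⟩ := hUK
  set V := cthickening e K with hVdef
  have hVc : IsCompact V := hK.cthickening
  have hfV : IntegrableOn f V := (hf.mono_set hV).integrableOn_isCompact hVc
  have hfin : ∫⁻ z, ‖f z‖ₑ ∂(volume.restrict V) ≠ ⊤ := hfV.2.ne
  set S : Set (EuclideanSpace ℝ (Fin d)) := {z | z ∈ K ∧ ∀ s : ℝ, 0 < s → s ≤ s₀ →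
      ENNReal.ofReal (c * s ^ (d - 2)) ≤ ∫⁻ z' in closedBall z s, ‖f z'‖ₑ} with hSdef
  have hSi : S ⊆ interior V := by
    intro z hz
    have h1 : z ∈ thickening e K := self_subset_thickening he K hz.1
    exact interior_maximal (thickening_subset_cthickening e K) isOpen_thickening h1
  have hSp : ∀ z ∈ S, ∀ s : ℝ, 0 < s → s ≤ s₀ →
      ENNReal.ofReal (c * s ^ (d - 2)) ≤ ∫⁻ z' in closedBall z s, ‖f z'‖ₑ := fun z hz => hz.2
  set I : ℝ≥0∞ := ∫⁻ z, ‖f z‖ₑ ∂(volume.restrict V) with hI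
  have : Nonempty (Fin d) := ⟨⟨0, by omega⟩⟩
  -- `S` has measure zero
  have hS0 : volume S = 0 := by
    set A : ℝ≥0∞ := ENNReal.ofReal (5 ^ d / c) * volume (ball (0 : EuclideanSpace ℝ (Fin d)) 1) * I
      with hA
    have hAfin : A ≠ ⊤ :=
      ENNReal.mul_ne_top (ENNReal.mul_ne_top ENNReal.ofReal_ne_top measure_ball_lt_top.ne) hfin
    have hbd : ∀ δ : ℝ, 0 < δ → δ ≤ s₀ → volume S ≤ ENNReal.ofReal (δ ^ 2) * A := by
      intro δ hδ hδs
      obtain ⟨t, r, htS, htc, hr, hdis, hcov⟩ := vit_cover isOpen_interior hSi hδ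
      have hsum := sum_le hSp htS htc (W := interior V)
        (fun z hz => ⟨(hr z hz).1, (hr z hz).2.1.trans hδs, (hr z hz).2.2⟩) hdis
      have hWI : ∫⁻ z' in interior V, ‖f z'‖ₑ ≤ I := lintegral_mono_set interior_subset
      have : Countable t := htc.to_subtype
      calc volume S ≤ volume (⋃ z ∈ t, closedBall z (5 * r z)) := measure_mono hcov
        _ ≤ ∑' z : t, volume (closedBall (z : EuclideanSpace ℝ (Fin d)) (5 * r z)) := by
            rw [biUnion_eq_iUnion]
            exact measure_iUnion_le _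
        _ ≤ ∑' z : t, (ENNReal.ofReal (δ ^ 2) * (ENNReal.ofReal (5 ^ d / c) *
              volume (ball (0 : EuclideanSpace ℝ (Fin d)) 1))) *
              ENNReal.ofReal (c * r z ^ (d - 2)) := by
            refine ENNReal.tsum_le_tsum fun z => ?_
            have hz := hr z z.2
            have hz0 := hz.1
            rw [Measure.addHaar_closedBall _ _ (by positivity), finrank_euclideanSpace_fin]
            have h2 : (5 * r z) ^ d ≤ δ ^ 2 * (5 ^ d / c) * (c * r z ^ (d - 2)) := by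
              have e1 : (5 * r z) ^ d = 5 ^ d * (r z ^ 2 * r z ^ (d - 2)) := by
                rw [mul_pow, ← pow_add]
                congr 2
                omega
              have e2 : δ ^ 2 * (5 ^ d / c) * (c * r z ^ (d - 2)) =
                  5 ^ d * (δ ^ 2 * r z ^ (d - 2)) := by
                field_simp
              rw [e1, e2]
              have e3 : r z ^ 2 ≤ δ ^ 2 := pow_le_pow_left₀ hz0.le hz.2.1 2
              gcongr
            calc ENNReal.ofReal ((5 * r z) ^ d) * volume (ball (0 : EuclideanSpace ℝ (Fin d)) 1)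
                ≤ ENNReal.ofReal (δ ^ 2 * (5 ^ d / c) * (c * r z ^ (d - 2))) *
                    volume (ball (0 : EuclideanSpace ℝ (Fin d)) 1) := by gcongr
              _ = _ := by
                rw [ENNReal.ofReal_mul (by positivity), ENNReal.ofReal_mul (by positivity)]
                ring
        _ = (ENNReal.ofReal (δ ^ 2) * (ENNReal.ofReal (5 ^ d / c) *
              volume (ball (0 : EuclideanSpace ℝ (Fin d)) 1))) *
              ∑' z : t, ENNReal.ofReal (c * r z ^ (d - 2)) := ENNReal.tsum_mul_left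
        _ ≤ (ENNReal.ofReal (δ ^ 2) * (ENNReal.ofReal (5 ^ d / c) *
              volume (ball (0 : EuclideanSpace ℝ (Fin d)) 1))) * I := by
            gcongr
            exact hsum.trans hWI
        _ = ENNReal.ofReal (δ ^ 2) * A := by rw [hA]; ring
    have hlim : Tendsto (fun δ : ℝ => ENNReal.ofReal (δ ^ 2) * A) (𝓝[>] 0) (𝓝 0) := by
      have h1 : Tendsto (fun δ : ℝ => δ ^ 2) (𝓝[>] 0) (𝓝 0) := by
        have : Tendsto (fun δ : ℝ => δ ^ 2) (𝓝 0) (𝓝 (0 ^ 2)) := (continuous_pow 2).tendsto 0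
        rw [zero_pow two_ne_zero] at this
        exact this.mono_left nhdsWithin_le_nhds
      have h2 : Tendsto (fun δ : ℝ => ENNReal.ofReal (δ ^ 2)) (𝓝[>] 0) (𝓝 0) := by
        have := ENNReal.tendsto_ofReal h1
        rwa [ENNReal.ofReal_zero] at this
      have h3 := ENNReal.Tendsto.mul_const h2 (Or.inr hAfin) (b := A)
      rwa [zero_mul] at h3
    refine le_antisymm (ge_of_tendsto hlim ?_) zero_le
    filter_upwards [Ioc_mem_nhdsGT hs₀] with δ hδ
    exact hbd δ hδ.1 hδ.2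
  -- open neighbourhoods with small integral
  have hW : ∀ κ : ℝ≥0∞, κ ≠ 0 → ∃ W : Set (EuclideanSpace ℝ (Fin d)), IsOpen W ∧ S ⊆ W ∧
      ∫⁻ z' in W, ‖f z'‖ₑ ≤ κ := by
    intro κ hκ
    obtain ⟨δ', hδ', h1⟩ := exists_pos_setLIntegral_lt_of_measure_lt hfin hκ
    obtain ⟨U', hU'S, hU'o, hU'⟩ := Set.exists_isOpen_lt_of_lt (μ := volume) S δ' (by
      rw [hS0]; exact hδ')
    refine ⟨U' ∩ interior V, hU'o.inter isOpen_interior, subset_inter hU'S hSi, ?_⟩
    have h2 := h1 (U' ∩ interior V) (lt_of_le_of_lt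
      ((Measure.restrict_apply_le _ _).trans (measure_mono inter_subset_left)) hU')
    rw [Measure.restrict_restrict_of_subset (inter_subset_right.trans interior_subset)] at h2
    exact h2.le
  -- the covers
  have hcover : ∀ n : ℕ, ∃ (t : Set (EuclideanSpace ℝ (Fin d)))
      (r : EuclideanSpace ℝ (Fin d) → ℝ), t.Countable ∧
      (∀ z ∈ t, 0 < r z ∧ r z ≤ 1 / ((n : ℝ) + 1)) ∧
      ∑' z : t, ENNReal.ofReal (c * r z ^ (d - 2)) ≤ ENNReal.ofReal (1 / ((n : ℝ) + 1)) ∧
      S ⊆ ⋃ z ∈ t, closedBall z (5 * r z) := by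
    intro n
    have hn : (0 : ℝ) < 1 / ((n : ℝ) + 1) := by positivity
    obtain ⟨W, hWo, hSW, hWI⟩ := hW (ENNReal.ofReal (1 / ((n : ℝ) + 1))) (by
      rw [Ne, ENNReal.ofReal_eq_zero, not_le]; exact hn)
    obtain ⟨t, r, htS, htc, hr, hdis, hcov⟩ := vit_cover hWo hSW (lt_min hn hs₀)
    refine ⟨t, r, htc, fun z hz => ⟨(hr z hz).1, (hr z hz).2.1.trans (min_le_left _ _)⟩, ?_, hcov⟩
    exact (sum_le hSp htS htc (W := W)
      (fun z hz => ⟨(hr z hz).1, (hr z hz).2.1.trans (min_le_right _ _), (hr z hz).2.2⟩)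
      hdis).trans hWI
  choose t r htc hr hsum hcov using hcover
  have : ∀ n, Countable (t n) := fun n => (htc n).to_subtype
  have hlim0 : Tendsto (fun n : ℕ => 1 / ((n : ℝ) + 1)) atTop (𝓝 0) :=
    tendsto_one_div_add_atTop_nhds_zero_nat
  have hr0 : Tendsto (fun n : ℕ => ENNReal.ofReal (10 * (1 / ((n : ℝ) + 1)))) atTop (𝓝 0) := by
    have h1 := ENNReal.tendsto_ofReal (hlim0.const_mul 10)
    rwa [mul_zero, ENNReal.ofReal_zero] at h1
  have hdiam : ∀ (n : ℕ) (z : t n),
      Metric.ediam (closedBall (z : EuclideanSpace ℝ (Fin d)) (5 * r n z)) ≤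
        ENNReal.ofReal (10 * r n z) := by
    intro n z
    refine Metric.ediam_le_of_forall_dist_le fun x hx y hy => ?_
    have h1 := dist_triangle_right x y (z : EuclideanSpace ℝ (Fin d))
    rw [mem_closedBall] at hx hy
    linarith
  have key := Measure.hausdorffMeasure_le_liminf_tsum ((d - 2 : ℕ) : ℝ) S (l := atTop)
    (fun n : ℕ => ENNReal.ofReal (10 * (1 / ((n : ℝ) + 1)))) hr0
    (fun n (z : t n) => closedBall (z : EuclideanSpace ℝ (Fin d)) (5 * r n z))
    (Eventually.of_forall fun n z => (hdiam n z).trans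
      (ENNReal.ofReal_le_ofReal (by linarith [(hr n z z.2).2])))
    (Eventually.of_forall fun n => by have h := hcov n; rw [biUnion_eq_iUnion] at h; exact h)
  refine le_antisymm (key.trans ?_) zero_le
  have hbound : ∀ n : ℕ, ∑' z : t n,
      Metric.ediam (closedBall (z : EuclideanSpace ℝ (Fin d)) (5 * r n z)) ^ ((d - 2 : ℕ) : ℝ) ≤
        ENNReal.ofReal (10 ^ (d - 2) / c) * ENNReal.ofReal (1 / ((n : ℝ) + 1)) := by
    intro n
    calc ∑' z : t n,
        Metric.ediam (closedBall (z : EuclideanSpace ℝ (Fin d)) (5 * r n z)) ^ ((d - 2 : ℕ) : ℝ)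
        ≤ ∑' z : t n, ENNReal.ofReal (10 ^ (d - 2) / c) * ENNReal.ofReal (c * r n z ^ (d - 2)) := by
          refine ENNReal.tsum_le_tsum fun z => ?_
          have hz := (hr n z z.2).1
          rw [ENNReal.rpow_natCast]
          refine (pow_le_pow_left' (hdiam n z) _).trans ?_
          rw [← ENNReal.ofReal_pow (by positivity), ← ENNReal.ofReal_mul (by positivity)]
          apply ENNReal.ofReal_le_ofReal
          rw [mul_pow]
          apply le_of_eq
          field_simp
      _ = ENNReal.ofReal (10 ^ (d - 2) / c) * ∑' z : t n, ENNReal.ofReal (c * r n z ^ (d - 2)) :=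
          ENNReal.tsum_mul_left
      _ ≤ _ := by
          gcongr
          exact hsum n
  have hlim1 : Tendsto (fun n : ℕ => ENNReal.ofReal (10 ^ (d - 2) / c) *
      ENNReal.ofReal (1 / ((n : ℝ) + 1))) atTop (𝓝 0) := by
    have h1 := ENNReal.tendsto_ofReal hlim0
    rw [ENNReal.ofReal_zero] at h1
    have h2 := ENNReal.Tendsto.const_mul h1 (Or.inr ENNReal.ofReal_ne_top)
      (a := ENNReal.ofReal (10 ^ (d - 2) / c))
    rwa [mul_zero] at h2
  calc liminf (fun n : ℕ => ∑' z : t n,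
      Metric.ediam (closedBall (z : EuclideanSpace ℝ (Fin d)) (5 * r n z)) ^ ((d - 2 : ℕ) : ℝ)) atTop
      ≤ liminf (fun n : ℕ => ENNReal.ofReal (10 ^ (d - 2) / c) *
          ENNReal.ofReal (1 / ((n : ℝ) + 1))) atTop :=
        liminf_le_liminf (Eventually.of_forall hbound)
    _ = 0 := hlim1.liminf_eq

end Pool.Agent.H819.HN
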