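import Mathlib
import Pool.Agent.H819.LN.Chart
import Pool.Agent.H819.HN.Vit

/-!
# The set of positive Lelong numbers is small
-/

set_option autoImplicit false

open Set Filter Topology MeasureTheory Metric
open scoped Manifold ContDiff ENNReal NNReal

noncomputable section

namespace Pool.Agent.H819.HN

open Pool.Agent.Y501.SY
open Pool.Agent.H819
open Pool.Agent.H819.LN
open Pool.Agent.H819.LG (trD tr)

variable {d : ℕ} {X : Type} [TopologicalSpace X] [ChartedSpace (E d) X] [IsManifold (𝓡 d) ∞ X]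

/-- a point with positive Lelong number has positive lower density in every chart -/
theorem lower_of_not_zero [T2Space X] {θ : Form d X 2} {p : X} (h : ¬ ZeroLelong θ p) (x₀ : X)
    (hp : p ∈ (chartAt (E d) x₀).source) :
    ∃ m : ℕ, ∀ s : ℝ, 0 < s → s ≤ 1 / ((m : ℝ) + 1) →
      ENNReal.ofReal (1 / ((m : ℝ) + 1) * s ^ (d - 2)) ≤
        ms (pb (chartAt (E d) x₀).symm θ) (chartAt (E d) x₀ p) s := by
  unfold ZeroLelong at h
  push Not at h
  obtain ⟨ε, hε, r₀, hr₀, h1⟩ := h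
  have hz : chartAt (E d) p p ∈ trD (d := d) p x₀ := by
    refine ⟨mem_chart_target (E d) p, ?_⟩
    show (chartAt (E d) p).symm (chartAt (E d) p p) ∈ (chartAt (E d) x₀).source
    rw [(chartAt (E d) p).left_inv (mem_chart_source (E d) p)]
    exact hp
  obtain ⟨s₀, hs₀, L, hL, C, hC, hch⟩ := dens_chart p x₀ hz
  obtain ⟨-, -, h2⟩ := hch _ (mem_closedBall_self hs₀.le)
  have htr : tr (d := d) p x₀ (chartAt (E d) p p) = chartAt (E d) x₀ p := by
    show chartAt (E d) x₀ ((chartAt (E d) p).symm (chartAt (E d) p p)) = _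
    rw [(chartAt (E d) p).left_inv (mem_chart_source (E d) p)]
  rw [htr] at h2
  have hL0 : 0 < L := by linarith
  set q : ℝ := min (L * s₀) (min (L * (r₀ / 2)) (ε / ((C + 1) * L ^ (d - 2)))) with hq
  have hq0 : 0 < q := by positivity
  obtain ⟨m, hm⟩ := exists_nat_one_div_lt hq0
  refine ⟨m, fun s hs hss => ?_⟩
  have hsq : s ≤ q := hss.trans hm.le
  have e1 : s / L ≤ s₀ := by
    rw [div_le_iff₀ hL0]
    have : s ≤ L * s₀ := hsq.trans (min_le_left _ _)
    linarith
  have e2 : s / L < r₀ := by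
    rw [div_lt_iff₀ hL0]
    have : s ≤ L * (r₀ / 2) := hsq.trans ((min_le_right _ _).trans (min_le_left _ _))
    nlinarith
  have e3 : 1 / ((m : ℝ) + 1) * ((C + 1) * L ^ (d - 2)) ≤ ε := by
    have : 1 / ((m : ℝ) + 1) ≤ ε / ((C + 1) * L ^ (d - 2)) :=
      hm.le.trans ((min_le_right _ _).trans (min_le_right _ _))
    rwa [le_div_iff₀ (by positivity)] at this
  have hsL : 0 < s / L := by positivity
  have h3 := h2 (s / L) hsL.le e1 θ
  have e4 : L * (s / L) = s := by field_simp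
  rw [e4] at h3
  have h4 : ENNReal.ofReal (ε * (s / L) ^ (d - 2)) ≤
      ENNReal.ofReal (C + 1) * ms (pb (chartAt (E d) x₀).symm θ) (chartAt (E d) x₀ p) s := by
    refine (h1 (s / L) hsL e2).le.trans (h3.trans ?_)
    unfold ms
    gcongr
    linarith
  have hC1 : ENNReal.ofReal (C + 1) ≠ 0 := by
    rw [Ne, ENNReal.ofReal_eq_zero, not_le]
    positivity
  have h5 : ENNReal.ofReal (C + 1) * ENNReal.ofReal (1 / ((m : ℝ) + 1) * s ^ (d - 2)) ≤
      ENNReal.ofReal (C + 1) * ms (pb (chartAt (E d) x₀).symm θ) (chartAt (E d) x₀ p) s := by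
    refine le_trans ?_ h4
    rw [← ENNReal.ofReal_mul (by positivity)]
    refine ENNReal.ofReal_le_ofReal ?_
    have e5 : (C + 1) * (1 / ((m : ℝ) + 1) * s ^ (d - 2)) =
        1 / ((m : ℝ) + 1) * ((C + 1) * L ^ (d - 2)) * (s / L) ^ (d - 2) := by
      rw [div_pow]
      field_simp
    rw [e5]
    gcongr
  exact (ENNReal.mul_le_mul_iff_right hC1 ENNReal.ofReal_ne_top).1 h5

/-- **The set of positive Lelong numbers has zero `(d - 2)`-dimensional Hausdorff measure.** -/
theorem null_lelong [T2Space X] (hd : 2 ≤ d) {θ : Form d X 2}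
    (hθ : ∀ x₀ : X, LocallyIntegrableOn (pb (chartAt (E d) x₀).symm θ)
      (chartAt (E d) x₀).target) (x₀ : X) :
    μH[((d - 2 : ℕ) : ℝ)] (chartAt (E d) x₀ '' ({p : X | ¬ ZeroLelong θ p} ∩
      (chartAt (E d) x₀).source)) = 0 := by
  refine measure_null_of_locally_null _ fun z hz => ?_
  have hzt : z ∈ (chartAt (E d) x₀).target := by
    obtain ⟨p, hp, rfl⟩ := hz
    exact (chartAt (E d) x₀).map_source hp.2
  obtain ⟨r, hr, hrt⟩ := Metric.nhds_basis_closedBall.mem_iff.1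
    ((chartAt (E d) x₀).open_target.mem_nhds hzt)
  refine ⟨_, inter_mem_nhdsWithin _ (closedBall_mem_nhds z hr), ?_⟩
  refine measure_mono_null (t := ⋃ m : ℕ, {w | w ∈ closedBall z r ∧ ∀ s : ℝ, 0 < s →
      s ≤ 1 / ((m : ℝ) + 1) → ENNReal.ofReal (1 / ((m : ℝ) + 1) * s ^ (d - 2)) ≤
        ∫⁻ z' in closedBall w s, ‖pb (chartAt (E d) x₀).symm θ z'‖ₑ}) ?_ ?_
  · rintro w ⟨⟨p, ⟨hp, hps⟩, rfl⟩, hw⟩
    obtain ⟨m, hm⟩ := lower_of_not_zero hp x₀ hps
    exact mem_iUnion.2 ⟨m, hw, hm⟩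
  · refine measure_iUnion_null fun m => ?_
    exact hausdorff_null hd (chartAt (E d) x₀).open_target (hθ x₀) (isCompact_closedBall z r) hrt
      (by positivity) (by positivity)

end Pool.Agent.H819.HN
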