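import Mathlib

/-!
# Logarithmic potentials for a constant complex structure
-/

set_option autoImplicit false

open Set Filter Topology MeasureTheory Metric
open scoped ContDiff ENNReal NNReal RealInnerProductSpace

noncomputable section

namespace Pool.Agent.H819.HN

namespace PotAux

variable {d : ℕ}

/-- the space -/
abbrev V (d : ℕ) : Type := EuclideanSpace ℝ (Fin d)

/-- the invariant inner product -/
def B (T : V d →L[ℝ] V d) : V d →L[ℝ] V d →L[ℝ] ℝ :=
  (1 / 2 : ℝ) • (innerSL ℝ + (innerSL ℝ).bilinearComp T T)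

theorem B_apply (T : V d →L[ℝ] V d) (u v : V d) : B T u v = (⟪u, v⟫ + ⟪T u, T v⟫) / 2 := by
  show (1 / 2 : ℝ) * (⟪u, v⟫ + ⟪T u, T v⟫) = (⟪u, v⟫ + ⟪T u, T v⟫) / 2
  ring

theorem B_symm (T : V d →L[ℝ] V d) (u v : V d) : B T u v = B T v u := by
  rw [B_apply, B_apply, real_inner_comm v u, real_inner_comm (T v) (T u)]

theorem B_TT {T : V d →L[ℝ] V d} (hT : ∀ u, T (T u) = -u) (u v : V d) :
    B T (T u) (T v) = B T u v := by
  rw [B_apply, B_apply, hT, hT, inner_neg_neg]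
  ring

theorem B_T_right {T : V d →L[ℝ] V d} (hT : ∀ u, T (T u) = -u) (u v : V d) :
    B T v (T u) = - B T u (T v) := by
  have h1 : B T v (T u) = B T (T v) (T (T u)) := (B_TT hT v (T u)).symm
  rw [h1, hT, map_neg, B_symm T (T v) u]

theorem B_self (T : V d →L[ℝ] V d) (u : V d) : B T u u = (‖u‖ ^ 2 + ‖T u‖ ^ 2) / 2 := by
  rw [B_apply, real_inner_self_eq_norm_sq, real_inner_self_eq_norm_sq]

theorem B_nonneg (T : V d →L[ℝ] V d) (u : V d) : 0 ≤ B T u u := by
  rw [B_self]; positivity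

theorem B_lower (T : V d →L[ℝ] V d) (u : V d) : ‖u‖ ^ 2 / 2 ≤ B T u u := by
  rw [B_self]
  have : 0 ≤ ‖T u‖ ^ 2 := by positivity
  linarith

theorem norm_T_le {T : V d →L[ℝ] V d} {M : ℝ} (hM : ‖T‖ ≤ M) (u : V d) : ‖T u‖ ≤ M * ‖u‖ :=
  (T.le_opNorm u).trans (mul_le_mul_of_nonneg_right hM (norm_nonneg u))

theorem B_upper {T : V d →L[ℝ] V d} {M : ℝ} (hM : ‖T‖ ≤ M) (u : V d) :
    B T u u ≤ (1 + M ^ 2) / 2 * ‖u‖ ^ 2 := by
  rw [B_self]
  have h1 := norm_T_le hM u
  have h2 : ‖T u‖ ^ 2 ≤ (M * ‖u‖) ^ 2 := pow_le_pow_left₀ (norm_nonneg _) h1 2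
  rw [mul_pow] at h2
  linarith

theorem B_upper2 {T : V d →L[ℝ] V d} {M : ℝ} (hM : ‖T‖ ≤ M) (u v : V d) :
    |B T u v| ≤ (1 + M ^ 2) / 2 * (‖u‖ * ‖v‖) := by
  rw [B_apply, abs_div, abs_of_pos (by norm_num : (0:ℝ) < 2)]
  have h1 := abs_real_inner_le_norm u v
  have h2 := abs_real_inner_le_norm (T u) (T v)
  have h3 : ‖T u‖ * ‖T v‖ ≤ (M * ‖u‖) * (M * ‖v‖) :=
    mul_le_mul (norm_T_le hM u) (norm_T_le hM v) (norm_nonneg _)
      ((norm_nonneg _).trans (norm_T_le hM u))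
  have h4 := abs_add_le ⟪u, v⟫ ⟪T u, T v⟫
  have h5 : (M * ‖u‖) * (M * ‖v‖) = M ^ 2 * (‖u‖ * ‖v‖) := by ring
  rw [h5] at h3
  linarith

/-- Cauchy-Schwarz together with the image under `T` -/
theorem bessel {T : V d →L[ℝ] V d} (hT : ∀ u, T (T u) = -u) (w u : V d) :
    (B T w u) ^ 2 + (B T w (T u)) ^ 2 ≤ B T w w * B T u u := by
  rcases eq_or_ne u 0 with hu | hu
  · subst hu
    simp
  have hq : 0 < B T u u := by
    have h1 := B_lower T u
    have h2 : 0 < ‖u‖ := norm_pos_iff.2 hu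
    have h3 : 0 < ‖u‖ ^ 2 / 2 := by positivity
    linarith
  have h0 : B T u (T u) = 0 := by
    have := B_T_right hT u u
    linarith
  have h0' : B T (T u) u = 0 := by rw [B_symm, h0]
  have h1 := B_nonneg T (B T u u • w - B T w u • u - B T w (T u) • T u)
  simp only [map_sub, map_smul, sub_apply, smul_apply, smul_eq_mul, B_TT hT, h0, h0', B_symm T u w, B_symm T (T u) w] at h1
  have h2 : 0 ≤ B T u u * (B T w w * B T u u - ((B T w u) ^ 2 + (B T w (T u)) ^ 2)) := by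
    nlinarith
  have h3 := nonneg_of_mul_nonneg_right h2 hq
  linarith

theorem cs {T : V d →L[ℝ] V d} (hT : ∀ u, T (T u) = -u) (w u : V d) :
    (B T w u) ^ 2 ≤ B T w w * B T u u := by
  have h1 := bessel hT w u
  have h2 := sq_nonneg (B T w (T u))
  linarith

theorem abs_le_sqrt {T : V d →L[ℝ] V d} (hT : ∀ u, T (T u) = -u) (w u : V d) :
    |B T w u| ≤ √(B T w w) * √(B T u u) := by
  rw [← Real.sqrt_mul (B_nonneg T w)]
  exact Real.abs_le_sqrt (cs hT w u)

/-- the denominator -/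
def h (T : V d →L[ℝ] V d) (x : V d) (r : ℝ) (z : V d) : ℝ := B T (z - x) (z - x) + r ^ 2

theorem h_pos (T : V d →L[ℝ] V d) (x : V d) {r : ℝ} (hr : 0 < r) (z : V d) : 0 < h T x r z := by
  have h1 := B_nonneg T (z - x)
  have h2 : 0 < r ^ 2 := by positivity
  unfold h
  linarith

/-- the pairing with the image under `T` -/
def L (T : V d →L[ℝ] V d) : V d →L[ℝ] V d →L[ℝ] ℝ :=
  (B T).bilinearComp (ContinuousLinearMap.id ℝ (V d)) T

theorem L_apply (T : V d →L[ℝ] V d) (w v : V d) : L T w v = B T w (T v) := rfl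

/-- the one-form as a field of linear forms -/
def g (T : V d →L[ℝ] V d) (x : V d) (r : ℝ) (z : V d) : V d →L[ℝ] ℝ :=
  (-(2 * r ^ 2) / h T x r z) • L T (z - x)

/-- linear forms as one-forms -/
def J (d : ℕ) : (V d →L[ℝ] ℝ) ≃ₗᵢ[ℝ] (V d) [⋀^Fin 1]→L[ℝ] ℝ :=
  ContinuousAlternatingMap.ofSubsingletonLIE (0 : Fin 1)

/-- the one-form -/
def b (T : V d →L[ℝ] V d) (x : V d) (r : ℝ) (z : V d) : (V d) [⋀^Fin 1]→L[ℝ] ℝ :=
  J d (g T x r z)

theorem b_apply (T : V d →L[ℝ] V d) (x : V d) (r : ℝ) (z v : V d) :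
    b T x r z ![v] = (-(2 * r ^ 2) * B T (z - x) (T v)) * (h T x r z)⁻¹ := by
  show (-(2 * r ^ 2) / h T x r z) * B T (z - x) (T v) = _
  rw [div_eq_mul_inv]
  ring

theorem contDiff_h (T : V d →L[ℝ] V d) (x : V d) (r : ℝ) : ContDiff ℝ ∞ (h T x r) := by
  have h1 : ContDiff ℝ ∞ (fun z : V d => z - x) := contDiff_id.sub contDiff_const
  exact (((B T).contDiff.comp h1).clm_apply h1).add contDiff_const

theorem contDiff_b (T : V d →L[ℝ] V d) (x : V d) {r : ℝ} (hr : 0 < r) :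
    ContDiff ℝ ∞ (b T x r) := by
  have h1 : ContDiff ℝ ∞ (fun z : V d => z - x) := contDiff_id.sub contDiff_const
  have h2 : ContDiff ℝ ∞ (fun z => -(2 * r ^ 2) / h T x r z) :=
    contDiff_const.div (contDiff_h T x r) fun z => (h_pos T x hr z).ne'
  have h3 : ContDiff ℝ ∞ (g T x r) := h2.smul ((L T).contDiff.comp h1)
  exact (J d).contDiff.comp h3

theorem hasFDerivAt_h (T : V d →L[ℝ] V d) (x : V d) (r : ℝ) (z : V d) :
    HasFDerivAt (h T x r) ((2 : ℝ) • B T (z - x)) z := by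
  have h1 : HasFDerivAt (fun z : V d => z - x) (ContinuousLinearMap.id ℝ (V d)) z :=
    (hasFDerivAt_id z).sub_const x
  have h2 : HasFDerivAt (fun z : V d => B T (z - x)) ((B T).comp (ContinuousLinearMap.id ℝ (V d))) z :=
    (B T).hasFDerivAt.comp z h1
  have h3 := (h2.clm_apply h1).add_const (r ^ 2)
  refine h3.congr_fderiv ?_
  ext u
  show B T (z - x) u + B T u (z - x) = 2 * B T (z - x) u
  rw [B_symm T u (z - x)]
  ring

theorem hasFDerivAt_b (T : V d →L[ℝ] V d) (x : V d) {r : ℝ} (hr : 0 < r) (z v : V d) :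
    HasFDerivAt (fun z => b T x r z ![v])
      (((-(2 * r ^ 2)) * B T (z - x) (T v)) • ((-((h T x r z) ^ 2)⁻¹) • ((2 : ℝ) • B T (z - x))) +
        (h T x r z)⁻¹ • ((-(2 * r ^ 2)) • B T (T v))) z := by
  have h1 : HasFDerivAt (fun z : V d => z - x) (ContinuousLinearMap.id ℝ (V d)) z :=
    (hasFDerivAt_id z).sub_const x
  have h2 : HasFDerivAt (fun z : V d => B T (T v) (z - x))
      ((B T (T v)).comp (ContinuousLinearMap.id ℝ (V d))) z :=
    (B T (T v)).hasFDerivAt.comp z h1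
  have h3 : HasFDerivAt (fun z : V d => (-(2 * r ^ 2)) * B T (z - x) (T v))
      ((-(2 * r ^ 2)) • B T (T v)) z := by
    have h4 := h2.const_mul (-(2 * r ^ 2))
    refine (h4.congr_of_eventuallyEq ?_).congr_fderiv ?_
    · exact Eventually.of_forall fun y => by
        show (-(2 * r ^ 2)) * B T (y - x) (T v) = (-(2 * r ^ 2)) * B T (T v) (y - x)
        rw [B_symm]
    · rfl
  have h5 : HasFDerivAt (fun z : V d => (h T x r z)⁻¹)
      ((-((h T x r z) ^ 2)⁻¹) • ((2 : ℝ) • B T (z - x))) z :=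
    (hasDerivAt_inv (h_pos T x hr z).ne').comp_hasFDerivAt z (hasFDerivAt_h T x r z)
  have h6 := h3.mul h5
  refine h6.congr_of_eventuallyEq ?_
  exact Eventually.of_forall fun y => b_apply T x r y v

theorem extDeriv_b {T : V d →L[ℝ] V d} (hT : ∀ u, T (T u) = -u) (x : V d) {r : ℝ} (hr : 0 < r)
    (z u v : V d) : extDeriv (b T x r) z ![u, v] =
      4 * r ^ 2 * (-(B T u (T v)) / h T x r z +
        (B T (z - x) (T v) * B T (z - x) u - B T (z - x) (T u) * B T (z - x) v) / (h T x r z) ^ 2) := by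
  have hd : DifferentiableAt ℝ (b T x r) z := (contDiff_b T x hr).differentiable (by simp) z
  rw [extDeriv_apply hd, Fin.sum_univ_two]
  have e0 : Fin.removeNth 0 ![u, v] = ![v] := by
    funext i; fin_cases i; rfl
  have e1 : Fin.removeNth 1 ![u, v] = ![u] := by
    funext i; fin_cases i; rfl
  rw [e0, e1, (hasFDerivAt_b T x hr z v).fderiv, (hasFDerivAt_b T x hr z u).fderiv]
  have hh := (h_pos T x hr z).ne'
  have h1 : B T (T v) u = B T u (T v) := B_symm T _ _
  have h2 : B T (T u) v = - B T u (T v) := by rw [B_symm, B_T_right hT]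
  simp only [Fin.val_zero, pow_zero, one_smul, Fin.val_one, pow_one, neg_smul, add_apply, smul_apply,
    smul_eq_mul, Matrix.cons_val_zero, Matrix.cons_val_one, h1, h2]
  field_simp
  ring

end PotAux

open PotAux in
/-- **The potential `r² log (q + r²)`.**  For every `M` there are constants `c > 0` and `C ≥ 0`
such that for every linear complex structure `T` on `ℝ^d` with `‖T‖ ≤ M`, every centre `x` and
every `r > 0` there is a smooth one-form `b` with the estimates below.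

Proof.  Let `⟨u, v⟩_q = (⟨u, v⟩ + ⟨T u, T v⟩) / 2` and `q(u) = ⟨u, u⟩_q`; this inner product is
`T`-invariant (`T² = -1`), in particular `⟨u, T u⟩_q = 0` and `q(T u) = q(u)`, and
`‖u‖² / 2 ≤ q(u) ≤ (1 + M²) / 2 * ‖u‖²`.  Let `φ(z) = r² log (q (z - x) + r²)` and
`b(z)(v) = - Dφ(z) (T v)`, that is (write `w = z - x`)
`b(z)(v) = - 2 r² ⟨w, T v⟩_q / (q(w) + r²)`.
(As a continuous alternating map in one variable: for example
`ContinuousAlternatingMap.ofSubsingleton`-type maps, or the map `v ↦ g (v 0)` for a continuous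
linear form `g`; smoothness of `b` in `z` follows from that of `z ↦ (v ↦ ⟨z - x, T v⟩_q) /
(q (z - x) + r²)`, since the denominator is positive.)
Then `extDeriv b z ![u, v] = D b(z)(u) ![v] - D b(z)(v) ![u] = - D²φ(u, T v) + D²φ(v, T u)`, where
`D²φ(z)(u, v) = r² (2 ⟨u, v⟩_q / (q(w) + r²) - 4 ⟨w, u⟩_q ⟨w, v⟩_q / (q(w) + r²)²)`.
* It is `T`-invariant because `D²φ` is symmetric and `T² = -1`.
* `extDeriv b z ![u, T u] = D²φ(u, u) + D²φ(T u, T u)
  = 4 r² (q(u) / (q(w) + r²) - (⟨w, u⟩_q² + ⟨w, T u⟩_q²) / (q(w) + r²)²)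
  ≥ 4 r² q(u) (1 / (q(w) + r²) - q(w) / (q(w) + r²)²) = 4 r⁴ q(u) / (q(w) + r²)²`,
  since `u, T u` are orthogonal with the same length for `⟨ , ⟩_q`
  (Bessel: `⟨w, u⟩_q² + ⟨w, T u⟩_q² ≤ q(w) q(u)`; expand `0 ≤ q (q(u) w - ⟨w,u⟩_q u - ⟨w,Tu⟩_q T u)`).
* On `‖w‖ ≤ r`: `q(w) + r² ≤ ((1 + M²) / 2 + 1) r²` and `q(u) ≥ ‖u‖² / 2`.
* `‖w‖ (‖w‖ + r) ≤ 3 (‖w‖² / 2 + r²) ≤ 3 (q(w) + r²)`, so `‖b z‖ ≤ C r² / (‖w‖ + r)` and
  `‖extDeriv b z‖ * ‖w‖ ≤ C r² / (‖w‖ + r)`, because `|D²φ(u, v)| ≤ 6 r² |u|_q |v|_q / (q(w) + r²)`. -/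
theorem exists_pot (d : ℕ) (M : ℝ) : ∃ c C : ℝ, 0 < c ∧ 0 ≤ C ∧
    ∀ T : EuclideanSpace ℝ (Fin d) →L[ℝ] EuclideanSpace ℝ (Fin d), (∀ u, T (T u) = -u) →
    ‖T‖ ≤ M → ∀ (x : EuclideanSpace ℝ (Fin d)) (r : ℝ), 0 < r →
    ∃ b : EuclideanSpace ℝ (Fin d) → (EuclideanSpace ℝ (Fin d)) [⋀^Fin 1]→L[ℝ] ℝ,
      ContDiff ℝ ∞ b ∧
      (∀ z, ‖b z‖ ≤ C * (r ^ 2 / (‖z - x‖ + r))) ∧
      (∀ z, ‖extDeriv b z‖ * ‖z - x‖ ≤ C * (r ^ 2 / (‖z - x‖ + r))) ∧
      (∀ z u v, extDeriv b z ![T u, T v] = extDeriv b z ![u, v]) ∧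
      (∀ z u, 0 ≤ extDeriv b z ![u, T u]) ∧
      ∀ z u, ‖z - x‖ ≤ r → c * ‖u‖ ^ 2 ≤ extDeriv b z ![u, T u] := by
  set K : ℝ := (1 + M ^ 2) / 2 + 1 with hK
  have hK0 : 0 < K := by rw [hK]; positivity
  refine ⟨2 / K ^ 2, 18 * (1 + M ^ 2), by positivity, by positivity, ?_⟩
  intro T hT hM x r hr
  -- the comparison of the weights
  have hw : ∀ z : V d, ‖z - x‖ / h T x r z ≤ 3 / (‖z - x‖ + r) := by
    intro z
    have h0 := h_pos T x hr z
    have hn := norm_nonneg (z - x)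
    rw [div_le_div_iff₀ h0 (by linarith)]
    have h1 := B_lower T (z - x)
    unfold h
    nlinarith [sq_nonneg (‖z - x‖ - r)]
  -- the lower bound
  have hlow : ∀ z u : V d, 4 * r ^ 4 * B T u u / (h T x r z) ^ 2 ≤
      extDeriv (PotAux.b T x r) z ![u, T u] := by
    intro z u
    have h0 := h_pos T x hr z
    rw [extDeriv_b hT x hr, hT, map_neg, map_neg]
    have h1 := bessel hT (z - x) u
    have e : 4 * r ^ 2 * (- -(B T u u) / h T x r z +
        (-(B T (z - x) u) * B T (z - x) u - B T (z - x) (T u) * B T (z - x) (T u)) / (h T x r z) ^ 2) =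
        4 * r ^ 2 * (B T u u * h T x r z - ((B T (z - x) u) ^ 2 + (B T (z - x) (T u)) ^ 2)) /
          (h T x r z) ^ 2 := by
      field_simp
      ring
    rw [e]
    apply div_le_div_of_nonneg_right _ (by positivity)
    have h2 : B T u u * h T x r z = B T u u * B T (z - x) (z - x) + B T u u * r ^ 2 := by
      unfold h; ring
    rw [h2]
    have h3 : 0 ≤ r ^ 2 := by positivity
    nlinarith
  refine ⟨PotAux.b T x r, contDiff_b T x hr, ?_, ?_, ?_, ?_, ?_⟩
  · intro z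
    have h0 := h_pos T x hr z
    have h1 : ‖PotAux.b T x r z‖ = ‖g T x r z‖ :=
      (J d).norm_map _
    have h2 : ‖g T x r z‖ ≤ (2 * r ^ 2 / h T x r z) * ((1 + M ^ 2) * ‖z - x‖) := by
      refine ContinuousLinearMap.opNorm_le_bound _ (by positivity) ?_
      intro v
      show ‖(-(2 * r ^ 2) / h T x r z) * B T (z - x) (T v)‖ ≤ _
      rw [norm_mul, norm_div, norm_neg, Real.norm_of_nonneg h0.le,
        Real.norm_of_nonneg (by positivity : (0:ℝ) ≤ 2 * r ^ 2), mul_assoc]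
      refine mul_le_mul_of_nonneg_left ?_ (by positivity)
      rw [Real.norm_eq_abs]
      have h3 := abs_le_sqrt hT (z - x) (T v)
      rw [B_TT hT] at h3
      refine h3.trans ?_
      have h4 : √(B T (z - x) (z - x)) ≤ √(1 + M ^ 2) * ‖z - x‖ := by
        rw [Real.sqrt_le_left (by positivity), mul_pow, Real.sq_sqrt (by positivity)]
        have := B_upper hM (z - x)
        have h5 : 0 ≤ (1 + M ^ 2) * ‖z - x‖ ^ 2 := by positivity
        linarith
      have h5 : √(B T v v) ≤ √(1 + M ^ 2) * ‖v‖ := by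
        rw [Real.sqrt_le_left (by positivity), mul_pow, Real.sq_sqrt (by positivity)]
        have := B_upper hM v
        have h5 : 0 ≤ (1 + M ^ 2) * ‖v‖ ^ 2 := by positivity
        linarith
      calc √(B T (z - x) (z - x)) * √(B T v v) ≤ (√(1 + M ^ 2) * ‖z - x‖) * (√(1 + M ^ 2) * ‖v‖) :=
            mul_le_mul h4 h5 (Real.sqrt_nonneg _) (by positivity)
        _ = (√(1 + M ^ 2) * √(1 + M ^ 2)) * ‖z - x‖ * ‖v‖ := by ring
        _ = (1 + M ^ 2) * ‖z - x‖ * ‖v‖ := by rw [Real.mul_self_sqrt (by positivity)]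
    rw [h1]
    refine h2.trans ?_
    have h3 := hw z
    have hn := norm_nonneg (z - x)
    calc (2 * r ^ 2 / h T x r z) * ((1 + M ^ 2) * ‖z - x‖)
        = 2 * (1 + M ^ 2) * r ^ 2 * (‖z - x‖ / h T x r z) := by ring
      _ ≤ 2 * (1 + M ^ 2) * r ^ 2 * (3 / (‖z - x‖ + r)) :=
          mul_le_mul_of_nonneg_left h3 (by positivity)
      _ = 6 * (1 + M ^ 2) * (r ^ 2 / (‖z - x‖ + r)) := by ring
      _ ≤ 18 * (1 + M ^ 2) * (r ^ 2 / (‖z - x‖ + r)) := by
          refine mul_le_mul_of_nonneg_right ?_ (by positivity)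
          nlinarith [sq_nonneg M]
  · intro z
    have h0 := h_pos T x hr z
    have hn := norm_nonneg (z - x)
    have h1 : ‖extDeriv (PotAux.b T x r) z‖ ≤ 6 * (1 + M ^ 2) * r ^ 2 / h T x r z := by
      refine ContinuousAlternatingMap.opNorm_le_bound _ (by positivity) ?_
      intro m
      have em : m = ![m 0, m 1] := by
        funext i; fin_cases i <;> rfl
      rw [em, Fin.prod_univ_two]
      show ‖extDeriv (PotAux.b T x r) z ![m 0, m 1]‖ ≤ _ * (‖m 0‖ * ‖m 1‖)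
      generalize m 0 = u
      generalize m 1 = v
      rw [extDeriv_b hT x hr]
      have a1 := abs_le_sqrt hT u (T v)
      have a2 := abs_le_sqrt hT (z - x) (T v)
      have a3 := abs_le_sqrt hT (z - x) u
      have a4 := abs_le_sqrt hT (z - x) (T u)
      have a5 := abs_le_sqrt hT (z - x) v
      rw [B_TT hT] at a1 a2 a4
      have hU := Real.sqrt_nonneg (B T u u)
      have hV := Real.sqrt_nonneg (B T v v)
      have hW := Real.sqrt_nonneg (B T (z - x) (z - x))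
      have hWs := Real.sq_sqrt (B_nonneg T (z - x))
      have hUs : √(B T u u) ^ 2 = B T u u := Real.sq_sqrt (B_nonneg T u)
      have hVs : √(B T v v) ^ 2 = B T v v := Real.sq_sqrt (B_nonneg T v)
      have hUV : √(B T u u) * √(B T v v) ≤ (1 + M ^ 2) / 2 * (‖u‖ * ‖v‖) := by
        rw [← Real.sqrt_mul (B_nonneg T u), Real.sqrt_le_left (by positivity)]
        calc B T u u * B T v v ≤ ((1 + M ^ 2) / 2 * ‖u‖ ^ 2) * ((1 + M ^ 2) / 2 * ‖v‖ ^ 2) :=
              mul_le_mul (B_upper hM u) (B_upper hM v) (B_nonneg T v) (by positivity)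
          _ = _ := by ring
      generalize √(B T u u) = U at *
      generalize √(B T v v) = W1 at *
      generalize hWg : √(B T (z - x) (z - x)) = W at *
      have b1 : |B T (z - x) (T v) * B T (z - x) u| ≤ W ^ 2 * (U * W1) := by
        rw [abs_mul]
        calc |B T (z - x) (T v)| * |B T (z - x) u| ≤ (W * W1) * (W * U) :=
              mul_le_mul a2 a3 (abs_nonneg _) (by positivity)
          _ = _ := by ring
      have b2 : |B T (z - x) (T u) * B T (z - x) v| ≤ W ^ 2 * (U * W1) := by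
        rw [abs_mul]
        calc |B T (z - x) (T u)| * |B T (z - x) v| ≤ (W * U) * (W * W1) :=
              mul_le_mul a4 a5 (abs_nonneg _) (by positivity)
          _ = _ := by ring
      have b3 : W ^ 2 ≤ h T x r z := by
        rw [hWs]; unfold h
        have : 0 ≤ r ^ 2 := by positivity
        linarith
      have b4 : |B T (z - x) (T v) * B T (z - x) u - B T (z - x) (T u) * B T (z - x) v| ≤
          2 * (h T x r z * (U * W1)) := by
        have c1 := abs_sub (B T (z - x) (T v) * B T (z - x) u) (B T (z - x) (T u) * B T (z - x) v)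
        have c2 : W ^ 2 * (U * W1) ≤ h T x r z * (U * W1) :=
          mul_le_mul_of_nonneg_right b3 (by positivity)
        linarith
      rw [Real.norm_eq_abs, abs_mul, abs_of_nonneg (by positivity : (0:ℝ) ≤ 4 * r ^ 2)]
      have b5 : |-(B T u (T v)) / h T x r z +
          (B T (z - x) (T v) * B T (z - x) u - B T (z - x) (T u) * B T (z - x) v) / (h T x r z) ^ 2| ≤
          3 * (U * W1) / h T x r z := by
        refine (abs_add_le _ _).trans ?_
        rw [abs_div, abs_div, abs_neg, abs_of_pos h0, abs_of_pos (by positivity : 0 < h T x r z ^ 2)]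
        have c1 : |B T u (T v)| / h T x r z ≤ (U * W1) / h T x r z :=
          div_le_div_of_nonneg_right a1 h0.le
        have c2 : |B T (z - x) (T v) * B T (z - x) u - B T (z - x) (T u) * B T (z - x) v| /
            (h T x r z) ^ 2 ≤ 2 * (U * W1) / h T x r z := by
          rw [div_le_div_iff₀ (by positivity) h0]
          calc _ ≤ 2 * (h T x r z * (U * W1)) * h T x r z := mul_le_mul_of_nonneg_right b4 h0.le
            _ = 2 * (U * W1) * (h T x r z) ^ 2 := by ring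
        calc _ ≤ (U * W1) / h T x r z + 2 * (U * W1) / h T x r z := add_le_add c1 c2
          _ = _ := by ring
      calc 4 * r ^ 2 * _ ≤ 4 * r ^ 2 * (3 * (U * W1) / h T x r z) :=
            mul_le_mul_of_nonneg_left b5 (by positivity)
        _ = 12 * r ^ 2 / h T x r z * (U * W1) := by ring
        _ ≤ 12 * r ^ 2 / h T x r z * ((1 + M ^ 2) / 2 * (‖u‖ * ‖v‖)) :=
            mul_le_mul_of_nonneg_left hUV (by positivity)
        _ = 6 * (1 + M ^ 2) * r ^ 2 / h T x r z * (‖u‖ * ‖v‖) := by ring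
    calc ‖extDeriv (PotAux.b T x r) z‖ * ‖z - x‖ ≤ 6 * (1 + M ^ 2) * r ^ 2 / h T x r z * ‖z - x‖ :=
          mul_le_mul_of_nonneg_right h1 hn
      _ = 6 * (1 + M ^ 2) * r ^ 2 * (‖z - x‖ / h T x r z) := by ring
      _ ≤ 6 * (1 + M ^ 2) * r ^ 2 * (3 / (‖z - x‖ + r)) :=
          mul_le_mul_of_nonneg_left (hw z) (by positivity)
      _ = 18 * (1 + M ^ 2) * (r ^ 2 / (‖z - x‖ + r)) := by ring
  · intro z u v
    rw [extDeriv_b hT x hr, extDeriv_b hT x hr, hT, hT, map_neg, map_neg, map_neg,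
      B_T_right hT v u, B_symm T v (T u), B_T_right hT]
    ring
  · intro z u
    refine le_trans ?_ (hlow z u)
    have h1 := B_nonneg T u
    positivity
  · intro z u hz
    refine le_trans ?_ (hlow z u)
    have h0 := h_pos T x hr z
    have h1 : h T x r z ≤ K * r ^ 2 := by
      have h2 := B_upper hM (z - x)
      have h3 : ‖z - x‖ ^ 2 ≤ r ^ 2 := pow_le_pow_left₀ (norm_nonneg _) hz 2
      have h4 : (1 + M ^ 2) / 2 * ‖z - x‖ ^ 2 ≤ (1 + M ^ 2) / 2 * r ^ 2 :=
        mul_le_mul_of_nonneg_left h3 (by positivity)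
      unfold h
      rw [hK]
      linarith
    have h2 : (h T x r z) ^ 2 ≤ K ^ 2 * r ^ 4 := by
      calc (h T x r z) ^ 2 ≤ (K * r ^ 2) ^ 2 := pow_le_pow_left₀ h0.le h1 2
        _ = _ := by ring
    have h3 := B_lower T u
    rw [le_div_iff₀ (by positivity)]
    calc 2 / K ^ 2 * ‖u‖ ^ 2 * (h T x r z) ^ 2 ≤ 2 / K ^ 2 * ‖u‖ ^ 2 * (K ^ 2 * r ^ 4) :=
          mul_le_mul_of_nonneg_left h2 (by positivity)
      _ = 4 * r ^ 4 * (‖u‖ ^ 2 / 2) := by field_simp; ring
      _ ≤ 4 * r ^ 4 * B T u u := mul_le_mul_of_nonneg_left h3 (by positivity)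

end Pool.Agent.H819.HN
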