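import Mathlib
import Pool.Agent.H819.LN.Fin
import Pool.Agent.H819.HN.Main
import Pool.Agent.H819.HN.Null
import Pool.Agent.H819.HN.Cover
import Pool.Agent.H819.HN.Pot
import Pool.Agent.H819.HN.PotSum

/-!
# Sets of positive Lelong numbers and taming forms
-/

set_option autoImplicit false

open Set Filter Topology MeasureTheory Metric
open scoped Manifold ContDiff ENNReal NNReal

noncomputable section

namespace Pool.Agent.H819.HN

open Pool.Agent.Y501.SY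
open Pool.Agent.H819
open Pool.Agent.H819.LN
open Pool.Agent.H819.LG (GoodAt InClass TamedIn Represents StronglyTames LocHolder VanishingDensity
  exists_cover criterion)

theorem near (d : ℕ) : S_Near d := fun _ hU _ hA2 hc hlip _ hS hSU h0 K _ hε =>
  exists_exact_near (fun _ hS h0 _ _ hε hδ => exists_economical hS h0 hε hδ)
    (fun M => exists_pot d M) hU hA2 hc hlip hS hSU h0 K hε

variable {d : ℕ} {X : Type} [TopologicalSpace X] [ChartedSpace (E d) X]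

/-- the `s`-dimensional Hausdorff measure of `A` is zero -/
def HN (s : ℝ) (A : Set X) : Prop :=
  ∀ x₀ : X, μH[s] (chartAt (E d) x₀ '' (A ∩ (chartAt (E d) x₀).source)) = 0

theorem HN.mono {s : ℝ} {A B : Set X} (h : HN (d := d) s B) (hA : A ⊆ B) : HN (d := d) s A :=
  fun x₀ => measure_mono_null (image_mono (inter_subset_inter_left _ hA)) (h x₀)

theorem HN.up {s t : ℝ} {A : Set X} (h : HN (d := d) s A) (hs : s ≤ t) : HN (d := d) t A :=
  fun x₀ => le_antisymm ((Measure.hausdorffMeasure_mono hs _).trans (h x₀).le) bot_le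

variable [IsManifold (𝓡 d) ∞ X]

theorem null_criterion [T2Space X] [CompactSpace X] (hd : 2 ≤ d) {J : End d X}
    (hJ2 : ∀ (x : X) (v : TangentSpace (𝓡 d) x), J x (J x v) = -v)
    (hJ : ∀ x₀, ContinuousOn (inChart J x₀) (chartAt (E d) x₀).target)
    (hJL : LocHolder J 1) {σ₀ : Form d X 2} (hσ : IsSmooth σ₀) (hcl : IsClosedForm σ₀) :
    (∀ θ, Represents σ₀ θ → StronglyTames θ J → BoundedDensity θ ∧
      HN (d := d) ((d : ℝ) - 2) {p | ¬ ZeroLelong θ p}) ∧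
    (TamedIn σ₀ J ↔ ∃ θ, Represents σ₀ θ ∧ StronglyTames θ J ∧
      ∃ S : Set X, IsClosed S ∧ IsTotallyDisconnected S ∧
        (∀ p ∈ S, ContDiffAt ℝ 1 (inChart J p) (chartAt (E d) p p)) ∧
        HN (d := d) 2 {p | p ∉ S ∧ ¬ ZeroLelong θ p}) ∧
    (d ≤ 4 → (TamedIn σ₀ J ↔ ∃ θ, Represents σ₀ θ ∧ StronglyTames θ J)) := by
  have hback : TamedIn σ₀ J → ∃ θ, Represents σ₀ θ ∧ StronglyTames θ J ∧
      ∀ p, ZeroLelong θ p := by
    intro h
    obtain ⟨n, x, K, N, hK, hN, hKN, hNt, hcov⟩ := exists_cover d X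
    obtain ⟨ε, ρ₀, -, hcr⟩ := criterion d X n x K N ⟨hK, hN, hKN, hNt, hcov⟩
    obtain ⟨θ, h1, h2, h3⟩ := ((hcr J hJ σ₀ hσ hcl).1.out 0 2).1 h
    exact ⟨θ, h1, h2, zero_of_vanishing hd h3⟩
  have hnull : ∀ θ, Represents σ₀ θ → StronglyTames θ J →
      HN (d := d) ((d : ℝ) - 2) {p | ¬ ZeroLelong θ p} := by
    intro θ h1 h2 x₀
    have h3 := null_lelong hd (fun x₀ => (taming_chart hJ2 hJ hJL hσ hcl h1 h2 x₀).int) x₀
    rwa [Nat.cast_sub hd, Nat.cast_two] at h3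
  have hfor : ∀ θ, Represents σ₀ θ → StronglyTames θ J → ∀ S : Set X, IsClosed S →
      IsTotallyDisconnected S → (∀ p ∈ S, ContDiffAt ℝ 1 (inChart J p) (chartAt (E d) p p)) →
      HN (d := d) 2 {p | p ∉ S ∧ ¬ ZeroLelong θ p} → TamedIn σ₀ J :=
    fun θ h1 h2 S hS hSd hS1 h0 =>
      tamedIn_of_null hd (near d) hJ2 hJ hJL hσ hcl h1 h2 hS hSd hS1 h0
  refine ⟨fun θ h1 h2 => ⟨fun x₀ K hK hKt => ?_, hnull θ h1 h2⟩, ⟨fun h => ?_, ?_⟩,
    fun hd4 => ⟨fun h => ?_, ?_⟩⟩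
  · exact dens_bound hd (taming_chart hJ2 hJ hJL hσ hcl h1 h2 x₀) hK hKt
  · obtain ⟨θ, h1, h2, h3⟩ := hback h
    refine ⟨θ, h1, h2, ∅, isClosed_empty, isTotallyDisconnected_empty, fun p hp => hp.elim,
      fun x₀ => ?_⟩
    have h4 : {p : X | p ∉ (∅ : Set X) ∧ ¬ ZeroLelong θ p} = ∅ := by
      ext p
      simp [h3 p]
    rw [h4, empty_inter, image_empty, measure_empty]
  · rintro ⟨θ, h1, h2, S, hS, hSd, hS1, h0⟩
    exact hfor θ h1 h2 S hS hSd hS1 h0
  · obtain ⟨θ, h1, h2, -⟩ := hback h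
    exact ⟨θ, h1, h2⟩
  · rintro ⟨θ, h1, h2⟩
    refine hfor θ h1 h2 ∅ isClosed_empty isTotallyDisconnected_empty (fun p hp => hp.elim) ?_
    refine ((hnull θ h1 h2).up ?_).mono fun p hp => hp.2
    have : (d : ℝ) ≤ 4 := by exact_mod_cast hd4
    linarith

end Pool.Agent.H819.HN
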