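import Mathlib
import Pool.Agent.H819.LN.Pub

/-!
# Sets of positive Lelong numbers: definitions
-/

set_option autoImplicit false

open Set Filter Topology MeasureTheory Metric
open scoped Manifold ContDiff ENNReal NNReal

noncomputable section

namespace Pool.Agent.H819.HNP

open Pool.Agent.Y501.SYP Pool.Agent.H819.LGP Pool.Agent.H819.LNP

variable {V : Type} [NormedAddCommGroup V] [NormedSpace ℝ V]
  {X : Type} [TopologicalSpace X] [ChartedSpace V X]

/-- `J` is of class `C^1` near the point `p`. -/
def C1At (J : End V X) (p : X) : Prop := ContDiffAt ℝ 1 (op J p) (chartAt V p p)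

/-- The `s`-dimensional Hausdorff measure of `A` is zero, in the charts. -/
def HausdorffNull [MeasurableSpace V] [BorelSpace V] (s : ℝ) (A : Set X) : Prop :=
  ∀ x₀ : X, μH[s] (chartAt V x₀ '' (A ∩ (chartAt V x₀).source)) = 0

end Pool.Agent.H819.HNP
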