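import Mathlib
import Pool.Agent.H819.HN.Pub
import Pool.Agent.H819.HN.Fin
import Pool.Agent.H819.LN.Br

/-!
# Comparison of the definitions
-/

set_option autoImplicit false

open Set Filter Topology MeasureTheory Metric
open scoped Manifold ContDiff ENNReal NNReal

noncomputable section

namespace Pool.Agent.H819.HNP

open Pool.Agent.Y501 (SY.E)
open Pool.Agent.Y501.SYP Pool.Agent.H819.LGP Pool.Agent.H819.LNP
open Pool.Agent

variable {d : ℕ} {X : Type} [TopologicalSpace X] [ChartedSpace (ES d) X]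

attribute [local instance] cs

theorem null_iff (s : ℝ) (A : Set X) :
    HausdorffNull (V := ES d) s A ↔ H819.HN.HN (d := d) (X := X) s A := Iff.rfl

theorem c1at_iff (J : End (ES d) X) (p : X) : C1At J p ↔
    ContDiffAt ℝ 1 (Y501.SY.inChart (d := d) (X := X) J p)
      (chartAt (Y501.SY.E d) p p) := Iff.rfl

theorem lelong_ne (θ : Form (ES d) X 2) (p : X) :
    lelong (leb d) d θ p ≠ 0 ↔ ¬ H819.LN.ZeroLelong (d := d) (X := X) θ p :=
  not_congr (lelong_iff θ p)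

theorem result_aux (hd : 2 ≤ d) [IsManifold 𝓘(ℝ, ES d) ∞ X] [CompactSpace X] [T2Space X]
    {J : End (ES d) X} (hJ : IsAlmostComplex J) (hJL : LocHolder J 1) {σ₀ : Form (ES d) X 2}
    (hσ : IsSmooth σ₀) (hcl : IsClosedForm σ₀) :
    (∀ θ, Represents (leb d) σ₀ θ → StronglyTames (leb d) θ J → BoundedDensity (leb d) d θ ∧
      HausdorffNull (V := ES d) ((d : ℝ) - 2) {p | lelong (leb d) d θ p ≠ 0}) ∧
    (TamedIn σ₀ J ↔ ∃ θ, Represents (leb d) σ₀ θ ∧ StronglyTames (leb d) θ J ∧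
      ∃ S : Set X, IsClosed S ∧ IsTotallyDisconnected S ∧ (∀ p ∈ S, C1At J p) ∧
        HausdorffNull (V := ES d) 2 {p | p ∉ S ∧ lelong (leb d) d θ p ≠ 0}) ∧
    (d ≤ 4 → (TamedIn σ₀ J ↔ ∃ θ, Represents (leb d) σ₀ θ ∧ StronglyTames (leb d) θ J)) := by
  have hm : IsManifold (𝓡 d) ∞ X := (inferInstance : IsManifold 𝓘(ℝ, ES d) ∞ X)
  have h1 := H819.HN.null_criterion (d := d) (X := X) hd hJ.sq (cont_of hJ)
    ((holder_iff J 1).1 hJL) ((smooth_iff σ₀).1 hσ) ((closed_iff σ₀).1 hcl)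
  simp only [tamed_iff, rep_iff, strong_iff, lelong_ne, bounded_iff, null_iff, c1at_iff]
  exact h1

end Pool.Agent.H819.HNP
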